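import Mathlib

/-!
# Branching trees with arbitrary splitting predicates

The definitions used by the statement of the lower bound.
-/

namespace Pool.Agent.H538R2.SB

variable {n : ℕ}

/-- assignments to `n` Boolean variables -/
abbrev Asg (n : ℕ) := Fin n → Bool

/-- A clause over `n` Boolean variables: a finite set of literals; the literal `(v, b)` is true
at the assignment `x` iff `x v = b`. A CNF formula is a finite set of clauses. -/
abbrev Clause (n : ℕ) := Finset (Fin n × Bool)

/-- all literals of `C` are false at `x`, that is, `x` falsifies the clause `C` -/
def FalseAt (C : Clause n) (x : Asg n) : Prop := ∀ l ∈ C, x l.1 ≠ l.2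

instance (C : Clause n) (x : Asg n) : Decidable (FalseAt C x) := by
  unfold FalseAt; infer_instance

/-- A (generous) measure of the length of an encoding of the CNF formula `F` over `n` variables:
every literal occurrence, every clause and the end of the formula cost `n + 1` each. -/
def cnfSize (F : Finset (Clause n)) : ℕ := (n + 1) * (1 + ∑ C ∈ F, (C.card + 1))

/-- Branching trees: every inner node asks an arbitrary Boolean predicate of the assignment,
every leaf carries a finite set of clauses. -/
inductive BTree (n : ℕ) : Type where
  | leaf (A : Finset (Finset (Fin n × Bool))) : BTree n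
  | node (q : (Fin n → Bool) → Bool) (t₀ t₁ : BTree n) : BTree n

namespace BTree

/-- number of leaves -/
def leaves : BTree n → ℕ
  | leaf _ => 1
  | node _ t₀ t₁ => t₀.leaves + t₁.leaves

/-- the set of clauses at the leaf reached by `x` (`false` branches to `t₀`, `true` to `t₁`) -/
def out : BTree n → (Fin n → Bool) → Finset (Finset (Fin n × Bool))
  | leaf A, _ => A
  | node q t₀ t₁, x => if q x = true then t₁.out x else t₀.out x

/-- all the predicates asked belong to `S` -/
def Uses (S : Set ((Fin n → Bool) → Bool)) : BTree n → Prop
  | leaf _ => True
  | node q t₀ t₁ => q ∈ S ∧ t₀.Uses S ∧ t₁.Uses S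

open Classical in
/-- The number of queries outside `A` which are asked on input `x`. -/
noncomputable def cost (A : Set ((Fin n → Bool) → Bool)) :
    BTree n → (Fin n → Bool) → ℕ
  | leaf _, _ => 0
  | node q t₀ t₁, x => (if q ∈ A then 0 else 1) + (if q x = true then t₁.cost A x else t₀.cost A x)

end BTree

/-- a Boolean value as an element of `ℤ/2` -/
def bit (b : Bool) : ZMod 2 := if b = true then 1 else 0

/-- The Boolean functions which are the XOR of a constant and of finitely many members of `L`. -/
def xorSpan (L : Finset ((Fin n → Bool) → Bool)) : Set ((Fin n → Bool) → Bool) :=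
  {q | ∃ S ⊆ L, ∃ c : ZMod 2, ∀ x, bit (q x) = c + ∑ g ∈ S, bit (g x)}

end Pool.Agent.H538R2.SB
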