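import Mathlib
import Pool.Agent.H538R2.SBDefs

/-!
# Resolution refutations

Definitions for the lower bound for resolution refutations of almost quadratic depth.
-/

namespace Pool.Agent.H538R2.SB

variable {n : ℕ}

/-- A resolution refutation of the CNF formula `F`: a finite set of clauses containing the empty
clause, in which every clause either contains a clause of `F`, or follows by resolving two clauses
of smaller rank on a variable `v` (possibly followed by weakening).
The depth of the refutation is the rank of the empty clause. -/
structure Resolution (F : Finset (Clause n)) (lines : Finset (Clause n))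
    (rk : Clause n → ℕ) : Prop where
  last : ∅ ∈ lines
  step : ∀ C ∈ lines, (∃ D ∈ F, D ⊆ C) ∨
    ∃ v : Fin n, ∃ C₀ ∈ lines, ∃ C₁ ∈ lines,
      C₀ ⊆ insert (v, true) C ∧ C₁ ⊆ insert (v, false) C ∧ rk C₀ < rk C ∧ rk C₁ < rk C

end Pool.Agent.H538R2.SB
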