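import Mathlib
import Pool.Agent.H538R2.SBDefs

/-!
Combinatorial core for the lower bound on branching trees with arbitrary splitting predicates.
-/

namespace Pool.Agent.H538R2.SB

open Finset

variable {n N : ℕ}

section cells

variable (blk : Fin n → Fin N)

/-- `y` agrees with `x` on all variables whose block is in `K` -/
def Agree (K : Finset (Fin N)) (x y : Asg n) : Prop := ∀ v, blk v ∈ K → y v = x v

instance (K : Finset (Fin N)) (x y : Asg n) : Decidable (Agree blk K x y) := by
  unfold Agree; infer_instance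

lemma Agree.refl (K : Finset (Fin N)) (x : Asg n) : Agree blk K x x := fun _ _ => rfl

variable {blk} in
lemma Agree.symm {K : Finset (Fin N)} {x y : Asg n} (h : Agree blk K x y) : Agree blk K y x :=
  fun v hv => (h v hv).symm

variable {blk} in
lemma Agree.trans {K : Finset (Fin N)} {x y z : Asg n} (h : Agree blk K x y)
    (h' : Agree blk K y z) : Agree blk K x z :=
  fun v hv => (h' v hv).trans (h v hv)

variable {blk} in
lemma Agree.mono {K K' : Finset (Fin N)} (hK : K ⊆ K') {x y : Asg n} (h : Agree blk K' x y) :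
    Agree blk K x y := fun v hv => h v (hK hv)

variable {blk} in
lemma Agree.union {K K' : Finset (Fin N)} {x y : Asg n} (h : Agree blk K x y)
    (h' : Agree blk K' x y) : Agree blk (K ∪ K') x y := by
  intro v hv
  rcases Finset.mem_union.1 hv with h1 | h1
  · exact h v h1
  · exact h' v h1

/-- the elements of `W` agreeing with `x` on `K` -/
def cell (W : Finset (Asg n)) (K : Finset (Fin N)) (x : Asg n) : Finset (Asg n) :=
  W.filter (fun y => Agree blk K x y)

variable {blk} in
lemma mem_cell {W : Finset (Asg n)} {K : Finset (Fin N)} {x y : Asg n} :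
    y ∈ cell blk W K x ↔ y ∈ W ∧ Agree blk K x y := by simp [cell]

lemma cell_subset (W : Finset (Asg n)) (K : Finset (Fin N)) (x : Asg n) :
    cell blk W K x ⊆ W := Finset.filter_subset _ _

lemma cell_mono_set {W W' : Finset (Asg n)} (h : W ⊆ W') (K : Finset (Fin N)) (x : Asg n) :
    cell blk W K x ⊆ cell blk W' K x := Finset.filter_subset_filter _ h

lemma cell_congr {K : Finset (Fin N)} {x y : Asg n} (W : Finset (Asg n)) (h : Agree blk K x y) :
    cell blk W K y = cell blk W K x := by
  ext z
  simp only [mem_cell]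
  constructor
  · rintro ⟨h1, h2⟩; exact ⟨h1, h.trans h2⟩
  · rintro ⟨h1, h2⟩; exact ⟨h1, h.symm.trans h2⟩

lemma self_mem_cell {W : Finset (Asg n)} {x : Asg n} (hx : x ∈ W) (K : Finset (Fin N)) :
    x ∈ cell blk W K x := mem_cell.2 ⟨hx, Agree.refl _ _ _⟩

/-- masked assignment: the values outside of the blocks of `K` are erased -/
def mask (K : Finset (Fin N)) (x : Asg n) : Asg n := fun v => if blk v ∈ K then x v else false

lemma mask_eq_iff {K : Finset (Fin N)} {x y : Asg n} :
    mask blk K y = mask blk K x ↔ Agree blk K x y := by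
  constructor
  · intro h v hv
    have := congrFun h v
    simpa [mask, hv] using this
  · intro h
    funext v
    by_cases hv : blk v ∈ K
    · simp [mask, hv, h v hv]
    · simp [mask, hv]

variable (E : Finset (Finset (Fin N))) (R₂ : ℕ)

/-- `x` is stuck at `K` in `W`: no constraint `e ⊄ K` has a popular pattern at `x` inside its cell -/
def Stuck (W : Finset (Asg n)) (K : Finset (Fin N)) (x : Asg n) : Prop :=
  ∀ e ∈ E, ¬ e ⊆ K → R₂ * (cell blk W (K ∪ e) x).card ≤ (cell blk W K x).card

instance (W : Finset (Asg n)) (K : Finset (Fin N)) (x : Asg n) :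
    Decidable (Stuck blk E R₂ W K x) := by unfold Stuck; infer_instance

/-- the elements of the cell of `x` which are stuck -/
def core (W : Finset (Asg n)) (K : Finset (Fin N)) (x : Asg n) : Finset (Asg n) :=
  (cell blk W K x).filter (fun y => Stuck blk E R₂ W K y)

/-- The state invariant. `good e x` says that the constraint `e` is satisfied by `x`. -/
structure State (good : Finset (Fin N) → Asg n → Prop) (R : ℕ)
    (J : Finset (Fin N)) (V : Finset (Asg n)) : Prop where
  fixed : ∀ x ∈ V, ∀ y ∈ V, Agree blk J x y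
  sat : ∀ x ∈ V, ∀ e ∈ E, e ⊆ J → good e x
  spread : ∀ e ∈ E, ¬ e ⊆ J → ∀ x ∈ V, R * (cell blk V e x).card ≤ V.card

/-- the good event for `(J, W)` -/
def Event (good : Finset (Fin N) → Asg n → Prop) (Λ : ℕ)
    (J : Finset (Fin N)) (W : Finset (Asg n)) : Prop :=
  ∃ x ∈ W, ∃ K, J ⊂ K ∧ W.card ≤ R₂ ^ (K \ J).card * (cell blk W K x).card ∧
    (cell blk W K x).card ≤ Λ * (core blk E R₂ W K x).card ∧
    ∀ e ∈ E, e ⊆ K → ¬ e ⊆ J → good e x

variable {blk E R₂} in
lemma core_state {good : Finset (Fin N) → Asg n → Prop} {R Λ : ℕ} (hΛ : 0 < Λ)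
    (hR₂ : Λ * R ≤ R₂)
    (hgood : ∀ e x y, Agree blk e x y → good e x → good e y)
    {W : Finset (Asg n)} {K : Finset (Fin N)} {x : Asg n}
    (hcard : (cell blk W K x).card ≤ Λ * (core blk E R₂ W K x).card)
    (hg : ∀ e ∈ E, e ⊆ K → good e x) :
    State blk E good R K (core blk E R₂ W K x) := by
  refine ⟨?_, ?_, ?_⟩
  · intro y hy z hz
    have hy' := (mem_cell.1 (Finset.mem_filter.1 hy).1).2
    have hz' := (mem_cell.1 (Finset.mem_filter.1 hz).1).2
    exact hy'.symm.trans hz'
  · intro y hy e he heK
    have hy' := (mem_cell.1 (Finset.mem_filter.1 hy).1).2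
    exact hgood e x y (hy'.mono heK) (hg e he heK)
  · intro e he heK y hy
    obtain ⟨hy1, hy2⟩ := Finset.mem_filter.1 hy
    have hy' := (mem_cell.1 hy1).2
    have h1 := hy2 e he heK
    have h2 : cell blk (core blk E R₂ W K x) e y ⊆ cell blk W (K ∪ e) y := by
      intro z hz
      obtain ⟨hz1, hz2⟩ := mem_cell.1 hz
      have hz3 := mem_cell.1 (Finset.mem_filter.1 hz1).1
      exact mem_cell.2 ⟨hz3.1, (hy'.symm.trans hz3.2).union hz2⟩
    have h3 := Finset.card_le_card h2
    rw [cell_congr blk W hy'] at h1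
    have h4 : Λ * (R * (cell blk (core blk E R₂ W K x) e y).card)
        ≤ Λ * (core blk E R₂ W K x).card := by
      calc Λ * (R * (cell blk (core blk E R₂ W K x) e y).card)
          = (Λ * R) * (cell blk (core blk E R₂ W K x) e y).card := by ring
        _ ≤ R₂ * (cell blk W (K ∪ e) y).card := Nat.mul_le_mul hR₂ h3
        _ ≤ _ := h1.trans hcard
    exact Nat.le_of_mul_le_mul_left h4 hΛ

end cells

end Pool.Agent.H538R2.SB
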