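import Mathlib
import Pool.Agent.H538R2.RDDefs
import Pool.Agent.H538R2.SBCore

/-!
The adversary for resolution refutations of small depth.
-/

namespace Pool.Agent.H538R2.SB

open Finset

variable {n N : ℕ}

/-- the variables of a clause -/
def cvars (C : Clause n) : Finset (Fin n) := C.image Prod.fst

lemma mem_cvars {C : Clause n} {v : Fin n} : v ∈ cvars C ↔ ∃ b, (v, b) ∈ C := by
  simp [cvars]

/-- the variables of block `β` which do not occur in `C` -/
def unk (blk : Fin n → Fin N) (C : Clause n) (β : Fin N) : Finset (Fin n) :=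
  Finset.univ.filter (fun v => blk v = β ∧ v ∉ cvars C)

variable {blk : Fin n → Fin N}

lemma unk_step {C C' : Clause n} {v : Fin n} {b : Bool} (h : C' ⊆ insert (v, b) C) (β : Fin N) :
    (unk blk C β).card ≤ (unk blk C' β).card + (if blk v = β then 1 else 0) := by
  have hsub : ∀ w, w ∈ unk blk C β → w ≠ v → w ∈ unk blk C' β := by
    intro w hw hne
    simp only [unk, Finset.mem_filter, Finset.mem_univ, true_and] at hw ⊢
    refine ⟨hw.1, fun hc => hw.2 ?_⟩
    obtain ⟨b', hb'⟩ := mem_cvars.1 hc
    have := h hb'
    rw [Finset.mem_insert] at this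
    rcases this with h1 | h1
    · exact absurd (congrArg Prod.fst h1) hne
    · exact mem_cvars.2 ⟨b', h1⟩
  split_ifs with hv
  · calc (unk blk C β).card ≤ (insert v (unk blk C' β)).card := by
          apply Finset.card_le_card
          intro w hw
          rw [Finset.mem_insert]
          by_cases hne : w = v
          · exact Or.inl hne
          · exact Or.inr (hsub w hw hne)
      _ ≤ _ := Finset.card_insert_le _ _
  · rw [add_zero]
    apply Finset.card_le_card
    intro w hw
    refine hsub w hw ?_
    rintro rfl
    simp only [unk, Finset.mem_filter, Finset.mem_univ, true_and] at hw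
    exact hv hw.1

lemma sum_unk (C : Clause n) : ∑ β : Fin N, (unk blk C β).card + (cvars C).card = n := by
  have h1 : ∑ β : Fin N, (unk blk C β).card
      = (Finset.univ.filter (fun v => v ∉ cvars C)).card := by
    rw [Finset.card_eq_sum_card_fiberwise (f := blk) (t := Finset.univ)
      (fun _ _ => Finset.mem_univ _)]
    apply Finset.sum_congr rfl
    intro β _
    congr 1
    ext v
    simp only [unk, Finset.mem_filter, Finset.mem_univ, true_and]
    tauto
  have h2 : (Finset.univ.filter (fun v => v ∈ cvars C)) = cvars C := by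
    ext v; simp
  have h3 := Finset.card_filter_add_card_filter_not (s := (Finset.univ : Finset (Fin n)))
    (fun v => v ∈ cvars C)
  rw [h2, Finset.card_univ, Fintype.card_fin] at h3
  rw [h1]
  omega

lemma falseAt_step {C C' : Clause n} {v : Fin n} {b : Bool} {x : Asg n}
    (h : C' ⊆ insert (v, b) C) (hC : FalseAt C x) (hv : x v ≠ b) : FalseAt C' x := by
  intro l hl
  rcases Finset.mem_insert.1 (h hl) with h1 | h1
  · rw [h1]; exact hv
  · exact hC l h1

section play

variable {E : Finset (Finset (Fin N))} {good : Finset (Fin N) → Asg n → Prop}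
  {F : Finset (Clause n)} {lines : Finset (Clause n)} {rk : Clause n → ℕ}
  {κ g K₀ wmin B₁ : ℕ}

lemma exists_fresh (hB₁ : ∀ β, (Finset.univ.filter (fun v => blk v = β)).card ≤ B₁)
    (hW : K₀ * (g + κ) + (N - K₀) * B₁ + wmin ≤ n)
    {C : Clause n} (hC : (cvars C).card < wmin) {J : Finset (Fin N)} (hJ : J.card = K₀) :
    ∃ β ∈ J, g + κ ≤ (unk blk C β).card := by
  by_contra hcon
  push Not at hcon
  have h1 := sum_unk (blk := blk) C
  have h2 : ∑ β : Fin N, (unk blk C β).card
      = ∑ β ∈ J, (unk blk C β).card + ∑ β ∈ Jᶜ, (unk blk C β).card :=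
    (Finset.sum_add_sum_compl J _).symm
  have h3 : ∑ β ∈ J, (unk blk C β).card ≤ K₀ * (g + κ) := by
    calc ∑ β ∈ J, (unk blk C β).card ≤ ∑ β ∈ J, (g + κ) :=
          Finset.sum_le_sum (fun β hβ => (hcon β hβ).le)
      _ = _ := by rw [Finset.sum_const, smul_eq_mul, hJ]
  have h4 : ∑ β ∈ Jᶜ, (unk blk C β).card ≤ (N - K₀) * B₁ := by
    calc ∑ β ∈ Jᶜ, (unk blk C β).card ≤ ∑ β ∈ Jᶜ, B₁ := by
          apply Finset.sum_le_sum
          intro β _
          refine le_trans (Finset.card_le_card ?_) (hB₁ β)
          intro v hv
          simp only [unk, Finset.mem_filter, Finset.mem_univ, true_and] at hv ⊢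
          exact hv.1
      _ = _ := by
          rw [Finset.sum_const, smul_eq_mul, Finset.card_compl, Fintype.card_fin, hJ]
  omega

theorem play (hRef : Resolution F lines rk) (hg : 1 ≤ g)
    (hgood : ∀ e x y, Agree blk e x y → good e x → good e y)
    (hF : ∀ D ∈ F, ∃ e ∈ E, (∀ x, FalseAt D x → ¬ good e x) ∧ ∀ v, blk v ∈ e → v ∈ cvars D)
    (hQ : ∀ (x : Asg n) (J : Finset (Fin N)) (β : Fin N) (U : Finset (Fin n)),
      J.card ≤ K₀ → β ∉ J → (∀ v ∈ U, blk v = β) → U.card = κ →
      ∃ x' : Asg n, (∀ v, v ∉ U → x' v = x v) ∧ ∀ e ∈ E, e ⊆ insert β J → β ∈ e → good e x')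
    (hB₁ : ∀ β, (Finset.univ.filter (fun v => blk v = β)).card ≤ B₁)
    (hW : K₀ * (g + κ) + (N - K₀) * B₁ + wmin ≤ n) :
    ∀ m : ℕ, ∀ C ∈ lines, rk C = m → ∀ (x : Asg n) (J : Finset (Fin N)), FalseAt C x →
      J.card = K₀ → (∀ β, (unk blk C β).card ≤ κ → β ∈ J) → (∀ e ∈ E, e ⊆ J → good e x) →
      ∃ W ∈ lines, ∃ y : Asg n, wmin ≤ (cvars W).card ∧ FalseAt W y ∧
        g * hammingDist x y ≤ κ * (m + ∑ β ∈ Jᶜ, ((g + κ) - (unk blk C β).card)) := by
  intro m
  induction m using Nat.strong_induction_on with
  | _ m ih =>
    intro C hC hm x J hx hJ hcl hsat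
    by_cases hwide : wmin ≤ (cvars C).card
    · exact ⟨C, hC, x, hwide, hx, by simp⟩
    rcases hRef.step C hC with ⟨D, hD, hDC⟩ | ⟨v, C₀, hC₀, C₁, hC₁, hs0, hs1, hr0, hr1⟩
    · exfalso
      obtain ⟨e, he, hbad, hvars⟩ := hF D hD
      have hDx : FalseAt D x := fun l hl => hx l (hDC hl)
      apply hbad x hDx
      apply hsat e he
      intro β hβ
      apply hcl
      have : unk blk C β = ∅ := by
        rw [Finset.eq_empty_iff_forall_notMem]
        intro w hw
        simp only [unk, Finset.mem_filter, Finset.mem_univ, true_and] at hw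
        apply hw.2
        obtain ⟨b, hb⟩ := mem_cvars.1 (hvars w (by rw [hw.1]; exact hβ))
        exact mem_cvars.2 ⟨b, hDC hb⟩
      rw [this]
      simp
    · obtain ⟨C', hC', hr', hx', hstep⟩ : ∃ C' ∈ lines, rk C' < rk C ∧ FalseAt C' x ∧
          ∀ β, (unk blk C β).card ≤ (unk blk C' β).card + (if blk v = β then 1 else 0) := by
        by_cases hv : x v = true
        · exact ⟨C₁, hC₁, hr1, falseAt_step hs1 hx (by rw [hv]; decide), unk_step hs1⟩
        · exact ⟨C₀, hC₀, hr0, falseAt_step hs0 hx hv, unk_step hs0⟩
      have hsum : ∑ β ∈ Jᶜ, ((g + κ) - (unk blk C' β).card)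
          ≤ ∑ β ∈ Jᶜ, ((g + κ) - (unk blk C β).card) + 1 := by
        calc ∑ β ∈ Jᶜ, ((g + κ) - (unk blk C' β).card)
            ≤ ∑ β ∈ Jᶜ, (((g + κ) - (unk blk C β).card) + (if blk v = β then 1 else 0)) := by
              apply Finset.sum_le_sum
              intro β _
              have := hstep β
              omega
          _ = ∑ β ∈ Jᶜ, ((g + κ) - (unk blk C β).card)
              + ∑ β ∈ Jᶜ, (if blk v = β then 1 else 0) := Finset.sum_add_distrib
          _ ≤ _ := by
              apply Nat.add_le_add_left
              rw [Finset.sum_ite_eq]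
              split_ifs <;> omega
      by_cases hcl' : ∀ β, (unk blk C' β).card ≤ κ → β ∈ J
      · obtain ⟨W, hW1, y, hW2, hW3, hW4⟩ := ih (rk C') (by omega) C' hC' rfl x J hx' hJ hcl' hsat
        refine ⟨W, hW1, y, hW2, hW3, hW4.trans ?_⟩
        apply Nat.mul_le_mul_left
        omega
      · by_cases hwide' : wmin ≤ (cvars C').card
        · exact ⟨C', hC', x, hwide', hx', by simp⟩
        push Not at hcl' hwide'
        obtain ⟨β, hβκ, hβJ⟩ := hcl'
        -- every closed block outside J is the block of v
        have huniq : ∀ γ, (unk blk C' γ).card ≤ κ → γ ∉ J → blk v = γ ∧ (unk blk C' γ).card = κ := by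
          intro γ hγ hγJ
          have h1 : ¬ (unk blk C γ).card ≤ κ := fun h => hγJ (hcl γ h)
          have h2 := hstep γ
          by_cases hvγ : blk v = γ
          · rw [if_pos hvγ] at h2
            exact ⟨hvγ, by omega⟩
          · rw [if_neg hvγ] at h2
            omega
        obtain ⟨hvβ, hβc⟩ := huniq β hβκ hβJ
        obtain ⟨β', hβ'J, hβ'⟩ := exists_fresh (blk := blk) hB₁ hW hwide' hJ
        have hne : β ≠ β' := by rintro rfl; exact hβJ hβ'J
        have hβJ' : β ∉ J.erase β' := fun h => hβJ (Finset.mem_of_mem_erase h)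
        obtain ⟨x', hx'1, hx'2⟩ := hQ x (J.erase β') β (unk blk C' β)
          ((Finset.card_erase_le).trans hJ.le) hβJ'
          (fun w hw => by
            simp only [unk, Finset.mem_filter, Finset.mem_univ, true_and] at hw
            exact hw.1) hβc
        set J' := insert β (J.erase β') with hJ'def
        have hJpos : 1 ≤ J.card := Finset.card_pos.2 ⟨β', hβ'J⟩
        have hJ' : J'.card = K₀ := by
          rw [hJ'def, Finset.card_insert_of_notMem hβJ', Finset.card_erase_of_mem hβ'J]
          omega
        have hfx' : FalseAt C' x' := by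
          intro l hl
          rw [hx'1 l.1]
          · exact hx' l hl
          · intro h
            simp only [unk, Finset.mem_filter, Finset.mem_univ, true_and] at h
            exact h.2 (mem_cvars.2 ⟨l.2, hl⟩)
        have hcl'' : ∀ γ, (unk blk C' γ).card ≤ κ → γ ∈ J' := by
          intro γ hγ
          by_cases hγJ : γ ∈ J
          · apply Finset.mem_insert_of_mem
            rw [Finset.mem_erase]
            refine ⟨?_, hγJ⟩
            rintro rfl
            omega
          · have := (huniq γ hγ hγJ).1
            rw [hJ'def, ← this, hvβ]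
            exact Finset.mem_insert_self _ _
        have hsat' : ∀ e ∈ E, e ⊆ J' → good e x' := by
          intro e he heJ'
          by_cases hβe : β ∈ e
          · exact hx'2 e he heJ' hβe
          · have heJ : e ⊆ J := by
              intro γ hγ
              rcases Finset.mem_insert.1 (heJ' hγ) with h | h
              · exact absurd (h ▸ hγ) hβe
              · exact Finset.mem_of_mem_erase h
            refine hgood e x x' ?_ (hsat e he heJ)
            intro w hw
            apply hx'1
            intro h
            simp only [unk, Finset.mem_filter, Finset.mem_univ, true_and] at h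
            rw [h.1] at hw
            exact hβe hw
        obtain ⟨W, hW1, y, hW2, hW3, hW4⟩ := ih (rk C') (by omega) C' hC' rfl x' J' hfx' hJ'
          hcl'' hsat'
        refine ⟨W, hW1, y, hW2, hW3, ?_⟩
        -- the potential drops by g
        have hcompl : J'ᶜ = insert β' (Jᶜ.erase β) := by
          ext γ
          simp only [hJ'def, Finset.mem_compl, Finset.mem_insert, Finset.mem_erase, not_or,
            not_and, ne_eq]
          constructor
          · rintro ⟨h1, h2⟩
            by_cases h3 : γ = β'
            · exact Or.inl h3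
            · exact Or.inr ⟨h1, fun h => h2 h3 h⟩
          · rintro (rfl | ⟨h1, h2⟩)
            · exact ⟨fun h => hne h.symm, fun h => absurd rfl h⟩
            · exact ⟨h1, fun _ h => h2 h⟩
        have hβ'n : β' ∉ Jᶜ.erase β := by
          rw [Finset.mem_erase, Finset.mem_compl]
          rintro ⟨_, h⟩
          exact h hβ'J
        have hpot : ∑ γ ∈ J'ᶜ, ((g + κ) - (unk blk C' γ).card) + g
            = ∑ γ ∈ Jᶜ, ((g + κ) - (unk blk C' γ).card) := by
          rw [hcompl, Finset.sum_insert hβ'n]
          have h1 := Finset.sum_erase_add Jᶜ (fun γ => (g + κ) - (unk blk C' γ).card)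
            (Finset.mem_compl.2 hβJ)
          rw [← h1, hβc]
          omega
        have hd1 : hammingDist x x' ≤ κ := by
          rw [← hβc]
          unfold hammingDist
          apply Finset.card_le_card
          intro w hw
          simp only [Finset.mem_filter, Finset.mem_univ, true_and] at hw
          by_contra hnot
          exact hw (hx'1 w hnot).symm
        have htri : hammingDist x y ≤ hammingDist x x' + hammingDist x' y :=
          hammingDist_triangle _ _ _
        calc g * hammingDist x y ≤ g * (κ + hammingDist x' y) := by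
              apply Nat.mul_le_mul_left
              omega
          _ = κ * g + g * hammingDist x' y := by ring
          _ ≤ κ * g + κ * (rk C' + ∑ γ ∈ J'ᶜ, ((g + κ) - (unk blk C' γ).card)) := by omega
          _ = κ * (rk C' + (∑ γ ∈ J'ᶜ, ((g + κ) - (unk blk C' γ).card) + g)) := by ring
          _ ≤ κ * (m + ∑ β ∈ Jᶜ, ((g + κ) - (unk blk C β).card)) := by
              apply Nat.mul_le_mul_left
              rw [hpot]
              omega

/-- Start: every assignment is close to one which satisfies all constraints inside `K₀` blocks. -/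
lemma start (hgood : ∀ e x y, Agree blk e x y → good e x → good e y)
    (hE0 : ∀ e ∈ E, e.Nonempty)
    (hQ : ∀ (x : Asg n) (J : Finset (Fin N)) (β : Fin N) (U : Finset (Fin n)),
      J.card ≤ K₀ → β ∉ J → (∀ v ∈ U, blk v = β) → U.card = κ →
      ∃ x' : Asg n, (∀ v, v ∉ U → x' v = x v) ∧ ∀ e ∈ E, e ⊆ insert β J → β ∈ e → good e x')
    (hB₀ : ∀ β, κ ≤ (Finset.univ.filter (fun v => blk v = β)).card) (z : Asg n) :
    ∀ k, k ≤ K₀ → k ≤ N → ∃ (x : Asg n) (J : Finset (Fin N)), J.card = k ∧
      (∀ e ∈ E, e ⊆ J → good e x) ∧ hammingDist z x ≤ k * κ := by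
  intro k
  induction k with
  | zero =>
    intro _ _
    refine ⟨z, ∅, rfl, ?_, by simp⟩
    intro e he he0
    obtain ⟨i, hi⟩ := hE0 e he
    have := he0 hi
    simp at this
  | succ k ih =>
    intro hk hkN
    obtain ⟨x, J, hJ, hsat, hd⟩ := ih (by omega) (by omega)
    obtain ⟨β, hβ⟩ : ∃ β, β ∉ J := by
      by_contra hcon
      push Not at hcon
      have : J = Finset.univ := Finset.eq_univ_iff_forall.2 hcon
      rw [this, Finset.card_univ, Fintype.card_fin] at hJ
      omega
    obtain ⟨U, hU1, hU2⟩ := Finset.exists_subset_card_eq (hB₀ β)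
    obtain ⟨x', h1, h2⟩ := hQ x J β U (by omega) hβ
      (fun v hv => by
        have := hU1 hv
        simpa using this) hU2
    refine ⟨x', insert β J, by rw [Finset.card_insert_of_notMem hβ, hJ], ?_, ?_⟩
    · intro e he heJ
      by_cases hβe : β ∈ e
      · exact h2 e he heJ hβe
      · refine hgood e x x' ?_ (hsat e he ?_)
        · intro w hw
          apply h1
          intro h
          have := hU1 h
          simp only [Finset.mem_filter, Finset.mem_univ, true_and] at this
          rw [this] at hw
          exact hβe hw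
        · intro γ hγ
          rcases Finset.mem_insert.1 (heJ hγ) with h | h
          · exact absurd (h ▸ hγ) hβe
          · exact h
    · have hd1 : hammingDist x x' ≤ κ := by
        rw [← hU2]
        unfold hammingDist
        apply Finset.card_le_card
        intro w hw
        simp only [Finset.mem_filter, Finset.mem_univ, true_and] at hw
        by_contra hnot
        exact hw (h1 w hnot).symm
      have htri : hammingDist z x' ≤ hammingDist z x + hammingDist x x' :=
        hammingDist_triangle _ _ _
      calc hammingDist z x' ≤ k * κ + κ := by omega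
        _ = (k + 1) * κ := by ring

end play

/-- size of Hamming balls -/
lemma ball_bound (y : Asg n) (D : ℕ) {l : ℝ} (hl0 : 0 < l) (hl1 : l ≤ 1) :
    ((Finset.univ.filter (fun z : Asg n => hammingDist z y ≤ D)).card : ℝ) * l ^ D
      ≤ (1 + l) ^ n := by
  have h1 : (1 + l) ^ n = ∑ z : Asg n, l ^ (hammingDist z y) := by
    have h2 : ∀ z : Asg n, l ^ (hammingDist z y) = ∏ i : Fin n, (if z i ≠ y i then l else 1) := by
      intro z
      rw [Finset.prod_ite, Finset.prod_const, Finset.prod_const_one, mul_one]
      rfl
    rw [Finset.sum_congr rfl (fun z _ => h2 z)]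
    have h3 := Finset.prod_univ_sum (fun _ : Fin n => (Finset.univ : Finset Bool))
      (fun i b => (if b ≠ y i then l else (1 : ℝ)))
    rw [Fintype.piFinset_univ] at h3
    rw [← h3]
    have h4 : ∀ i : Fin n, ∑ b : Bool, (if b ≠ y i then l else (1 : ℝ)) = 1 + l := by
      intro i
      cases hy : y i <;> simp [add_comm]
    rw [Finset.prod_congr rfl (fun i _ => h4 i), Finset.prod_const, Finset.card_univ,
      Fintype.card_fin]
  rw [h1]
  calc ((Finset.univ.filter (fun z : Asg n => hammingDist z y ≤ D)).card : ℝ) * l ^ D
      = ∑ z ∈ Finset.univ.filter (fun z : Asg n => hammingDist z y ≤ D), l ^ D := by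
        rw [Finset.sum_const, nsmul_eq_mul]
    _ ≤ ∑ z ∈ Finset.univ.filter (fun z : Asg n => hammingDist z y ≤ D),
          l ^ (hammingDist z y) := by
        apply Finset.sum_le_sum
        intro z hz
        exact pow_le_pow_of_le_one hl0.le hl1 (Finset.mem_filter.1 hz).2
    _ ≤ ∑ z : Asg n, l ^ (hammingDist z y) := by
        apply Finset.sum_le_sum_of_subset_of_nonneg (Finset.filter_subset _ _)
        intro z _ _
        positivity

/-- number of assignments falsifying a clause -/
lemma falsify_card (W : Clause n) :
    (Finset.univ.filter (fun y : Asg n => FalseAt W y)).card * 2 ^ (cvars W).card ≤ 2 ^ n := by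
  classical
  rcases (Finset.univ.filter (fun y : Asg n => FalseAt W y)).eq_empty_or_nonempty with h0 | ⟨x, hx⟩
  · rw [h0]; simp
  · have hx' : FalseAt W x := (Finset.mem_filter.1 hx).2
    have h1 : Finset.univ.filter (fun y : Asg n => FalseAt W y)
        ⊆ Fintype.piFinset (fun v => if v ∈ cvars W then ({x v} : Finset Bool) else Finset.univ) := by
      intro y hy
      have hy' : FalseAt W y := (Finset.mem_filter.1 hy).2
      rw [Fintype.mem_piFinset]
      intro v
      split_ifs with hv
      · rw [Finset.mem_singleton]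
        obtain ⟨b, hb⟩ := mem_cvars.1 hv
        have e1 := hx' _ hb
        have e2 := hy' _ hb
        simp only at e1 e2
        cases hxv : x v <;> cases hyv : y v <;> cases b <;> simp_all
      · exact Finset.mem_univ _
    have h2 := Finset.card_le_card h1
    rw [Fintype.card_piFinset] at h2
    have h3 : ∀ v : Fin n, (if v ∈ cvars W then ({x v} : Finset Bool) else Finset.univ).card
        = if v ∈ cvars W then 1 else 2 := by
      intro v
      split_ifs <;> simp
    rw [Finset.prod_congr rfl (fun v _ => h3 v), Finset.prod_ite] at h2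
    simp only [Finset.prod_const_one, Finset.prod_const, one_mul] at h2
    have h4 := Finset.card_filter_add_card_filter_not (s := (Finset.univ : Finset (Fin n)))
      (fun v => v ∈ cvars W)
    have h5 : (Finset.univ.filter (fun v => v ∈ cvars W)) = cvars W := by
      ext v; simp
    rw [h5, Finset.card_univ, Fintype.card_fin] at h4
    calc (Finset.univ.filter (fun y : Asg n => FalseAt W y)).card * 2 ^ (cvars W).card
        ≤ 2 ^ (Finset.univ.filter (fun v => ¬ v ∈ cvars W)).card * 2 ^ (cvars W).card :=
          Nat.mul_le_mul_right _ h2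
      _ = 2 ^ n := by rw [← pow_add]; congr 1; omega

end Pool.Agent.H538R2.SB
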