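import Mathlib
import Pool.Agent.H538R2.SBCore

/-!
Branching trees and the induction along the tree.
-/

namespace Pool.Agent.H538R2.SB

open Finset

variable {n N : ℕ}

namespace BTree

/-- depth -/
def depth : BTree n → ℕ
  | leaf _ => 0
  | node _ t₀ t₁ => max t₀.depth t₁.depth + 1

lemma leaves_pos (t : BTree n) : 1 ≤ t.leaves := by
  induction t with
  | leaf _ => simp [leaves]
  | node q t₀ t₁ h0 h1 => simp only [leaves]; omega

end BTree

variable (blk : Fin n → Fin N) (E : Finset (Finset (Fin N))) (R₂ : ℕ)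

/-- reachable adversary states at level `i` -/
def Reach (Q : Finset (Asg n → Bool)) : ℕ → Finset (Finset (Fin N) × Finset (Asg n))
  | 0 => {(∅, Finset.univ)}
  | i + 1 => ((Reach Q i) ×ˢ (Q ×ˢ ((Finset.univ : Finset Bool) ×ˢ
      ((Finset.univ : Finset (Finset (Fin N))) ×ˢ (Finset.univ : Finset (Asg n)))))).image
        (fun p => (p.2.2.2.1, core blk E R₂ (p.1.2.filter (fun x => p.2.1 x = p.2.2.1))
            p.2.2.2.1 p.2.2.2.2))

/-- precondition for the random event -/
structure Pre (R d Θ G : ℕ) (J : Finset (Fin N)) (W : Finset (Asg n)) : Prop where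
  fixed : ∀ x ∈ W, ∀ y ∈ W, Agree blk J x y
  spread : ∀ e ∈ E, ¬ e ⊆ J → ∀ x ∈ W, R * (cell blk W e x).card ≤ d * W.card
  large : Θ ≤ d * W.card * G ^ J.card
  pop : W.card < d * (W.filter (fun x => ¬ Stuck blk E R₂ W J x)).card

variable {blk E R₂}

lemma side_claim {good : Finset (Fin N) → Asg n → Prop} {R d Θ G Λ : ℕ}
    (hd : 2 ≤ d) (hΛ : 2 ≤ Λ) (hG : G = R₂ * Λ) (hR₂ : Λ * R ≤ R₂)
    (hgood : ∀ e x y, Agree blk e x y → good e x → good e y)
    {J : Finset (Fin N)} {V : Finset (Asg n)} (hSt : State blk E good R J V)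
    (hbig : (Θ : ℝ) < V.card * (G : ℝ) ^ J.card)
    (q : Asg n → Bool) (σ : Bool)
    (hW : V.card ≤ d * (V.filter (fun x => q x = σ)).card)
    (hev : Pre blk E R₂ R d Θ G J (V.filter (fun x => q x = σ)) →
      Event blk E R₂ good Λ J (V.filter (fun x => q x = σ)))
    {L : ℝ} {h : ℕ}
    (IH : ∀ K x, State blk E good R K (core blk E R₂ (V.filter (fun x => q x = σ)) K x) →
      (1 - 1 / (d : ℝ)) ^ h * ((core blk E R₂ (V.filter (fun x => q x = σ)) K x).card : ℝ)
        * (G : ℝ) ^ K.card ≤ L) :
    (1 - 1 / (d : ℝ)) ^ (h + 1) * ((V.filter (fun x => q x = σ)).card : ℝ) * (G : ℝ) ^ J.card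
      ≤ L := by
  set W := V.filter (fun x => q x = σ) with hWdef
  have hWV : W ⊆ V := Finset.filter_subset _ _
  have hdR : (2 : ℝ) ≤ d := by exact_mod_cast hd
  have hd0 : (0 : ℝ) < d := by linarith
  have hinv : 1 / (d : ℝ) ≤ 1 / 2 := by
    apply one_div_le_one_div_of_le <;> linarith
  have hρ0 : (0 : ℝ) ≤ 1 - 1 / (d : ℝ) := by linarith
  have hρ1 : 1 - 1 / (d : ℝ) ≤ 1 := by
    have : (0 : ℝ) ≤ 1 / (d : ℝ) := by positivity
    linarith
  have hVpos : 0 < V.card := by
    rcases Nat.eq_zero_or_pos V.card with h0 | h0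
    · rw [h0] at hbig
      have : (0 : ℝ) ≤ Θ := Nat.cast_nonneg _
      simp at hbig
      linarith
    · exact h0
  have hWpos : 0 < W.card := by
    rcases Nat.eq_zero_or_pos W.card with h0 | h0
    · rw [h0] at hW; omega
    · exact h0
  have hGnn : (0 : ℝ) ≤ (G : ℝ) ^ J.card := by positivity
  by_cases hpop : W.card < d * (W.filter (fun x => ¬ Stuck blk E R₂ W J x)).card
  · -- the random event
    have hpre : Pre blk E R₂ R d Θ G J W := by
      refine ⟨?_, ?_, ?_, hpop⟩
      · intro x hx y hy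
        exact hSt.fixed x (hWV hx) y (hWV hy)
      · intro e he heJ x hx
        calc R * (cell blk W e x).card ≤ R * (cell blk V e x).card :=
              Nat.mul_le_mul_left _ (Finset.card_le_card (cell_mono_set blk hWV e x))
          _ ≤ V.card := hSt.spread e he heJ x (hWV hx)
          _ ≤ d * W.card := hW
      · have h1 : (Θ : ℝ) ≤ ((d * W.card * G ^ J.card : ℕ) : ℝ) := by
          push_cast
          have h2 : (V.card : ℝ) ≤ d * W.card := by exact_mod_cast hW
          nlinarith
        exact_mod_cast h1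
    obtain ⟨x, hx, K, hJK, hc1, hc2, hsat⟩ := hev hpre
    have hgx : ∀ e ∈ E, e ⊆ K → good e x := by
      intro e he heK
      by_cases heJ : e ⊆ J
      · exact hSt.sat x (hWV hx) e he heJ
      · exact hsat e he heK heJ
    have hSt' : State blk E good R K (core blk E R₂ W K x) :=
      core_state (by omega) hR₂ hgood hc2 hgx
    have h1 := IH K x hSt'
    have hk : 1 ≤ (K \ J).card := by
      rw [Nat.one_le_iff_ne_zero, Finset.card_ne_zero]
      rw [Finset.sdiff_nonempty]
      exact fun hKJ => (Finset.ssubset_def.1 hJK).2 hKJ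
    have hKcard : K.card = J.card + (K \ J).card := by
      rw [Finset.card_sdiff_of_subset hJK.subset]
      have := Finset.card_le_card hJK.subset
      omega
    have h2 : W.card * G ^ J.card ≤ (core blk E R₂ W K x).card * G ^ K.card := by
      rw [hKcard, pow_add]
      have h3 : R₂ ^ (K \ J).card * Λ ≤ G ^ (K \ J).card := by
        rw [hG, mul_pow]
        apply Nat.mul_le_mul_left
        calc Λ = Λ ^ 1 := (pow_one _).symm
          _ ≤ Λ ^ (K \ J).card := Nat.pow_le_pow_right (by omega) hk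
      calc W.card * G ^ J.card
          ≤ (R₂ ^ (K \ J).card * (Λ * (core blk E R₂ W K x).card)) * G ^ J.card := by
            apply Nat.mul_le_mul_right
            exact hc1.trans (Nat.mul_le_mul_left _ hc2)
        _ = (core blk E R₂ W K x).card * (G ^ J.card * (R₂ ^ (K \ J).card * Λ)) := by ring
        _ ≤ _ := by
            apply Nat.mul_le_mul_left
            apply Nat.mul_le_mul_left
            exact h3
    have h2R : (W.card : ℝ) * (G : ℝ) ^ J.card
        ≤ (core blk E R₂ W K x).card * (G : ℝ) ^ K.card := by exact_mod_cast h2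
    calc (1 - 1 / (d : ℝ)) ^ (h + 1) * (W.card : ℝ) * (G : ℝ) ^ J.card
        = (1 - 1 / (d : ℝ)) ^ h * ((1 - 1 / (d : ℝ)) * ((W.card : ℝ) * (G : ℝ) ^ J.card)) := by
          rw [pow_succ]; ring
      _ ≤ (1 - 1 / (d : ℝ)) ^ h * ((core blk E R₂ W K x).card * (G : ℝ) ^ K.card) := by
          apply mul_le_mul_of_nonneg_left _ (pow_nonneg hρ0 _)
          have h4 : (0 : ℝ) ≤ (W.card : ℝ) * (G : ℝ) ^ J.card := by positivity
          calc (1 - 1 / (d : ℝ)) * ((W.card : ℝ) * (G : ℝ) ^ J.card)
              ≤ 1 * ((W.card : ℝ) * (G : ℝ) ^ J.card) := mul_le_mul_of_nonneg_right hρ1 h4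
            _ ≤ _ := by rw [one_mul]; exact h2R
      _ = (1 - 1 / (d : ℝ)) ^ h * ((core blk E R₂ W K x).card : ℝ) * (G : ℝ) ^ K.card := by ring
      _ ≤ L := h1
  · -- removing the popular elements
    push Not at hpop
    obtain ⟨x, hx⟩ := Finset.card_pos.1 hWpos
    have hcell : cell blk W J x = W := by
      ext y
      rw [mem_cell]
      constructor
      · exact fun h => h.1
      · exact fun hy => ⟨hy, hSt.fixed x (hWV hx) y (hWV hy)⟩
    have hcore : core blk E R₂ W J x = W.filter (fun y => Stuck blk E R₂ W J y) := by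
      unfold core; rw [hcell]
    have hsum : (W.filter (fun y => Stuck blk E R₂ W J y)).card
        + (W.filter (fun y => ¬ Stuck blk E R₂ W J y)).card = W.card :=
      Finset.card_filter_add_card_filter_not _
    have hcc : (core blk E R₂ W J x).card
        + (W.filter (fun y => ¬ Stuck blk E R₂ W J y)).card = W.card := by rw [hcore]; exact hsum
    have hhalf : 2 * (W.filter (fun y => ¬ Stuck blk E R₂ W J y)).card ≤ W.card :=
      (Nat.mul_le_mul_right _ hd).trans hpop
    have hc2 : (cell blk W J x).card ≤ Λ * (core blk E R₂ W J x).card := by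
      rw [hcell]
      calc W.card ≤ 2 * (core blk E R₂ W J x).card := by omega
        _ ≤ _ := Nat.mul_le_mul_right _ hΛ
    have hSt' : State blk E good R J (core blk E R₂ W J x) :=
      core_state (by omega) hR₂ hgood hc2 (fun e he heJ => hSt.sat x (hWV hx) e he heJ)
    have h1 := IH J x hSt'
    have h5 : (1 - 1 / (d : ℝ)) * (W.card : ℝ) ≤ (core blk E R₂ W J x).card := by
      have h6 : ((core blk E R₂ W J x).card : ℝ)
        + ((W.filter (fun y => ¬ Stuck blk E R₂ W J y)).card : ℝ) = W.card := by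
        exact_mod_cast hcc
      have h7 : (d : ℝ) * ((W.filter (fun y => ¬ Stuck blk E R₂ W J y)).card : ℝ) ≤ W.card := by
        exact_mod_cast hpop
      have h8 : ((W.filter (fun y => ¬ Stuck blk E R₂ W J y)).card : ℝ) ≤ 1 / d * W.card := by
        rw [one_div, ← div_eq_inv_mul, le_div_iff₀ hd0]
        linarith
      linarith
    calc (1 - 1 / (d : ℝ)) ^ (h + 1) * (W.card : ℝ) * (G : ℝ) ^ J.card
        = (1 - 1 / (d : ℝ)) ^ h * ((1 - 1 / (d : ℝ)) * (W.card : ℝ)) * (G : ℝ) ^ J.card := by
          rw [pow_succ]; ring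
      _ ≤ (1 - 1 / (d : ℝ)) ^ h * ((core blk E R₂ W J x).card : ℝ) * (G : ℝ) ^ J.card := by
          apply mul_le_mul_of_nonneg_right _ hGnn
          exact mul_le_mul_of_nonneg_left h5 (pow_nonneg hρ0 _)
      _ ≤ L := h1

/-- the main induction -/
theorem tree_ind {good : Finset (Fin N) → Asg n → Prop} {R d Θ G Λ D g : ℕ}
    (hd : 2 ≤ d) (hΛ : 2 ≤ Λ) (hR : g < R) (hG : G = R₂ * Λ) (hR₂ : Λ * R ≤ R₂)
    (hgood : ∀ e x y, Agree blk e x y → good e x → good e y)
    {Q : Finset (Asg n → Bool)}
    (hev : ∀ i < D, ∀ JV ∈ Reach blk E R₂ Q i, ∀ q ∈ Q, ∀ σ : Bool,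
      Pre blk E R₂ R d Θ G JV.1 (JV.2.filter (fun x => q x = σ)) →
      Event blk E R₂ good Λ JV.1 (JV.2.filter (fun x => q x = σ)))
    {F : Finset (Clause n)}
    (hF : ∀ C ∈ F, ∃ e ∈ E, ∃ p, ¬ good e p ∧ ∀ x, FalseAt C x → Agree blk e p x)
    (T : BTree n) :
    ∀ (i : ℕ) (J : Finset (Fin N)) (V : Finset (Asg n)), (J, V) ∈ Reach blk E R₂ Q i →
      State blk E good R J V → i + T.depth ≤ D → T.Uses (Q : Set (Asg n → Bool)) →
      (∀ x ∈ V, T.out x ⊆ F ∧ (T.out x).card ≤ g ∧ ∃ C ∈ T.out x, FalseAt C x) →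
      (1 - 1 / (d : ℝ)) ^ (2 * T.depth) * (V.card : ℝ) * (G : ℝ) ^ J.card
        ≤ (T.leaves : ℝ) * Θ := by
  have hdR : (2 : ℝ) ≤ d := by exact_mod_cast hd
  have hd0 : (0 : ℝ) < d := by linarith
  have hinv : 1 / (d : ℝ) ≤ 1 / 2 := by
    apply one_div_le_one_div_of_le <;> linarith
  have hρ0 : (0 : ℝ) ≤ 1 - 1 / (d : ℝ) := by linarith
  have hρ1 : 1 - 1 / (d : ℝ) ≤ 1 := by
    have : (0 : ℝ) ≤ 1 / (d : ℝ) := by positivity
    linarith
  induction T with
  | leaf A =>
    intro i J V _ hSt _ _ hout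
    rcases V.eq_empty_or_nonempty with rfl | ⟨x, hx⟩
    · simp [BTree.leaves]
    · exfalso
      have hAF : A ⊆ F := (hout x hx).1
      have hAg : A.card ≤ g := (hout x hx).2.1
      have hVpos : 0 < V.card := Finset.card_pos.2 ⟨x, hx⟩
      have hRC : ∀ C ∈ A, R * (V.filter (fun y => FalseAt C y)).card ≤ V.card := by
        intro C hCA
        obtain ⟨e, he, p, hp, hpe⟩ := hF C (hAF hCA)
        rcases (V.filter (fun y => FalseAt C y)).eq_empty_or_nonempty with h0 | ⟨y, hy⟩
        · rw [h0]; simp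
        · obtain ⟨hyV, hyC⟩ := Finset.mem_filter.1 hy
          have hyp := hpe y hyC
          by_cases heJ : e ⊆ J
          · exact absurd (hgood e y p hyp.symm (hSt.sat y hyV e he heJ)) hp
          · refine le_trans (Nat.mul_le_mul_left _ (Finset.card_le_card ?_))
              (hSt.spread e he heJ y hyV)
            intro z hz
            obtain ⟨hzV, hzC⟩ := Finset.mem_filter.1 hz
            exact mem_cell.2 ⟨hzV, hyp.symm.trans (hpe z hzC)⟩
      have hcov : V ⊆ A.biUnion (fun C => V.filter (fun y => FalseAt C y)) := by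
        intro y hy
        obtain ⟨C, hC, hCy⟩ := (hout y hy).2.2
        rw [Finset.mem_biUnion]
        exact ⟨C, hC, Finset.mem_filter.2 ⟨hy, hCy⟩⟩
      have h1 : R * V.card ≤ g * V.card := by
        calc R * V.card ≤ R * ∑ C ∈ A, (V.filter (fun y => FalseAt C y)).card :=
              Nat.mul_le_mul_left _ ((Finset.card_le_card hcov).trans Finset.card_biUnion_le)
          _ = ∑ C ∈ A, R * (V.filter (fun y => FalseAt C y)).card := Finset.mul_sum _ _ _
          _ ≤ ∑ C ∈ A, V.card := Finset.sum_le_sum hRC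
          _ = A.card * V.card := by rw [Finset.sum_const, smul_eq_mul]
          _ ≤ _ := Nat.mul_le_mul_right _ hAg
      have h2 : R ≤ g := Nat.le_of_mul_le_mul_right h1 hVpos
      omega
  | node q t₀ t₁ ih0 ih1 =>
    intro i J V hReach hSt hdep hU hout
    obtain ⟨hq, hU0, hU1⟩ := hU
    have hq' : q ∈ Q := by exact_mod_cast hq
    set h := max t₀.depth t₁.depth with hh
    have hD : BTree.depth (BTree.node q t₀ t₁) = h + 1 := rfl
    have hL : BTree.leaves (BTree.node q t₀ t₁) = t₀.leaves + t₁.leaves := rfl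
    rw [hD] at hdep ⊢
    rw [hL]
    have hl0 : 1 ≤ t₀.leaves := t₀.leaves_pos
    have hl1 : 1 ≤ t₁.leaves := t₁.leaves_pos
    have hl0R : (1 : ℝ) ≤ t₀.leaves := by exact_mod_cast hl0
    have hl1R : (1 : ℝ) ≤ t₁.leaves := by exact_mod_cast hl1
    have hΘ : (0 : ℝ) ≤ Θ := Nat.cast_nonneg _
    have hGnn : (0 : ℝ) ≤ (G : ℝ) ^ J.card := by positivity
    by_cases hbig : (V.card : ℝ) * (G : ℝ) ^ J.card ≤ Θ
    · calc (1 - 1 / (d : ℝ)) ^ (2 * (h + 1)) * (V.card : ℝ) * (G : ℝ) ^ J.card
          = (1 - 1 / (d : ℝ)) ^ (2 * (h + 1)) * ((V.card : ℝ) * (G : ℝ) ^ J.card) := by ring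
        _ ≤ 1 * Θ := by
            apply mul_le_mul (pow_le_one₀ hρ0 hρ1) hbig (by positivity) zero_le_one
        _ ≤ ((t₀.leaves + t₁.leaves : ℕ) : ℝ) * Θ := by
            apply mul_le_mul_of_nonneg_right _ hΘ
            push_cast; linarith
    · push Not at hbig
      -- side claims
      have hW0 : ∀ x ∈ V.filter (fun x => q x = false), t₀.out x ⊆ F ∧ (t₀.out x).card ≤ g ∧
          ∃ C ∈ t₀.out x, FalseAt C x := by
        intro x hx
        obtain ⟨hx1, hx2⟩ := Finset.mem_filter.1 hx
        have := hout x hx1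
        simpa [BTree.out, hx2] using this
      have hW1 : ∀ x ∈ V.filter (fun x => q x = true), t₁.out x ⊆ F ∧ (t₁.out x).card ≤ g ∧
          ∃ C ∈ t₁.out x, FalseAt C x := by
        intro x hx
        obtain ⟨hx1, hx2⟩ := Finset.mem_filter.1 hx
        have := hout x hx1
        simpa [BTree.out, hx2] using this
      have hmemR : ∀ σ K x, (K, core blk E R₂ (V.filter (fun x => q x = σ)) K x)
          ∈ Reach blk E R₂ Q (i + 1) := by
        intro σ K x
        simp only [Reach]
        rw [Finset.mem_image]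
        exact ⟨((J, V), (q, (σ, (K, x)))), by simp [hReach, hq'], rfl⟩
      have side : ∀ (σ : Bool) (t : BTree n), t.depth ≤ h →
          (∀ (i : ℕ) (J : Finset (Fin N)) (V : Finset (Asg n)), (J, V) ∈ Reach blk E R₂ Q i →
            State blk E good R J V → i + t.depth ≤ D → t.Uses (Q : Set (Asg n → Bool)) →
            (∀ x ∈ V, t.out x ⊆ F ∧ (t.out x).card ≤ g ∧ ∃ C ∈ t.out x, FalseAt C x) →
            (1 - 1 / (d : ℝ)) ^ (2 * t.depth) * (V.card : ℝ) * (G : ℝ) ^ J.card
              ≤ (t.leaves : ℝ) * Θ) →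
          t.Uses (Q : Set (Asg n → Bool)) →
          (∀ x ∈ V.filter (fun x => q x = σ), t.out x ⊆ F ∧ (t.out x).card ≤ g ∧
            ∃ C ∈ t.out x, FalseAt C x) →
          V.card ≤ d * (V.filter (fun x => q x = σ)).card →
          (1 - 1 / (d : ℝ)) ^ (2 * h + 1) * ((V.filter (fun x => q x = σ)).card : ℝ)
            * (G : ℝ) ^ J.card ≤ (t.leaves : ℝ) * Θ := by
        intro σ t htd ih htU hto hcard
        apply side_claim hd hΛ hG hR₂ hgood hSt hbig q σ hcard
        · exact hev i (by omega) (J, V) hReach q hq' σ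
        · intro K x hSt'
          have h1 := ih (i + 1) K _ (hmemR σ K x) hSt' (by omega) htU (by
            intro y hy
            apply hto
            exact cell_subset _ _ _ _ (Finset.mem_filter.1 hy).1)
          refine le_trans ?_ h1
          have h2 : (1 - 1 / (d : ℝ)) ^ (2 * h) ≤ (1 - 1 / (d : ℝ)) ^ (2 * t.depth) :=
            pow_le_pow_of_le_one hρ0 hρ1 (by omega)
          apply mul_le_mul_of_nonneg_right _ (by positivity)
          exact mul_le_mul_of_nonneg_right h2 (by positivity)
      have hsplit : (V.filter (fun x => q x = true)).card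
          + (V.filter (fun x => q x = false)).card = V.card := by
        have := Finset.card_filter_add_card_filter_not (s := V) (fun x => q x = true)
        simpa using this
      have hsplitR : ((V.filter (fun x => q x = true)).card : ℝ)
          + ((V.filter (fun x => q x = false)).card : ℝ) = V.card := by exact_mod_cast hsplit
      have e1 : 2 * (h + 1) = 2 * h + 1 + 1 := by ring
      have hcomb : ∀ A B : ℝ, (V.card : ℝ) = A + B → 0 ≤ A → 0 ≤ B → (d : ℝ) * A ≤ V.card →
          (1 - 1 / (d : ℝ)) * V.card ≤ B := by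
        intro A B hAB hA hB hA'
        have : A ≤ 1 / d * V.card := by
          rw [one_div, ← div_eq_inv_mul, le_div_iff₀ hd0]; linarith
        linarith
      have hρp : (0 : ℝ) ≤ (1 - 1 / (d : ℝ)) ^ (2 * h + 1) := pow_nonneg hρ0 _
      push_cast
      rcases le_or_gt V.card (d * (V.filter (fun x => q x = true)).card) with hT | hT
      · have s1 := side true t₁ (le_max_right _ _) ih1 hU1 hW1 hT
        rcases le_or_gt V.card (d * (V.filter (fun x => q x = false)).card) with hFa | hFa
        · have s0 := side false t₀ (le_max_left _ _) ih0 hU0 hW0 hFa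
          calc (1 - 1 / (d : ℝ)) ^ (2 * (h + 1)) * (V.card : ℝ) * (G : ℝ) ^ J.card
              ≤ (1 - 1 / (d : ℝ)) ^ (2 * h + 1) * (V.card : ℝ) * (G : ℝ) ^ J.card := by
                apply mul_le_mul_of_nonneg_right _ hGnn
                apply mul_le_mul_of_nonneg_right _ (by positivity)
                exact pow_le_pow_of_le_one hρ0 hρ1 (by omega)
            _ = _ := by rw [← hsplitR]; ring
            _ ≤ _ := add_le_add s1 s0
            _ = _ := by ring
        · have h5 : (d : ℝ) * ((V.filter (fun x => q x = false)).card : ℝ) ≤ V.card := by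
            exact_mod_cast hFa.le
          have h6 := hcomb _ _ (by rw [add_comm]; exact hsplitR.symm) (by positivity)
            (by positivity) h5
          calc (1 - 1 / (d : ℝ)) ^ (2 * (h + 1)) * (V.card : ℝ) * (G : ℝ) ^ J.card
              = (1 - 1 / (d : ℝ)) ^ (2 * h + 1) * ((1 - 1 / (d : ℝ)) * (V.card : ℝ))
                * (G : ℝ) ^ J.card := by rw [e1, pow_succ]; ring
            _ ≤ (1 - 1 / (d : ℝ)) ^ (2 * h + 1)
                * ((V.filter (fun x => q x = true)).card : ℝ) * (G : ℝ) ^ J.card := by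
                apply mul_le_mul_of_nonneg_right _ hGnn
                exact mul_le_mul_of_nonneg_left h6 hρp
            _ ≤ (t₁.leaves : ℝ) * Θ := s1
            _ ≤ _ := by nlinarith
      · have hFa : V.card ≤ d * (V.filter (fun x => q x = false)).card := by
          have h7 : 2 * (V.filter (fun x => q x = true)).card
              ≤ d * (V.filter (fun x => q x = true)).card := Nat.mul_le_mul_right _ hd
          have h8 : 2 * (V.filter (fun x => q x = false)).card
              ≤ d * (V.filter (fun x => q x = false)).card := Nat.mul_le_mul_right _ hd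
          omega
        have s0 := side false t₀ (le_max_left _ _) ih0 hU0 hW0 hFa
        have h5 : (d : ℝ) * ((V.filter (fun x => q x = true)).card : ℝ) ≤ V.card := by
          exact_mod_cast hT.le
        have h6 := hcomb _ _ (hsplitR.symm) (by positivity) (by positivity) h5
        calc (1 - 1 / (d : ℝ)) ^ (2 * (h + 1)) * (V.card : ℝ) * (G : ℝ) ^ J.card
            = (1 - 1 / (d : ℝ)) ^ (2 * h + 1) * ((1 - 1 / (d : ℝ)) * (V.card : ℝ))
              * (G : ℝ) ^ J.card := by rw [e1, pow_succ]; ring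
          _ ≤ (1 - 1 / (d : ℝ)) ^ (2 * h + 1)
              * ((V.filter (fun x => q x = false)).card : ℝ) * (G : ℝ) ^ J.card := by
              apply mul_le_mul_of_nonneg_right _ hGnn
              exact mul_le_mul_of_nonneg_left h6 hρp
          _ ≤ (t₀.leaves : ℝ) * Θ := s0
          _ ≤ _ := by nlinarith

end Pool.Agent.H538R2.SB
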