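import Mathlib
import Pool.Agent.H538R2.SBTree

/-!
The counting argument: a random choice of the allowed patterns works for all adversary states.
-/

namespace Pool.Agent.H538R2.SB

open Finset

section count

variable {ι : Type*} [Fintype ι] [DecidableEq ι] {q : ℕ} [NeZero q]

lemma count_single (a : ι) (P : (ι → Fin q) → Prop) [DecidablePred P]
    (hP : ∀ (ω : ι → Fin q) (k : Fin q), P ω ↔ P (Function.update ω a k)) :
    (Finset.univ.filter P).card
      = q * (Finset.univ.filter (fun ω => P ω ∧ ω a = 0)).card := by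
  have h1 : q * (Finset.univ.filter (fun ω => P ω ∧ ω a = 0)).card
      = ((Finset.univ : Finset (Fin q)) ×ˢ
          (Finset.univ.filter (fun ω => P ω ∧ ω a = 0))).card := by
    rw [Finset.card_product]; simp
  rw [h1]
  refine Finset.card_bij' (fun ω _ => (ω a, Function.update ω a 0))
    (fun p _ => Function.update p.2 a p.1) ?_ ?_ ?_ ?_
  · intro ω hω
    simp only [Finset.mem_filter, Finset.mem_univ, true_and] at hω
    simp only [Finset.mem_product, Finset.mem_univ, Finset.mem_filter, true_and,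
      Function.update_self, and_true]
    exact (hP ω 0).1 hω
  · intro p hp
    simp only [Finset.mem_product, Finset.mem_univ, Finset.mem_filter, true_and] at hp ⊢
    exact (hP p.2 p.1).1 hp.1
  · intro ω _
    simp
  · intro p hp
    simp only [Finset.mem_product, Finset.mem_univ, Finset.mem_filter, true_and] at hp
    ext1
    · simp
    · simp only [Function.update_idem]
      rw [← hp.2, Function.update_eq_self]

lemma count_zero (C : Finset ι) :
    ∀ (P : (ι → Fin q) → Prop) [DecidablePred P],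
    (∀ ω ω', (∀ i, i ∉ C → ω i = ω' i) → (P ω ↔ P ω')) →
    (Finset.univ.filter P).card
      = q ^ C.card * (Finset.univ.filter (fun ω => P ω ∧ ∀ c ∈ C, ω c = 0)).card := by
  induction C using Finset.induction_on with
  | empty => intro P _ hP; simp
  | insert a C ha ih =>
    intro P _ hP
    rw [Finset.card_insert_of_notMem ha]
    rw [ih P (fun ω ω' h => hP ω ω' (fun i hi => h i (fun hi' => hi (Finset.mem_insert_of_mem hi'))))]
    rw [count_single a (fun ω => P ω ∧ ∀ c ∈ C, ω c = 0)]
    · rw [pow_succ, mul_assoc]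
      congr 2
      congr 1
      ext ω
      simp only [Finset.mem_filter, Finset.mem_univ, true_and, Finset.mem_insert, forall_eq_or_imp]
      tauto
    · intro ω k
      have h1 : P ω ↔ P (Function.update ω a k) := by
        apply hP
        intro i hi
        rw [Function.update_of_ne]
        rintro rfl
        exact hi (Finset.mem_insert_self _ _)
      have h2 : (∀ c ∈ C, ω c = 0) ↔ (∀ c ∈ C, Function.update ω a k c = 0) := by
        constructor
        · intro h c hc
          rw [Function.update_of_ne (by rintro rfl; exact ha hc)]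
          exact h c hc
        · intro h c hc
          have := h c hc
          rwa [Function.update_of_ne (by rintro rfl; exact ha hc)] at this
      rw [← h1, ← h2]

lemma count_disjoint {α : Type*} [DecidableEq α] (C : α → Finset ι) (s : ℕ) (Y : Finset α)
    (hs : ∀ y ∈ Y, (C y).card ≤ s)
    (hdisj : ∀ y ∈ Y, ∀ y' ∈ Y, y ≠ y' → Disjoint (C y) (C y')) :
    ((Finset.univ.filter (fun ω : ι → Fin q => ∀ y ∈ Y, ¬ ∀ c ∈ C y, ω c = 0)).card : ℝ)
      ≤ (1 - 1 / (q : ℝ) ^ s) ^ Y.card * (q : ℝ) ^ Fintype.card ι := by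
  have hq : (1 : ℝ) ≤ q := by
    have : 1 ≤ q := Nat.one_le_iff_ne_zero.2 (NeZero.ne q)
    exact_mod_cast this
  have hqs : (1 : ℝ) ≤ (q : ℝ) ^ s := one_le_pow₀ hq
  have hρ0 : (0 : ℝ) ≤ 1 - 1 / (q : ℝ) ^ s := by
    have : 1 / (q : ℝ) ^ s ≤ 1 := by
      rw [div_le_one (by positivity)]; exact hqs
    linarith
  induction Y using Finset.induction_on with
  | empty =>
    simp
  | insert y Y hy ih =>
    have ih' := ih (fun z hz => hs z (Finset.mem_insert_of_mem hz))
      (fun z hz z' hz' => hdisj z (Finset.mem_insert_of_mem hz) z' (Finset.mem_insert_of_mem hz'))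
    rw [Finset.card_insert_of_notMem hy, pow_succ]
    set P : (ι → Fin q) → Prop := fun ω => ∀ y ∈ Y, ¬ ∀ c ∈ C y, ω c = 0 with hP
    have h1 := count_zero (q := q) (C y) P (by
      intro ω ω' h
      have : ∀ z ∈ Y, ((∀ c ∈ C z, ω c = 0) ↔ (∀ c ∈ C z, ω' c = 0)) := by
        intro z hz
        have hne : y ≠ z := by rintro rfl; exact hy hz
        have hd := hdisj y (Finset.mem_insert_self _ _) z (Finset.mem_insert_of_mem hz) hne
        apply forall₂_congr
        intro c hc
        rw [h c (fun hc' => Finset.disjoint_left.1 hd hc' hc)]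
      simp only [hP]
      apply forall₂_congr
      intro z hz
      rw [this z hz])
    have h2 : (Finset.univ.filter (fun ω : ι → Fin q =>
        ∀ z ∈ insert y Y, ¬ ∀ c ∈ C z, ω c = 0)).card
        + (Finset.univ.filter (fun ω => P ω ∧ ∀ c ∈ C y, ω c = 0)).card
        = (Finset.univ.filter P).card := by
      rw [← Finset.card_filter_add_card_filter_not (s := Finset.univ.filter P)
        (fun ω => ¬ ∀ c ∈ C y, ω c = 0)]
      congr 1
      · congr 1
        ext ω
        simp only [hP, Finset.mem_filter, Finset.mem_univ, true_and, Finset.mem_insert,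
          forall_eq_or_imp]
        tauto
      · congr 1
        ext ω
        simp only [Finset.mem_filter, Finset.mem_univ, true_and]
        tauto
    have h1R : ((Finset.univ.filter P).card : ℝ) = (q : ℝ) ^ (C y).card *
        ((Finset.univ.filter (fun ω => P ω ∧ ∀ c ∈ C y, ω c = 0)).card : ℝ) := by
      exact_mod_cast h1
    have h2R : ((Finset.univ.filter (fun ω : ι → Fin q =>
        ∀ z ∈ insert y Y, ¬ ∀ c ∈ C z, ω c = 0)).card : ℝ)
        + ((Finset.univ.filter (fun ω => P ω ∧ ∀ c ∈ C y, ω c = 0)).card : ℝ)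
        = ((Finset.univ.filter P).card : ℝ) := by exact_mod_cast h2
    have hcs : (q : ℝ) ^ (C y).card ≤ (q : ℝ) ^ s :=
      pow_le_pow_right₀ hq (hs y (Finset.mem_insert_self _ _))
    have h3 : ((Finset.univ.filter P).card : ℝ) / (q : ℝ) ^ s
        ≤ ((Finset.univ.filter (fun ω => P ω ∧ ∀ c ∈ C y, ω c = 0)).card : ℝ) := by
      rw [div_le_iff₀ (by positivity), h1R, mul_comm]
      exact mul_le_mul_of_nonneg_left hcs (by positivity)
    calc ((Finset.univ.filter (fun ω : ι → Fin q =>
        ∀ z ∈ insert y Y, ¬ ∀ c ∈ C z, ω c = 0)).card : ℝ)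
        ≤ (1 - 1 / (q : ℝ) ^ s) * ((Finset.univ.filter P).card : ℝ) := by
          have : ((Finset.univ.filter P).card : ℝ) / (q : ℝ) ^ s
            = 1 / (q : ℝ) ^ s * ((Finset.univ.filter P).card : ℝ) := by ring
          linarith
      _ ≤ (1 - 1 / (q : ℝ) ^ s) * ((1 - 1 / (q : ℝ) ^ s) ^ Y.card * (q : ℝ) ^ Fintype.card ι) :=
          mul_le_mul_of_nonneg_left ih' hρ0
      _ = _ := by ring

end count

section one_state

variable {n N : ℕ} (blk : Fin n → Fin N) (E : Finset (Finset (Fin N))) (R₂ : ℕ)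

variable {blk E R₂}

lemma exists_closure {J : Finset (Fin N)} {W : Finset (Asg n)} (hR₂ : 1 ≤ R₂)
    (hfix : ∀ x ∈ W, ∀ y ∈ W, Agree blk J x y) {x : Asg n} (hx : x ∈ W) :
    ∃ K, J ⊆ K ∧ W.card ≤ R₂ ^ (K \ J).card * (cell blk W K x).card ∧ Stuck blk E R₂ W K x := by
  classical
  set S : Finset (Finset (Fin N)) := Finset.univ.filter (fun K =>
    J ⊆ K ∧ W.card ≤ R₂ ^ (K \ J).card * (cell blk W K x).card) with hS
  have hJ : J ∈ S := by
    simp only [hS, Finset.mem_filter, Finset.mem_univ, true_and]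
    refine ⟨subset_rfl, ?_⟩
    simp only [sdiff_self, Finset.bot_eq_empty, Finset.card_empty, pow_zero, one_mul]
    apply Finset.card_le_card
    intro y hy
    exact mem_cell.2 ⟨hy, hfix x hx y hy⟩
  obtain ⟨K, hK, hmax⟩ := Finset.exists_max_image S Finset.card ⟨J, hJ⟩
  simp only [hS, Finset.mem_filter, Finset.mem_univ, true_and] at hK
  refine ⟨K, hK.1, hK.2, ?_⟩
  intro e he heK
  by_contra hcon
  push Not at hcon
  have hlt : K ⊂ K ∪ e := by
    rw [Finset.ssubset_iff_subset_ne]
    refine ⟨Finset.subset_union_left, ?_⟩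
    intro h
    exact heK (Finset.union_eq_left.1 h.symm)
  have hJK' : J ⊆ K ∪ e := hK.1.trans hlt.subset
  have hc : (K \ J).card + 1 ≤ ((K ∪ e) \ J).card := by
    rw [Finset.card_sdiff_of_subset hK.1, Finset.card_sdiff_of_subset hJK']
    have h1 := Finset.card_lt_card hlt
    have h2 := Finset.card_le_card hK.1
    omega
  have hmem : K ∪ e ∈ S := by
    simp only [hS, Finset.mem_filter, Finset.mem_univ, true_and]
    refine ⟨hJK', ?_⟩
    calc W.card ≤ R₂ ^ (K \ J).card * (cell blk W K x).card := hK.2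
      _ ≤ R₂ ^ (K \ J).card * (R₂ * (cell blk W (K ∪ e) x).card) :=
          Nat.mul_le_mul_left _ hcon.le
      _ = R₂ ^ ((K \ J).card + 1) * (cell blk W (K ∪ e) x).card := by ring
      _ ≤ _ := Nat.mul_le_mul_right _ (Nat.pow_le_pow_right hR₂ hc)
  have := hmax _ hmem
  have := Finset.card_lt_card hlt
  omega

lemma unbalanced_bound {W : Finset (Asg n)} (K : Finset (Fin N)) (Λ : ℕ) :
    Λ * (W.filter (fun x => Stuck blk E R₂ W K x ∧
      Λ * (core blk E R₂ W K x).card < (cell blk W K x).card)).card ≤ W.card := by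
  classical
  set U := W.filter (fun x => Stuck blk E R₂ W K x ∧
      Λ * (core blk E R₂ W K x).card < (cell blk W K x).card) with hU
  have h1 : U.card = ∑ m ∈ U.image (mask blk K), (U.filter (fun x => mask blk K x = m)).card :=
    Finset.card_eq_sum_card_image _ _
  have h2 : ∑ m ∈ U.image (mask blk K), (W.filter (fun x => mask blk K x = m)).card
      ≤ W.card := by
    rw [Finset.card_eq_sum_card_image (mask blk K) W]
    apply Finset.sum_le_sum_of_subset
    exact Finset.image_subset_image (Finset.filter_subset _ _)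
  rw [h1, Finset.mul_sum]
  refine le_trans (Finset.sum_le_sum ?_) h2
  intro m hm
  obtain ⟨x, hx, rfl⟩ := Finset.mem_image.1 hm
  obtain ⟨hxW, hxS, hxlt⟩ := Finset.mem_filter.1 hx
  have h3 : U.filter (fun y => mask blk K y = mask blk K x) ⊆ core blk E R₂ W K x := by
    intro y hy
    obtain ⟨hyU, hyx⟩ := Finset.mem_filter.1 hy
    obtain ⟨hyW, hyS, _⟩ := Finset.mem_filter.1 hyU
    exact Finset.mem_filter.2 ⟨mem_cell.2 ⟨hyW, (mask_eq_iff blk).1 hyx⟩, hyS⟩
  have h4 : W.filter (fun y => mask blk K y = mask blk K x) = cell blk W K x := by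
    ext y
    rw [mem_cell, Finset.mem_filter, mask_eq_iff]
  rw [h4]
  calc Λ * (U.filter (fun y => mask blk K y = mask blk K x)).card
      ≤ Λ * (core blk E R₂ W K x).card := Nat.mul_le_mul_left _ (Finset.card_le_card h3)
    _ ≤ _ := hxlt.le

/-- the random satisfaction relation -/
def goodOf {q : ℕ} [NeZero q] (blk : Fin n → Fin N) (ω : Finset (Fin N) × Asg n → Fin q)
    (e : Finset (Fin N)) (x : Asg n) : Prop := ω (e, mask blk e x) = 0

lemma goodOf_congr {q : ℕ} [NeZero q] (ω : Finset (Fin N) × Asg n → Fin q) :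
    ∀ e x y, Agree blk e x y → goodOf blk ω e x → goodOf blk ω e y := by
  intro e x y h hg
  unfold goodOf at hg ⊢
  rwa [(mask_eq_iff blk).2 h]

open Classical in
/-- For one `(J, W)` the good event fails with tiny probability. -/
lemma one_state {q : ℕ} [NeZero q] {R d Θ G Λ s : ℕ} (hR : 1 ≤ R) (hd : 1 ≤ d)
    (hG : G = R₂ * Λ) (hR₂ : 1 ≤ R₂) (hΛ : Λ = 2 ^ (N + 1) * d)
    (hs : ∀ (K : Finset (Fin N)) (x : Asg n),
      Θ ≤ d * G ^ N * (cell blk Finset.univ K x).card → (E.filter (fun e => e ⊆ K)).card ≤ s)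
    {J : Finset (Fin N)} {W : Finset (Asg n)} (hpre : Pre blk E R₂ R d Θ G J W) :
    ∃ m : ℕ, R ≤ 2 * d ^ 2 * E.card * m ∧
    ((Finset.univ.filter (fun ω : Finset (Fin N) × Asg n → Fin q =>
      ¬ Event blk E R₂ (goodOf blk ω) Λ J W)).card : ℝ)
      ≤ (1 - 1 / (q : ℝ) ^ s) ^ m * (q : ℝ) ^ Fintype.card (Finset (Fin N) × Asg n) := by
  obtain ⟨hfix, hspread, hlarge, hpop⟩ := hpre
  have hΛ1 : 1 ≤ Λ := by
    rw [hΛ]
    exact Nat.mul_pos (by positivity) hd
  have hG1 : 1 ≤ G := by rw [hG]; exact Nat.mul_pos hR₂ hΛ1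
  have hR₂G : R₂ ≤ G := by rw [hG]; exact Nat.le_mul_of_pos_right _ hΛ1
  -- choose the closures
  have hcl : ∀ x : Asg n, ∃ K, x ∈ W → (J ⊆ K ∧
      W.card ≤ R₂ ^ (K \ J).card * (cell blk W K x).card ∧ Stuck blk E R₂ W K x) := by
    intro x
    by_cases hx : x ∈ W
    · obtain ⟨K, hK⟩ := exists_closure (E := E) hR₂ hfix hx
      exact ⟨K, fun _ => hK⟩
    · exact ⟨∅, fun h => absurd h hx⟩
  choose κ hκ using hcl
  set P := W.filter (fun x => ¬ Stuck blk E R₂ W J x) with hPdef
  set X₂ := P.filter (fun x => (cell blk W (κ x) x).card ≤ Λ * (core blk E R₂ W (κ x) x).card)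
    with hX₂
  have hPW : P ⊆ W := Finset.filter_subset _ _
  -- the unbalanced part
  have hunb : Λ * (P.filter (fun x =>
      ¬ (cell blk W (κ x) x).card ≤ Λ * (core blk E R₂ W (κ x) x).card)).card
      ≤ 2 ^ N * W.card := by
    have hsub : P.filter (fun x =>
        ¬ (cell blk W (κ x) x).card ≤ Λ * (core blk E R₂ W (κ x) x).card) ⊆
        (Finset.univ : Finset (Finset (Fin N))).biUnion (fun K =>
          W.filter (fun x => Stuck blk E R₂ W K x ∧
            Λ * (core blk E R₂ W K x).card < (cell blk W K x).card)) := by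
      intro x hx
      obtain ⟨hx1, hx2⟩ := Finset.mem_filter.1 hx
      rw [Finset.mem_biUnion]
      refine ⟨κ x, Finset.mem_univ _, ?_⟩
      rw [Finset.mem_filter]
      exact ⟨hPW hx1, (hκ x (hPW hx1)).2.2, not_le.1 hx2⟩
    calc Λ * _ ≤ Λ * ∑ K : Finset (Fin N), (W.filter (fun x => Stuck blk E R₂ W K x ∧
            Λ * (core blk E R₂ W K x).card < (cell blk W K x).card)).card :=
          Nat.mul_le_mul_left _ ((Finset.card_le_card hsub).trans Finset.card_biUnion_le)
      _ = ∑ K : Finset (Fin N), Λ * (W.filter (fun x => Stuck blk E R₂ W K x ∧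
            Λ * (core blk E R₂ W K x).card < (cell blk W K x).card)).card := Finset.mul_sum _ _ _
      _ ≤ ∑ K : Finset (Fin N), W.card := Finset.sum_le_sum (fun K _ => unbalanced_bound K Λ)
      _ = 2 ^ N * W.card := by
          rw [Finset.sum_const, Finset.card_univ, Fintype.card_finset, Fintype.card_fin,
            smul_eq_mul]
  have hPsplit : X₂.card + (P.filter (fun x =>
      ¬ (cell blk W (κ x) x).card ≤ Λ * (core blk E R₂ W (κ x) x).card)).card = P.card :=
    Finset.card_filter_add_card_filter_not _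
  have hX₂big : W.card < 2 * d * X₂.card := by
    set u := (P.filter (fun x =>
      ¬ (cell blk W (κ x) x).card ≤ Λ * (core blk E R₂ W (κ x) x).card)).card
    have h1 : 2 * d * u ≤ W.card := by
      rw [hΛ] at hunb
      have h2 : 2 ^ N * (2 * d * u) ≤ 2 ^ N * W.card := by
        calc 2 ^ N * (2 * d * u) = 2 ^ (N + 1) * d * u := by ring
          _ ≤ _ := hunb
      exact Nat.le_of_mul_le_mul_left h2 (by positivity)
    have h3 : 2 * d * P.card = 2 * d * X₂.card + 2 * d * u := by rw [← hPsplit]; ring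
    have h4 : 2 * W.card < 2 * d * P.card := by
      calc 2 * W.card < 2 * (d * P.card) := by omega
        _ = 2 * d * P.card := by ring
    omega
  -- greedy choice of Y
  set Ind : Finset (Finset (Asg n)) := X₂.powerset.filter (fun Y =>
    ∀ y ∈ Y, ∀ y' ∈ Y, y ≠ y' → ∀ e ∈ E, ¬ e ⊆ J → mask blk e y ≠ mask blk e y') with hInd
  have hemp : ∅ ∈ Ind := by simp [hInd]
  obtain ⟨Y, hY, hYmax⟩ := Finset.exists_max_image Ind Finset.card ⟨∅, hemp⟩
  obtain ⟨hY1, hYind⟩ := Finset.mem_filter.1 hY
  have hYX : Y ⊆ X₂ := Finset.mem_powerset.1 hY1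
  have hcover : ∀ x ∈ X₂, ∃ y ∈ Y, ∃ e ∈ E, ¬ e ⊆ J ∧ mask blk e x = mask blk e y := by
    intro x hx
    have hxP : x ∈ P := (Finset.mem_filter.1 hx).1
    have hxns : ¬ Stuck blk E R₂ W J x := (Finset.mem_filter.1 hxP).2
    have hex : ∃ e ∈ E, ¬ e ⊆ J := by
      by_contra hcon
      push Not at hcon
      exact hxns (fun e he heJ => absurd (hcon e he) heJ)
    by_cases hxY : x ∈ Y
    · obtain ⟨e, he, heJ⟩ := hex
      exact ⟨x, hxY, e, he, heJ, rfl⟩
    · by_contra hcon
      push Not at hcon
      have hins : insert x Y ∈ Ind := by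
        rw [hInd, Finset.mem_filter, Finset.mem_powerset]
        refine ⟨Finset.insert_subset hx hYX, ?_⟩
        intro y hy y' hy' hne e he heJ
        rcases Finset.mem_insert.1 hy with h1 | h1
        · rcases Finset.mem_insert.1 hy' with h2 | h2
          · exact absurd (h1.trans h2.symm) hne
          · rw [h1]; exact hcon y' h2 e he heJ
        · rcases Finset.mem_insert.1 hy' with h2 | h2
          · rw [h2]; exact fun h => hcon y h1 e he heJ h.symm
          · exact hYind y h1 y' h2 hne e he heJ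
      have := hYmax _ hins
      rw [Finset.card_insert_of_notMem hxY] at this
      omega
  have hYbig : R ≤ 2 * d ^ 2 * E.card * Y.card := by
    have hsub : X₂ ⊆ Y.biUnion (fun y => (E.filter (fun e => ¬ e ⊆ J)).biUnion
        (fun e => cell blk W e y)) := by
      intro x hx
      obtain ⟨y, hy, e, he, heJ, hm⟩ := hcover x hx
      rw [Finset.mem_biUnion]
      refine ⟨y, hy, ?_⟩
      rw [Finset.mem_biUnion]
      refine ⟨e, Finset.mem_filter.2 ⟨he, heJ⟩, ?_⟩
      exact mem_cell.2 ⟨hPW (Finset.mem_filter.1 hx).1, (mask_eq_iff blk).1 hm⟩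
    have h1 : R * X₂.card ≤ Y.card * (E.card * (d * W.card)) := by
      calc R * X₂.card ≤ R * ∑ y ∈ Y, ∑ e ∈ E.filter (fun e => ¬ e ⊆ J), (cell blk W e y).card := by
            apply Nat.mul_le_mul_left
            refine (Finset.card_le_card hsub).trans (Finset.card_biUnion_le.trans ?_)
            exact Finset.sum_le_sum (fun y _ => Finset.card_biUnion_le)
        _ = ∑ y ∈ Y, ∑ e ∈ E.filter (fun e => ¬ e ⊆ J), R * (cell blk W e y).card := by
            rw [Finset.mul_sum]
            exact Finset.sum_congr rfl (fun y _ => Finset.mul_sum _ _ _)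
        _ ≤ ∑ y ∈ Y, ∑ e ∈ E.filter (fun e => ¬ e ⊆ J), d * W.card := by
            apply Finset.sum_le_sum
            intro y hy
            apply Finset.sum_le_sum
            intro e he
            obtain ⟨he1, he2⟩ := Finset.mem_filter.1 he
            exact hspread e he1 he2 y (hPW (Finset.mem_filter.1 (hYX hy)).1)
        _ = Y.card * ((E.filter (fun e => ¬ e ⊆ J)).card * (d * W.card)) := by
            rw [Finset.sum_const, Finset.sum_const, smul_eq_mul, smul_eq_mul]
        _ ≤ _ := by
            apply Nat.mul_le_mul_left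
            exact Nat.mul_le_mul_right _ (Finset.card_filter_le _ _)
    by_contra hcon
    push Not at hcon
    have hWpos : 0 < W.card := by
      rcases Nat.eq_zero_or_pos W.card with h0 | h0
      · have : P.card = 0 := by
          have := Finset.card_le_card hPW
          omega
        rw [h0, this] at hpop
        omega
      · exact h0
    have h2 : R * W.card < R * (2 * d * X₂.card) := Nat.mul_lt_mul_of_pos_left hX₂big hR
    have h3 : R * (2 * d * X₂.card) ≤ (2 * d ^ 2 * E.card * Y.card) * W.card := by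
      calc R * (2 * d * X₂.card) = 2 * d * (R * X₂.card) := by ring
        _ ≤ 2 * d * (Y.card * (E.card * (d * W.card))) := Nat.mul_le_mul_left _ h1
        _ = _ := by ring
    have h4 : (2 * d ^ 2 * E.card * Y.card) * W.card < R * W.card :=
      Nat.mul_lt_mul_of_pos_right hcon hWpos
    omega
  refine ⟨Y.card, hYbig, ?_⟩
  -- the coordinates
  set C : Asg n → Finset (Finset (Fin N) × Asg n) := fun y =>
    (E.filter (fun e => e ⊆ κ y ∧ ¬ e ⊆ J)).image (fun e => (e, mask blk e y)) with hC
  have hCs : ∀ y ∈ Y, (C y).card ≤ s := by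
    intro y hy
    have hyW : y ∈ W := hPW (Finset.mem_filter.1 (hYX hy)).1
    obtain ⟨k1, k2, k3⟩ := hκ y hyW
    have h1 : (C y).card ≤ (E.filter (fun e => e ⊆ κ y)).card := by
      refine Finset.card_image_le.trans (Finset.card_le_card ?_)
      intro e he
      obtain ⟨h1, h2, _⟩ := Finset.mem_filter.1 he
      exact Finset.mem_filter.2 ⟨h1, h2⟩
    refine h1.trans (hs (κ y) y ?_)
    have hKc : J.card + (κ y \ J).card ≤ N := by
      rw [Finset.card_sdiff_of_subset k1]
      have h5 := Finset.card_le_card k1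
      have h6 : (κ y).card ≤ N := by
        simpa using Finset.card_le_univ (κ y)
      omega
    calc Θ ≤ d * W.card * G ^ J.card := hlarge
      _ ≤ d * (R₂ ^ (κ y \ J).card * (cell blk W (κ y) y).card) * G ^ J.card := by
          apply Nat.mul_le_mul_right
          exact Nat.mul_le_mul_left _ k2
      _ ≤ d * (G ^ (κ y \ J).card * (cell blk Finset.univ (κ y) y).card) * G ^ J.card := by
          apply Nat.mul_le_mul_right
          apply Nat.mul_le_mul_left
          exact Nat.mul_le_mul (Nat.pow_le_pow_left hR₂G _)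
            (Finset.card_le_card (cell_mono_set blk (Finset.subset_univ _) _ _))
      _ = d * G ^ (J.card + (κ y \ J).card) * (cell blk Finset.univ (κ y) y).card := by
          rw [pow_add]; ring
      _ ≤ _ := by
          apply Nat.mul_le_mul_right
          apply Nat.mul_le_mul_left
          exact Nat.pow_le_pow_right hG1 hKc
  have hCd : ∀ y ∈ Y, ∀ y' ∈ Y, y ≠ y' → Disjoint (C y) (C y') := by
    intro y hy y' hy' hne
    rw [Finset.disjoint_left]
    rintro c hc hc'
    obtain ⟨e, he, rfl⟩ := Finset.mem_image.1 hc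
    obtain ⟨e', he', heq⟩ := Finset.mem_image.1 hc'
    obtain ⟨h1, h2, h3⟩ := Finset.mem_filter.1 he
    have e1 : e' = e := congrArg Prod.fst heq
    have e2 : mask blk e' y' = mask blk e y := congrArg Prod.snd heq
    rw [e1] at e2
    exact hYind y hy y' hy' hne e h1 h3 e2.symm
  refine le_trans (Nat.cast_le.2 (Finset.card_le_card ?_)) (count_disjoint (q := q) C s Y hCs hCd)
  intro ω hω
  simp only [Finset.mem_filter, Finset.mem_univ, true_and] at hω ⊢
  intro y hy hall
  apply hω
  have hyX := hYX hy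
  obtain ⟨hyP, hybal⟩ := Finset.mem_filter.1 hyX
  obtain ⟨hyW, hyns⟩ := Finset.mem_filter.1 hyP
  obtain ⟨k1, k2, k3⟩ := hκ y hyW
  refine ⟨y, hyW, κ y, ?_, k2, hybal, ?_⟩
  · rw [Finset.ssubset_iff_subset_ne]
    refine ⟨k1, ?_⟩
    intro h
    rw [← h] at k3
    exact hyns k3
  · intro e he heK heJ
    exact hall (e, mask blk e y) (Finset.mem_image.2
      ⟨e, Finset.mem_filter.2 ⟨he, heK, heJ⟩, rfl⟩)

end one_state

end Pool.Agent.H538R2.SB
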