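import Mathlib
import Pool.Agent.H538R2.SBProb

/-!
Union bound and the finite form of the lower bound.
-/

namespace Pool.Agent.H538R2.SB

open Finset

variable {n N : ℕ}

/-- The clause on the variables of the blocks in `e` which is falsified exactly by the assignments
whose true variables inside `e` are those of `S`. -/
def clauseOf (blk : Fin n → Fin N) (e : Finset (Fin N)) (S : Finset (Fin n)) : Clause n :=
  (Finset.univ.filter (fun v => blk v ∈ e)).image (fun v => (v, decide (v ∉ S)))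

lemma falseAt_clauseOf (blk : Fin n → Fin N) (e : Finset (Fin N)) (p x : Asg n) :
    FalseAt (clauseOf blk e (Finset.univ.filter (fun v => blk v ∈ e ∧ p v = true))) x ↔
      Agree blk e p x := by
  unfold FalseAt clauseOf Agree
  simp only [Finset.mem_image, Finset.mem_filter, Finset.mem_univ, true_and]
  constructor
  · intro h v hv
    have := h (v, decide (¬ (blk v ∈ e ∧ p v = true))) ⟨v, hv, rfl⟩
    simp only [hv, true_and] at this
    cases hp : p v <;> cases hx : x v <;> simp_all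
  · rintro h l ⟨v, hv, rfl⟩
    have := h v hv
    simp only [hv, true_and, this]
    cases hp : p v <;> simp

/-- the CNF obtained from `ω` -/
def cnfOf {q : ℕ} [NeZero q] (blk : Fin n → Fin N) (E : Finset (Finset (Fin N)))
    (ω : Finset (Fin N) × Asg n → Fin q) : Finset (Clause n) :=
  (E ×ˢ (Finset.univ : Finset (Asg n))).filter (fun p => ω (p.1, mask blk p.1 p.2) ≠ 0) |>.image
    (fun p => clauseOf blk p.1 (Finset.univ.filter (fun v => blk v ∈ p.1 ∧ p.2 v = true)))

lemma mem_cnfOf {q : ℕ} [NeZero q] {blk : Fin n → Fin N} {E : Finset (Finset (Fin N))}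
    {ω : Finset (Fin N) × Asg n → Fin q} {C : Clause n} :
    C ∈ cnfOf blk E ω ↔ ∃ e ∈ E, ∃ p : Asg n, ω (e, mask blk e p) ≠ 0 ∧
      clauseOf blk e (Finset.univ.filter (fun v => blk v ∈ e ∧ p v = true)) = C := by
  unfold cnfOf
  simp only [Finset.mem_image, Finset.mem_filter, Finset.mem_product, Finset.mem_univ, and_true,
    Prod.exists]
  constructor
  · rintro ⟨e, p, ⟨h1, h2⟩, h3⟩; exact ⟨e, h1, p, h2, h3⟩
  · rintro ⟨e, h1, p, h2, h3⟩; exact ⟨e, p, ⟨h1, h2⟩, h3⟩

lemma reach_card (blk : Fin n → Fin N) (E : Finset (Finset (Fin N))) (R₂ : ℕ)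
    {Q : Finset (Asg n → Bool)} {Qn : ℕ} (hQ : Q.card ≤ Qn) (i : ℕ) :
    (Reach blk E R₂ Q i).card ≤ (Qn * 2 ^ (N + n + 1)) ^ i := by
  induction i with
  | zero => simp [Reach]
  | succ i ih =>
    simp only [Reach]
    refine Finset.card_image_le.trans ?_
    rw [Finset.card_product, Finset.card_product, Finset.card_product, Finset.card_product]
    simp only [Finset.card_univ, Fintype.card_bool, Fintype.card_finset, Fintype.card_fin,
      Fintype.card_pi, Finset.prod_const]
    calc (Reach blk E R₂ Q i).card * (Q.card * (2 * (2 ^ N * 2 ^ n)))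
        ≤ (Qn * 2 ^ (N + n + 1)) ^ i * (Qn * (2 * (2 ^ N * 2 ^ n))) := by
          apply Nat.mul_le_mul ih
          exact Nat.mul_le_mul_right _ hQ
      _ = (Qn * 2 ^ (N + n + 1)) ^ (i + 1) := by
          rw [pow_succ (Qn * 2 ^ (N + n + 1)) i]
          congr 1
          ring

open Classical in
theorem exists_omega (blk : Fin n → Fin N) (E : Finset (Finset (Fin N)))
    {q : ℕ} [NeZero q] {R R₂ d Θ G Λ s z D Qn : ℕ} (hR : 1 ≤ R) (hd : 1 ≤ d)
    (hG : G = R₂ * Λ) (hR₂ : 1 ≤ R₂) (hΛ : Λ = 2 ^ (N + 1) * d)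
    (hE : 1 ≤ E.card)
    (hs : ∀ (K : Finset (Fin N)) (x : Asg n),
      Θ ≤ d * G ^ N * (cell blk Finset.univ K x).card → (E.filter (fun e => e ⊆ K)).card ≤ s)
    (H1 : 2 ^ (n + 1) < q ^ E.card)
    (H2 : 2 * d ^ 2 * E.card * (q ^ s * z) ≤ R)
    (H3 : 2 * (D * (Qn * 2 ^ (N + n + 1)) ^ D) ≤ 2 ^ z)
    {Q : Finset (Asg n → Bool)} (hQ : Q.card ≤ Qn) (hQn : 1 ≤ Qn) :
    ∃ ω : Finset (Fin N) × Asg n → Fin q,
      (∀ x : Asg n, ∃ e ∈ E, ω (e, mask blk e x) ≠ 0) ∧
      (∀ i < D, ∀ JV ∈ Reach blk E R₂ Q i, ∀ p ∈ Q, ∀ σ : Bool,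
        Pre blk E R₂ R d Θ G JV.1 (JV.2.filter (fun x => p x = σ)) →
        Event blk E R₂ (goodOf blk ω) Λ JV.1 (JV.2.filter (fun x => p x = σ))) := by
  set Ω := (Finset (Fin N) × Asg n → Fin q)
  set M : ℝ := (q : ℝ) ^ Fintype.card (Finset (Fin N) × Asg n) with hM
  have hq1 : 1 ≤ q := Nat.one_le_iff_ne_zero.2 (NeZero.ne q)
  have hqR : (1 : ℝ) ≤ q := by exact_mod_cast hq1
  have hMpos : 0 < M := by rw [hM]; positivity
  have hcardΩ : (Fintype.card Ω : ℝ) = M := by
    rw [hM]
    simp only [Ω, Fintype.card_pi, Fintype.card_fin, Finset.prod_const, Finset.card_univ]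
    push_cast
    rfl
  -- first bad set
  set bad1 : Finset Ω := Finset.univ.filter (fun ω => ∃ x : Asg n, ∀ e ∈ E, ω (e, mask blk e x) = 0)
    with hbad1
  have hb1 : 2 * (bad1.card : ℝ) < M := by
    have hx : ∀ x : Asg n, (q : ℝ) ^ E.card *
        ((Finset.univ.filter (fun ω : Ω => ∀ e ∈ E, ω (e, mask blk e x) = 0)).card : ℝ) = M := by
      intro x
      have h1 := count_zero (q := q) (E.image (fun e => (e, mask blk e x)))
        (fun _ : Ω => True) (fun _ _ _ => Iff.rfl)
      have h2 : (E.image (fun e => (e, mask blk e x))).card = E.card := by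
        apply Finset.card_image_of_injective
        intro a b hab
        exact congrArg Prod.fst hab
      have h3 : (Finset.univ.filter (fun ω : Ω => True ∧
          ∀ c ∈ E.image (fun e => (e, mask blk e x)), ω c = 0))
          = (Finset.univ.filter (fun ω : Ω => ∀ e ∈ E, ω (e, mask blk e x) = 0)) := by
        ext ω
        simp
      rw [h2, h3] at h1
      rw [← hcardΩ]
      have h4 : (Finset.univ.filter (fun _ : Ω => True)).card = Fintype.card Ω := by
        rw [Finset.filter_true_of_mem (fun _ _ => trivial), Finset.card_univ]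
      rw [h4] at h1
      exact_mod_cast h1.symm
    have hsub : bad1 ⊆ (Finset.univ : Finset (Asg n)).biUnion (fun x =>
        Finset.univ.filter (fun ω : Ω => ∀ e ∈ E, ω (e, mask blk e x) = 0)) := by
      intro ω hω
      obtain ⟨x, hx⟩ := (Finset.mem_filter.1 hω).2
      rw [Finset.mem_biUnion]
      exact ⟨x, Finset.mem_univ _, Finset.mem_filter.2 ⟨Finset.mem_univ _, hx⟩⟩
    have hle : (bad1.card : ℝ) ≤ ∑ x : Asg n,
        ((Finset.univ.filter (fun ω : Ω => ∀ e ∈ E, ω (e, mask blk e x) = 0)).card : ℝ) := by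
      exact_mod_cast (Finset.card_le_card hsub).trans Finset.card_biUnion_le
    have hqE : (0 : ℝ) < (q : ℝ) ^ E.card := by positivity
    have hmul : (q : ℝ) ^ E.card * (bad1.card : ℝ) ≤ 2 ^ n * M := by
      calc (q : ℝ) ^ E.card * (bad1.card : ℝ) ≤ (q : ℝ) ^ E.card * ∑ x : Asg n,
        ((Finset.univ.filter (fun ω : Ω => ∀ e ∈ E, ω (e, mask blk e x) = 0)).card : ℝ) :=
            mul_le_mul_of_nonneg_left hle hqE.le
        _ = ∑ x : Asg n, M := by
            rw [Finset.mul_sum]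
            exact Finset.sum_congr rfl (fun x _ => hx x)
        _ = 2 ^ n * M := by
            rw [Finset.sum_const, Finset.card_univ]
            simp
    have H1R : (2 : ℝ) ^ (n + 1) < (q : ℝ) ^ E.card := by exact_mod_cast H1
    by_contra hcon
    push Not at hcon
    have h5 : (2 : ℝ) ^ (n + 1) * (bad1.card : ℝ) ≥ 2 ^ n * M := by
      rw [pow_succ]
      have : (0 : ℝ) < 2 ^ n := by positivity
      nlinarith
    have h6 : (0 : ℝ) < bad1.card := by
      by_contra h0
      have : (bad1.card : ℝ) = 0 := le_antisymm (not_lt.1 h0) (Nat.cast_nonneg _)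
      rw [this] at hcon
      linarith
    nlinarith
  -- second bad set
  set B : (Finset (Fin N) × Finset (Asg n)) × ((Asg n → Bool) × Bool) → Finset Ω := fun t =>
    Finset.univ.filter (fun ω => Pre blk E R₂ R d Θ G t.1.1 (t.1.2.filter (fun x => t.2.1 x = t.2.2))
      ∧ ¬ Event blk E R₂ (goodOf blk ω) Λ t.1.1 (t.1.2.filter (fun x => t.2.1 x = t.2.2))) with hB
  have hBcard : ∀ t, ((B t).card : ℝ) * 2 ^ z ≤ M := by
    intro t
    by_cases hpre : Pre blk E R₂ R d Θ G t.1.1 (t.1.2.filter (fun x => t.2.1 x = t.2.2))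
    · obtain ⟨m, hm1, hm2⟩ := one_state (q := q) hR hd hG hR₂ hΛ hs hpre
      have h1 : ((B t).card : ℝ) ≤ (1 - 1 / (q : ℝ) ^ s) ^ m * M := by
        refine le_trans (Nat.cast_le.2 (Finset.card_le_card ?_)) hm2
        intro ω hω
        simp only [hB, Finset.mem_filter, Finset.mem_univ, true_and] at hω ⊢
        exact hω.2
      have h2 : q ^ s * z ≤ m := by
        have h3 : 2 * d ^ 2 * E.card * (q ^ s * z) ≤ 2 * d ^ 2 * E.card * m := H2.trans hm1
        exact Nat.le_of_mul_le_mul_left h3 (by positivity)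
      have hqs : (1 : ℝ) ≤ (q : ℝ) ^ s := one_le_pow₀ hqR
      have h4 : (1 - 1 / (q : ℝ) ^ s) ^ m ≤ Real.exp (-(z : ℝ)) := by
        have h5 : 1 - 1 / (q : ℝ) ^ s ≤ Real.exp (-(1 / (q : ℝ) ^ s)) := by
          have := Real.add_one_le_exp (-(1 / (q : ℝ) ^ s))
          linarith
        have h6 : 0 ≤ 1 - 1 / (q : ℝ) ^ s := by
          have : 1 / (q : ℝ) ^ s ≤ 1 := by
            rw [div_le_one (by positivity)]; exact hqs
          linarith
        calc (1 - 1 / (q : ℝ) ^ s) ^ m ≤ (Real.exp (-(1 / (q : ℝ) ^ s))) ^ m :=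
              pow_le_pow_left₀ h6 h5 m
          _ = Real.exp (m * (-(1 / (q : ℝ) ^ s))) := by rw [← Real.exp_nat_mul]
          _ ≤ Real.exp (-(z : ℝ)) := by
              apply Real.exp_le_exp.2
              have h7 : (q : ℝ) ^ s * z ≤ m := by exact_mod_cast h2
              have h8 : (z : ℝ) ≤ m * (1 / (q : ℝ) ^ s) := by
                rw [mul_one_div, le_div_iff₀ (by positivity)]
                linarith
              linarith
      have h9 : Real.exp (-(z : ℝ)) * 2 ^ z ≤ 1 := by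
        have : (2 : ℝ) ^ z ≤ Real.exp z := by
          calc (2 : ℝ) ^ z ≤ (Real.exp 1) ^ z := by
                apply pow_le_pow_left₀ (by norm_num)
                have := Real.add_one_le_exp (1 : ℝ)
                linarith
            _ = Real.exp z := by rw [← Real.exp_nat_mul]; simp
        calc Real.exp (-(z : ℝ)) * 2 ^ z ≤ Real.exp (-(z : ℝ)) * Real.exp z :=
              mul_le_mul_of_nonneg_left this (Real.exp_pos _).le
          _ = 1 := by rw [← Real.exp_add]; simp
      calc ((B t).card : ℝ) * 2 ^ z ≤ ((1 - 1 / (q : ℝ) ^ s) ^ m * M) * 2 ^ z :=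
            mul_le_mul_of_nonneg_right h1 (by positivity)
        _ ≤ (Real.exp (-(z : ℝ)) * M) * 2 ^ z := by
            apply mul_le_mul_of_nonneg_right _ (by positivity)
            exact mul_le_mul_of_nonneg_right h4 hMpos.le
        _ = (Real.exp (-(z : ℝ)) * 2 ^ z) * M := by ring
        _ ≤ 1 * M := mul_le_mul_of_nonneg_right h9 hMpos.le
        _ = M := one_mul _
    · have : B t = ∅ := by
        rw [hB]
        apply Finset.filter_false_of_mem
        intro ω _ h
        exact hpre h.1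
      rw [this]
      simp only [Finset.card_empty, Nat.cast_zero, zero_mul]
      exact hMpos.le
  set bad2 : Finset Ω := (Finset.range D).biUnion (fun i =>
    ((Reach blk E R₂ Q i) ×ˢ (Q ×ˢ (Finset.univ : Finset Bool))).biUnion B) with hbad2
  have hb2 : 2 * (bad2.card : ℝ) ≤ M := by
    have h1 : bad2.card ≤ ∑ i ∈ Finset.range D,
        ∑ t ∈ (Reach blk E R₂ Q i) ×ˢ (Q ×ˢ (Finset.univ : Finset Bool)), (B t).card := by
      refine Finset.card_biUnion_le.trans (Finset.sum_le_sum ?_)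
      intro i _
      exact Finset.card_biUnion_le
    have h2 : (bad2.card : ℝ) * 2 ^ z ≤ (D * (Qn * 2 ^ (N + n + 1)) ^ D : ℕ) * M := by
      calc (bad2.card : ℝ) * 2 ^ z ≤ ((∑ i ∈ Finset.range D,
          ∑ t ∈ (Reach blk E R₂ Q i) ×ˢ (Q ×ˢ (Finset.univ : Finset Bool)), (B t).card : ℕ) : ℝ)
            * 2 ^ z := by
            apply mul_le_mul_of_nonneg_right _ (by positivity)
            exact_mod_cast h1
        _ = ∑ i ∈ Finset.range D,
          ∑ t ∈ (Reach blk E R₂ Q i) ×ˢ (Q ×ˢ (Finset.univ : Finset Bool)),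
            ((B t).card : ℝ) * 2 ^ z := by
            push_cast
            rw [Finset.sum_mul]
            exact Finset.sum_congr rfl (fun i _ => Finset.sum_mul _ _ _)
        _ ≤ ∑ i ∈ Finset.range D,
          ∑ t ∈ (Reach blk E R₂ Q i) ×ˢ (Q ×ˢ (Finset.univ : Finset Bool)), M :=
            Finset.sum_le_sum (fun i _ => Finset.sum_le_sum (fun t _ => hBcard t))
        _ = ∑ i ∈ Finset.range D,
            (((Reach blk E R₂ Q i).card * (Q.card * 2) : ℕ) : ℝ) * M := by
            apply Finset.sum_congr rfl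
            intro i _
            rw [Finset.sum_const, Finset.card_product, Finset.card_product, nsmul_eq_mul]
            simp
        _ ≤ ∑ i ∈ Finset.range D, (((Qn * 2 ^ (N + n + 1)) ^ D : ℕ) : ℝ) * M := by
            apply Finset.sum_le_sum
            intro i hi
            apply mul_le_mul_of_nonneg_right _ hMpos.le
            have hi' : i + 1 ≤ D := Finset.mem_range.1 hi
            have : (Reach blk E R₂ Q i).card * (Q.card * 2) ≤ (Qn * 2 ^ (N + n + 1)) ^ D := by
              calc (Reach blk E R₂ Q i).card * (Q.card * 2)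
                  ≤ (Qn * 2 ^ (N + n + 1)) ^ i * (Qn * 2 ^ (N + n + 1)) := by
                    apply Nat.mul_le_mul (reach_card blk E R₂ hQ i)
                    apply Nat.mul_le_mul hQ
                    calc 2 = 2 ^ 1 := rfl
                      _ ≤ 2 ^ (N + n + 1) := Nat.pow_le_pow_right (by norm_num) (by omega)
                _ = (Qn * 2 ^ (N + n + 1)) ^ (i + 1) := (pow_succ _ _).symm
                _ ≤ _ := Nat.pow_le_pow_right (Nat.mul_pos hQn (by positivity)) hi'
            exact_mod_cast this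
        _ = _ := by
            rw [Finset.sum_const, Finset.card_range, nsmul_eq_mul]
            push_cast
            ring
    have h3 : (2 : ℝ) * ((D * (Qn * 2 ^ (N + n + 1)) ^ D : ℕ) : ℝ) ≤ 2 ^ z := by
      exact_mod_cast H3
    have hz : (0 : ℝ) < 2 ^ z := by positivity
    have h4 : (2 * (bad2.card : ℝ)) * 2 ^ z ≤ M * 2 ^ z := by
      calc (2 * (bad2.card : ℝ)) * 2 ^ z = 2 * ((bad2.card : ℝ) * 2 ^ z) := by ring
        _ ≤ 2 * ((D * (Qn * 2 ^ (N + n + 1)) ^ D : ℕ) * M) := by linarith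
        _ = (2 * ((D * (Qn * 2 ^ (N + n + 1)) ^ D : ℕ) : ℝ)) * M := by ring
        _ ≤ 2 ^ z * M := mul_le_mul_of_nonneg_right h3 hMpos.le
        _ = M * 2 ^ z := mul_comm _ _
    exact le_of_mul_le_mul_right h4 hz
  -- conclusion
  have hex : ∃ ω : Ω, ω ∉ bad1 ∪ bad2 := by
    by_contra hcon
    push Not at hcon
    have h1 : (Finset.univ : Finset Ω) ⊆ bad1 ∪ bad2 := fun ω _ => hcon ω
    have h2 : Fintype.card Ω ≤ bad1.card + bad2.card := by
      rw [← Finset.card_univ]
      exact (Finset.card_le_card h1).trans (Finset.card_union_le _ _)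
    have h3 : M ≤ bad1.card + bad2.card := by
      rw [← hcardΩ]; exact_mod_cast h2
    linarith
  obtain ⟨ω, hω⟩ := hex
  rw [Finset.mem_union, not_or] at hω
  refine ⟨ω, ?_, ?_⟩
  · intro x
    by_contra hcon
    push Not at hcon
    exact hω.1 (Finset.mem_filter.2 ⟨Finset.mem_univ _, x, hcon⟩)
  · intro i hi JV hJV p hp σ hpre
    by_contra hcon
    apply hω.2
    rw [hbad2, Finset.mem_biUnion]
    refine ⟨i, Finset.mem_range.2 hi, ?_⟩
    rw [Finset.mem_biUnion]
    refine ⟨(JV, (p, σ)), ?_, ?_⟩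
    · simp [hJV, hp]
    · simp only [hB, Finset.mem_filter, Finset.mem_univ, true_and]
      exact ⟨hpre, hcon⟩

/-- Finite form of the lower bound. -/
theorem finite_core (blk : Fin n → Fin N) (E : Finset (Finset (Fin N)))
    {q R R₂ d Θ G Λ s z D Qn g : ℕ} (hq : 1 ≤ q) (hR : g < R) (hd : 2 ≤ d)
    (hG : G = R₂ * Λ) (hR₂ : R₂ = Λ * R) (hΛ : Λ = 2 ^ (N + 1) * d)
    (hE : 1 ≤ E.card) (hE0 : ∀ e ∈ E, e.Nonempty)
    (hroot : ∀ e ∈ E, ∀ x : Asg n, R * (cell blk Finset.univ e x).card ≤ 2 ^ n)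
    (hs : ∀ (K : Finset (Fin N)) (x : Asg n),
      Θ ≤ d * G ^ N * (cell blk Finset.univ K x).card → (E.filter (fun e => e ⊆ K)).card ≤ s)
    (H1 : 2 ^ (n + 1) < q ^ E.card)
    (H2 : 2 * d ^ 2 * E.card * (q ^ s * z) ≤ R)
    (H3 : 2 * (D * (Qn * 2 ^ (N + n + 1)) ^ D) ≤ 2 ^ z)
    (Q : Finset (Asg n → Bool)) (hQ : Q.card ≤ Qn) (hQn : 1 ≤ Qn) :
    ∃ F : Finset (Clause n),
      (∀ C ∈ F, ∃ e ∈ E, ∃ S ⊆ Finset.univ.filter (fun v => blk v ∈ e), clauseOf blk e S = C) ∧
      (∀ x : Asg n, ∃ C ∈ F, FalseAt C x) ∧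
      ∀ T : BTree n, T.Uses (Q : Set (Asg n → Bool)) → T.depth ≤ D →
        (∀ x, T.out x ⊆ F ∧ (T.out x).card ≤ g ∧ ∃ C ∈ T.out x, FalseAt C x) →
        (1 - 1 / (d : ℝ)) ^ (2 * D) * 2 ^ n ≤ (T.leaves : ℝ) * Θ := by
  have : NeZero q := ⟨by omega⟩
  have hΛ2 : 2 ≤ Λ := by
    rw [hΛ]
    calc 2 = 1 * 2 := by norm_num
      _ ≤ 2 ^ (N + 1) * d := Nat.mul_le_mul (Nat.one_le_two_pow) hd
  have hR₂1 : 1 ≤ R₂ := by
    rw [hR₂]; exact Nat.mul_pos (by omega) (by omega)
  obtain ⟨ω, h1, h2⟩ := exists_omega (q := q) blk E (R := R) (R₂ := R₂) (d := d) (Θ := Θ) (G := G)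
    (Λ := Λ) (s := s) (z := z) (D := D) (Qn := Qn) (by omega) (by omega) hG hR₂1 hΛ hE hs H1 H2 H3
    hQ hQn
  refine ⟨cnfOf blk E ω, ?_, ?_, ?_⟩
  · intro C hC
    obtain ⟨e, he, p, _, rfl⟩ := mem_cnfOf.1 hC
    refine ⟨e, he, _, ?_, rfl⟩
    intro v hv
    simp only [Finset.mem_filter, Finset.mem_univ, true_and] at hv ⊢
    exact hv.1
  · intro x
    obtain ⟨e, he, hne⟩ := h1 x
    exact ⟨_, mem_cnfOf.2 ⟨e, he, x, hne, rfl⟩, (falseAt_clauseOf blk e x x).2 (Agree.refl _ _ _)⟩
  · intro T hU hdep hout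
    have hF : ∀ C ∈ cnfOf blk E ω, ∃ e ∈ E, ∃ p, ¬ goodOf blk ω e p ∧
        ∀ x, FalseAt C x → Agree blk e p x := by
      intro C hC
      obtain ⟨e, he, p, hp, rfl⟩ := mem_cnfOf.1 hC
      exact ⟨e, he, p, hp, fun x hx => (falseAt_clauseOf blk e p x).1 hx⟩
    have hSt : State blk E (goodOf blk ω) R ∅ (Finset.univ : Finset (Asg n)) := by
      refine ⟨?_, ?_, ?_⟩
      · intro x _ y _ v hv
        simp at hv
      · intro x _ e he he0
        obtain ⟨i, hi⟩ := hE0 e he
        have := he0 hi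
        simp at this
      · intro e he _ x _
        have := hroot e he x
        simpa [Finset.card_univ] using this
    have hmain := tree_ind (D := D) hd hΛ2 hR hG (by rw [hR₂]) (goodOf_congr ω) h2 hF T 0 ∅
      Finset.univ (by simp [Reach]) hSt (by omega) hU (fun x _ => hout x)
    have hdR : (2 : ℝ) ≤ d := by exact_mod_cast hd
    have hinv : 1 / (d : ℝ) ≤ 1 / 2 := by
      apply one_div_le_one_div_of_le <;> linarith
    have hρ0 : (0 : ℝ) ≤ 1 - 1 / (d : ℝ) := by linarith
    have hρ1 : 1 - 1 / (d : ℝ) ≤ 1 := by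
      have : (0 : ℝ) ≤ 1 / (d : ℝ) := by positivity
      linarith
    simp only [Finset.card_univ, Fintype.card_pi, Fintype.card_bool, Finset.prod_const,
      Fintype.card_fin, Finset.card_empty, pow_zero, mul_one] at hmain
    push_cast at hmain
    refine le_trans ?_ hmain
    apply mul_le_mul_of_nonneg_right _ (by positivity)
    exact pow_le_pow_of_le_one hρ0 hρ1 (by omega)

end Pool.Agent.H538R2.SB
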