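import Mathlib
import Pool.Agent.H538R2.SBTree

/-!
XOR-spans, the cost of a tree, and pruning of redundant queries.
-/

namespace Pool.Agent.H538R2.SB

open Finset

variable {n : ℕ}

lemma bit_injective : Function.Injective bit := by
  intro a b h
  cases a <;> cases b <;> simp_all [bit]

/-- prune the queries which are constant on the set of inputs reaching them -/
def prune : Finset (Asg n) → BTree n → BTree n
  | _, .leaf A => .leaf A
  | V, .node q t₀ t₁ =>
    if V.filter (fun x => q x = false) = ∅ then prune V t₁
    else if V.filter (fun x => q x = true) = ∅ then prune V t₀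
    else .node q (prune (V.filter (fun x => q x = false)) t₀)
      (prune (V.filter (fun x => q x = true)) t₁)

lemma prune_out (T : BTree n) : ∀ (V : Finset (Asg n)), ∀ x ∈ V, (prune V T).out x = T.out x := by
  induction T with
  | leaf A => intro V x _; simp [prune]
  | node q t₀ t₁ ih0 ih1 =>
    intro V x hx
    simp only [prune]
    split_ifs with h1 h2
    · have hqx : q x = true := by
        by_contra hne
        have : x ∈ V.filter (fun x => q x = false) := by
          simp only [Finset.mem_filter]
          exact ⟨hx, by simpa using hne⟩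
        rw [h1] at this
        simp at this
      rw [ih1 V x hx]
      simp [BTree.out, hqx]
    · have hqx : q x = false := by
        by_contra hne
        have : x ∈ V.filter (fun x => q x = true) := by
          simp only [Finset.mem_filter]
          exact ⟨hx, by simpa using hne⟩
        rw [h2] at this
        simp at this
      rw [ih0 V x hx]
      simp [BTree.out, hqx]
    · simp only [BTree.out]
      split_ifs with h3
      · exact ih1 _ x (Finset.mem_filter.2 ⟨hx, h3⟩)
      · exact ih0 _ x (Finset.mem_filter.2 ⟨hx, by simpa using h3⟩)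

lemma prune_leaves (T : BTree n) : ∀ V : Finset (Asg n), (prune V T).leaves ≤ T.leaves := by
  induction T with
  | leaf A => intro V; simp [prune]
  | node q t₀ t₁ ih0 ih1 =>
    intro V
    simp only [prune]
    split_ifs with h1 h2
    · have := ih1 V; simp only [BTree.leaves]; omega
    · have := ih0 V; simp only [BTree.leaves]; omega
    · have h3 := ih0 (V.filter (fun x => q x = false))
      have h4 := ih1 (V.filter (fun x => q x = true))
      simp only [BTree.leaves]; omega

lemma prune_uses {S : Set (Asg n → Bool)} (T : BTree n) (hT : T.Uses S) :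
    ∀ V : Finset (Asg n), (prune V T).Uses S := by
  induction T with
  | leaf A => intro V; simp [prune, BTree.Uses]
  | node q t₀ t₁ ih0 ih1 =>
    intro V
    obtain ⟨hq, h0, h1⟩ := hT
    simp only [prune]
    split_ifs with h2 h3
    · exact ih1 h1 V
    · exact ih0 h0 V
    · exact ⟨hq, ih0 h0 _, ih1 h1 _⟩

/-- the vector of values of the functions of `L` -/
def vec (L : Finset (Asg n → Bool)) (x : Asg n) : (L → ZMod 2) := fun g => bit (g.1 x)

lemma zmod2_add_self (a : ZMod 2) : a + a = 0 := CharTwo.add_self_eq_zero a

lemma prune_depth (L : Finset (Asg n → Bool)) (T : BTree n) :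
    ∀ (V : Finset (Asg n)) (K : ℕ) (A : Finset (L → ZMod 2)), V.Nonempty →
      (∀ x ∈ V, T.cost (xorSpan L) x ≤ K) → (∀ x ∈ V, vec L x ∈ A) →
      (∀ a ∈ A, ∀ b ∈ A, ∀ c ∈ A, a + b + c ∈ A) →
      2 ^ (prune V T).depth ≤ 2 ^ K * A.card := by
  classical
  induction T with
  | leaf C =>
    intro V K A hV _ hA _
    obtain ⟨x, hx⟩ := hV
    have : 0 < A.card := Finset.card_pos.2 ⟨_, hA x hx⟩
    simp only [prune, BTree.depth, pow_zero]
    exact Nat.mul_pos (by positivity) this
  | node q t₀ t₁ ih0 ih1 =>
    intro V K A hV hcost hA haff
    simp only [prune]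
    split_ifs with h1 h2
    · apply ih1 V K A hV _ hA haff
      intro x hx
      have hqx : q x = true := by
        by_contra hne
        have : x ∈ V.filter (fun x => q x = false) := by
          simp only [Finset.mem_filter]
          exact ⟨hx, by simpa using hne⟩
        rw [h1] at this
        simp at this
      have := hcost x hx
      simp only [BTree.cost, hqx, if_true] at this
      omega
    · apply ih0 V K A hV _ hA haff
      intro x hx
      have hqx : q x = false := by
        by_contra hne
        have : x ∈ V.filter (fun x => q x = true) := by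
          simp only [Finset.mem_filter]
          exact ⟨hx, by simpa using hne⟩
        rw [h2] at this
        simp at this
      have := hcost x hx
      simp only [BTree.cost, hqx] at this
      simp at this
      omega
    · have hV0 : (V.filter (fun x => q x = false)).Nonempty := Finset.nonempty_iff_ne_empty.2 h1
      have hV1 : (V.filter (fun x => q x = true)).Nonempty := Finset.nonempty_iff_ne_empty.2 h2
      have hc0 : ∀ x ∈ V.filter (fun x => q x = false),
          (if q ∈ xorSpan L then 0 else 1) + t₀.cost (xorSpan L) x ≤ K := by
        intro x hx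
        obtain ⟨hxV, hqx⟩ := Finset.mem_filter.1 hx
        have := hcost x hxV
        simpa [BTree.cost, hqx] using this
      have hc1 : ∀ x ∈ V.filter (fun x => q x = true),
          (if q ∈ xorSpan L then 0 else 1) + t₁.cost (xorSpan L) x ≤ K := by
        intro x hx
        obtain ⟨hxV, hqx⟩ := Finset.mem_filter.1 hx
        have := hcost x hxV
        simpa [BTree.cost, hqx] using this
      have hdep : ∀ m : ℕ, 2 ^ (prune (V.filter (fun x => q x = false)) t₀).depth ≤ m →
          2 ^ (prune (V.filter (fun x => q x = true)) t₁).depth ≤ m →
          2 ^ (max (prune (V.filter (fun x => q x = false)) t₀).depth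
            (prune (V.filter (fun x => q x = true)) t₁).depth + 1) ≤ 2 * m := by
        intro m hm0 hm1
        rw [pow_succ, mul_comm]
        apply Nat.mul_le_mul_left
        rcases max_choice (prune (V.filter (fun x => q x = false)) t₀).depth
            (prune (V.filter (fun x => q x = true)) t₁).depth with h | h <;> rw [h] <;> assumption
      simp only [BTree.depth]
      by_cases hq : q ∈ xorSpan L
      · obtain ⟨S, hS, c, hqS⟩ := hq
        simp only [show q ∈ xorSpan L from ⟨S, hS, c, hqS⟩, if_true, zero_add] at hc0 hc1
        -- the affine function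
        set ℓ : (L → ZMod 2) → ZMod 2 := fun y => c + ∑ g : L, if g.1 ∈ S then y g else 0 with hℓ
        have hℓvec : ∀ x, ℓ (vec L x) = bit (q x) := by
          intro x
          rw [hqS x, hℓ]
          simp only [vec]
          congr 1
          rw [← Finset.sum_filter]
          refine Finset.sum_bij (fun g _ => g.1) ?_ ?_ ?_ ?_
          · intro g hg; exact (Finset.mem_filter.1 hg).2
          · intro a _ b _ h; exact Subtype.ext h
          · intro g hg
            exact ⟨⟨g, hS hg⟩, Finset.mem_filter.2 ⟨Finset.mem_univ _, hg⟩, rfl⟩
          · intro g _; rfl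
        have hℓadd : ∀ a b d, ℓ (a + b + d) = ℓ a + ℓ b + ℓ d := by
          intro a b d
          simp only [hℓ, Pi.add_apply]
          have h3 : (∑ g : L, if g.1 ∈ S then a g + b g + d g else 0)
              = (∑ g : L, if g.1 ∈ S then a g else 0) + (∑ g : L, if g.1 ∈ S then b g else 0)
                + (∑ g : L, if g.1 ∈ S then d g else 0) := by
            rw [← Finset.sum_add_distrib, ← Finset.sum_add_distrib]
            apply Finset.sum_congr rfl
            intro g _
            split_ifs <;> simp
          rw [h3]
          have h4 := zmod2_add_self c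
          linear_combination (-1 : ZMod 2) * h4
        have hcard : ∀ σ : ZMod 2, (A.filter (fun y => ℓ y = σ)).card * 2 = A.card := by
          obtain ⟨x0, hx0⟩ := hV0
          obtain ⟨x1, hx1⟩ := hV1
          obtain ⟨hx0V, hx0q⟩ := Finset.mem_filter.1 hx0
          obtain ⟨hx1V, hx1q⟩ := Finset.mem_filter.1 hx1
          set a0 := vec L x0
          set a1 := vec L x1
          have ha0 : ℓ a0 = 0 := by rw [hℓvec, hx0q]; rfl
          have ha1 : ℓ a1 = 1 := by rw [hℓvec, hx1q]; rfl
          have hself : ∀ y : L → ZMod 2, y + a0 + a1 + a0 + a1 = y := by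
            intro y
            funext g
            simp only [Pi.add_apply]
            linear_combination zmod2_add_self (a0 g) + zmod2_add_self (a1 g)
          have hbij : (A.filter (fun y => ℓ y = 0)).card = (A.filter (fun y => ℓ y = 1)).card := by
            refine Finset.card_bij' (fun y _ => y + a0 + a1) (fun y _ => y + a0 + a1) ?_ ?_ ?_ ?_
            · intro y hy
              obtain ⟨hyA, hy0⟩ := Finset.mem_filter.1 hy
              refine Finset.mem_filter.2 ⟨haff y hyA a0 (hA x0 hx0V) a1 (hA x1 hx1V), ?_⟩
              rw [hℓadd, hy0, ha0, ha1]; decide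
            · intro y hy
              obtain ⟨hyA, hy0⟩ := Finset.mem_filter.1 hy
              refine Finset.mem_filter.2 ⟨haff y hyA a0 (hA x0 hx0V) a1 (hA x1 hx1V), ?_⟩
              rw [hℓadd, hy0, ha0, ha1]; decide
            · intro y _; exact hself y
            · intro y _; exact hself y
          have hsum : (A.filter (fun y => ℓ y = 0)).card + (A.filter (fun y => ℓ y = 1)).card
              = A.card := by
            rw [← Finset.card_filter_add_card_filter_not (s := A) (fun y => ℓ y = 0)]
            congr 1
            congr 1
            ext y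
            simp only [Finset.mem_filter, and_congr_right_iff]
            intro _
            have h01 : ∀ a : ZMod 2, a = 1 ↔ ¬ a = 0 := by decide
            exact h01 _
          intro σ
          have h01 : ∀ a : ZMod 2, a = 0 ∨ a = 1 := by decide
          rcases h01 σ with rfl | rfl <;> omega
        have haff' : ∀ σ : ZMod 2, ∀ a ∈ A.filter (fun y => ℓ y = σ),
            ∀ b ∈ A.filter (fun y => ℓ y = σ), ∀ d ∈ A.filter (fun y => ℓ y = σ),
            a + b + d ∈ A.filter (fun y => ℓ y = σ) := by
          intro σ a ha b hb d hd
          obtain ⟨ha1, ha2⟩ := Finset.mem_filter.1 ha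
          obtain ⟨hb1, hb2⟩ := Finset.mem_filter.1 hb
          obtain ⟨hd1, hd2⟩ := Finset.mem_filter.1 hd
          refine Finset.mem_filter.2 ⟨haff a ha1 b hb1 d hd1, ?_⟩
          rw [hℓadd, ha2, hb2, hd2, zmod2_add_self, zero_add]
        have i0 := ih0 (V.filter (fun x => q x = false)) K (A.filter (fun y => ℓ y = 0)) hV0 hc0
          (by
            intro x hx
            obtain ⟨hxV, hqx⟩ := Finset.mem_filter.1 hx
            refine Finset.mem_filter.2 ⟨hA x hxV, ?_⟩
            rw [hℓvec, hqx]; rfl) (haff' 0)
        have i1 := ih1 (V.filter (fun x => q x = true)) K (A.filter (fun y => ℓ y = 1)) hV1 hc1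
          (by
            intro x hx
            obtain ⟨hxV, hqx⟩ := Finset.mem_filter.1 hx
            refine Finset.mem_filter.2 ⟨hA x hxV, ?_⟩
            rw [hℓvec, hqx]; rfl) (haff' 1)
        have e0 := hcard 0
        have e1 := hcard 1
        have e2 : (A.filter (fun y => ℓ y = 1)).card = (A.filter (fun y => ℓ y = 0)).card := by
          omega
        rw [e2] at i1
        calc _ ≤ 2 * (2 ^ K * (A.filter (fun y => ℓ y = 0)).card) := hdep _ i0 i1
          _ = 2 ^ K * ((A.filter (fun y => ℓ y = 0)).card * 2) := by ring
          _ = _ := by rw [e0]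
      · simp only [hq, if_false] at hc0 hc1
        obtain ⟨K', rfl⟩ : ∃ K', K = K' + 1 := by
          obtain ⟨x0, hx0⟩ := hV0
          have := hc0 x0 hx0
          exact ⟨K - 1, by omega⟩
        have i0 := ih0 (V.filter (fun x => q x = false)) K' A hV0
          (fun x hx => by have := hc0 x hx; omega)
          (fun x hx => hA x (Finset.mem_filter.1 hx).1) haff
        have i1 := ih1 (V.filter (fun x => q x = true)) K' A hV1
          (fun x hx => by have := hc1 x hx; omega)
          (fun x hx => hA x (Finset.mem_filter.1 hx).1) haff
        calc _ ≤ 2 * (2 ^ K' * A.card) := hdep _ i0 i1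
          _ = _ := by rw [pow_succ]; ring

/-- the XOR-span as a finite set -/
noncomputable def spanFin (L : Finset (Asg n → Bool)) : Finset (Asg n → Bool) :=
  (L.powerset ×ˢ (Finset.univ : Finset (ZMod 2))).image
    (fun p x => decide (p.2 + ∑ g ∈ p.1, bit (g x) = 1))

lemma xorSpan_subset (L : Finset (Asg n → Bool)) : xorSpan L ⊆ (spanFin L : Set (Asg n → Bool)) := by
  rintro q ⟨S, hS, c, hq⟩
  rw [Finset.mem_coe]
  unfold spanFin
  rw [Finset.mem_image]
  refine ⟨(S, c), by simp [hS], ?_⟩
  funext x
  have h1 := hq x
  simp only
  rw [← h1]
  cases q x <;> simp [bit]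

lemma spanFin_card (L : Finset (Asg n → Bool)) : (spanFin L).card ≤ 2 ^ (L.card + 1) := by
  unfold spanFin
  refine Finset.card_image_le.trans ?_
  rw [Finset.card_product, Finset.card_powerset, pow_succ]
  simp [ZMod.card]

lemma prune_depth_univ (L : Finset (Asg n → Bool)) (T : BTree n) (K : ℕ)
    (hK : ∀ x, T.cost (xorSpan L) x ≤ K) :
    (prune Finset.univ T).depth ≤ K + L.card := by
  have h := prune_depth L T Finset.univ K Finset.univ Finset.univ_nonempty
    (fun x _ => hK x) (fun x _ => Finset.mem_univ _) (fun _ _ _ _ _ _ => Finset.mem_univ _)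
  have h2 : (Finset.univ : Finset (L → ZMod 2)).card = 2 ^ L.card := by
    rw [Finset.card_univ, Fintype.card_fun]
    simp [ZMod.card]
  rw [h2, ← pow_add] at h
  exact (Nat.pow_le_pow_iff_right (by norm_num)).1 h

end Pool.Agent.H538R2.SB
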