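import Mathlib
import Pool.Agent.H538R2.SBExist
import Pool.Agent.H538R2.SBPrune

/-!
The block structure and the exponent form of the lower bound.
-/

namespace Pool.Agent.H538R2.SB

open Finset

variable {n N : ℕ}

/-- residue classes mod `N` as blocks -/
def rblk (n N : ℕ) (hN : 0 < N) : Fin n → Fin N := fun v => ⟨v.1 % N, Nat.mod_lt _ hN⟩

/-- variables of the blocks in `K` -/
def vars (blk : Fin n → Fin N) (K : Finset (Fin N)) : Finset (Fin n) :=
  Finset.univ.filter (fun v => blk v ∈ K)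

lemma vars_lower (hN : 0 < N) (K : Finset (Fin N)) :
    K.card * (n / N) ≤ (vars (rblk n N hN) K).card := by
  have hlt : ∀ (r : Fin N) (j : ℕ), j < n / N → r.1 + N * j < n := by
    intro r j hj
    have h2 : r.1 < N := r.2
    have h3 : N * (j + 1) ≤ N * (n / N) := Nat.mul_le_mul_left _ hj
    have h4 : N * (n / N) ≤ n := Nat.mul_div_le n N
    have h5 : N * (j + 1) = N * j + N := by ring
    omega
  have hmod : ∀ (r : Fin N) (j : ℕ), (r.1 + N * j) % N = r.1 := by
    intro r j
    rw [Nat.add_mul_mod_self_left, Nat.mod_eq_of_lt r.2]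
  let f : (K × Fin (n / N)) → (vars (rblk n N hN) K) := fun p =>
    ⟨⟨p.1.1.1 + N * p.2.1, hlt p.1.1 p.2.1 p.2.2⟩, by
      refine Finset.mem_filter.2 ⟨Finset.mem_univ _, ?_⟩
      have : rblk n N hN ⟨p.1.1.1 + N * p.2.1, hlt p.1.1 p.2.1 p.2.2⟩ = p.1.1 :=
        Fin.ext (hmod p.1.1 p.2.1)
      rw [this]
      exact p.1.2⟩
  have hf : Function.Injective f := by
    intro p p' h
    have h1 : p.1.1.1 + N * p.2.1 = p'.1.1.1 + N * p'.2.1 :=
      congrArg (fun z => z.1.1) h
    have h2 : p.1.1.1 = p'.1.1.1 := by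
      rw [← hmod p.1.1 p.2.1, h1, hmod]
    have h3 : N * p.2.1 = N * p'.2.1 := by omega
    have h4 : p.2.1 = p'.2.1 := Nat.eq_of_mul_eq_mul_left hN h3
    ext
    · exact h2
    · exact h4
  have := Fintype.card_le_of_injective f hf
  simpa using this

lemma vars_upper (hN : 0 < N) (K : Finset (Fin N)) :
    (vars (rblk n N hN) K).card ≤ K.card * (n / N + 1) := by
  let g : (vars (rblk n N hN) K) → (K × Fin (n / N + 1)) := fun v =>
    (⟨rblk n N hN v.1, (Finset.mem_filter.1 v.2).2⟩,
      ⟨v.1.1 / N, Nat.lt_succ_of_le (Nat.div_le_div_right v.1.2.le)⟩)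
  have hg : Function.Injective g := by
    intro v v' h
    have h1 : v.1.1 % N = v'.1.1 % N := congrArg (fun z => z.1.1.1) h
    have h2 : v.1.1 / N = v'.1.1 / N := congrArg (fun z => z.2.1) h
    ext
    rw [← Nat.div_add_mod v.1.1 N, ← Nat.div_add_mod v'.1.1 N, h1, h2]
  have := Fintype.card_le_of_injective g hg
  simpa using this

lemma cell_card (blk : Fin n → Fin N) (K : Finset (Fin N)) (x : Asg n) :
    (cell blk Finset.univ K x).card * 2 ^ (vars blk K).card = 2 ^ n := by
  have h1 : cell blk Finset.univ K x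
      = Fintype.piFinset (fun v => if blk v ∈ K then ({x v} : Finset Bool) else Finset.univ) := by
    ext y
    rw [mem_cell, Fintype.mem_piFinset]
    constructor
    · rintro ⟨_, h⟩ v
      by_cases hv : blk v ∈ K
      · rw [if_pos hv]; rw [Finset.mem_singleton]; exact h v hv
      · rw [if_neg hv]; exact Finset.mem_univ _
    · intro h
      refine ⟨Finset.mem_univ _, ?_⟩
      intro v hv
      have := h v
      rw [if_pos hv, Finset.mem_singleton] at this
      exact this
  rw [h1, Fintype.card_piFinset]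
  have h2 : ∀ v : Fin n, (if blk v ∈ K then ({x v} : Finset Bool) else Finset.univ).card
      = if blk v ∈ K then 1 else 2 := by
    intro v
    split_ifs <;> simp
  rw [Finset.prod_congr rfl (fun v _ => h2 v), Finset.prod_ite]
  simp only [Finset.prod_const_one, Finset.prod_const, one_mul]
  rw [← pow_add]
  congr 1
  have h3 := Finset.card_filter_add_card_filter_not (s := (Finset.univ : Finset (Fin n)))
    (fun v => blk v ∈ K)
  rw [Finset.card_univ, Fintype.card_fin] at h3
  unfold vars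
  omega

/-- Exponent form of the lower bound. -/
theorem exponent_form {t k θ w r : ℕ} (hN : 0 < N) (ht : 1 ≤ t) (htN : t ≤ N)
    (hw : N + n + 4 ≤ 2 ^ w)
    (hroot : r ≤ t * (n / N))
    (hC1 : 5 * w + 5 + N + ((n + 1) / (N.choose t) + 1) * (k.choose t) ≤ r)
    (hC2 : n + (w + 2) + N * (2 * (N + 1 + (w + 2)) + r) < θ + (k + 1) * (n / N))
    (Q : Finset (Asg n → Bool)) (hQ : Q.card ≤ 2 ^ (2 ^ w)) :
    ∃ F : Finset (Clause n),
      (∀ C ∈ F, ∃ e ∈ (Finset.univ : Finset (Fin N)).powersetCard t,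
        ∃ S ⊆ vars (rblk n N hN) e, clauseOf (rblk n N hN) e S = C) ∧
      (∀ x : Asg n, ∃ C ∈ F, FalseAt C x) ∧
      ∀ T : BTree n, T.Uses (Q : Set (Asg n → Bool)) → T.depth ≤ 2 ^ w →
        (∀ x, T.out x ⊆ F ∧ (T.out x).card ≤ 2 ^ w ∧ ∃ C ∈ T.out x, FalseAt C x) →
        (2 : ℝ) ^ n ≤ 2 * ((T.leaves : ℝ) * 2 ^ θ) := by
  set E := (Finset.univ : Finset (Fin N)).powersetCard t with hEdef
  have hEcard : E.card = N.choose t := by
    rw [hEdef, Finset.card_powersetCard, Finset.card_univ, Fintype.card_fin]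
  have hM1 : 1 ≤ N.choose t := Nat.choose_pos htN
  have hM2 : N.choose t ≤ 2 ^ N := Nat.choose_le_two_pow N t
  set a := (n + 1) / (N.choose t) + 1 with ha
  set s := k.choose t with hsdef
  set b := n / N with hb
  have hwr : w < r := by
    have : 0 ≤ a * s := Nat.zero_le _
    omega
  obtain ⟨F, hF1, hF2, hF3⟩ := finite_core (rblk n N hN) E (q := 2 ^ a) (R := 2 ^ r)
    (R₂ := 2 ^ (N + 1 + (w + 2) + r)) (d := 2 ^ (w + 2)) (Θ := 2 ^ θ)
    (G := 2 ^ (2 * (N + 1 + (w + 2)) + r)) (Λ := 2 ^ (N + 1 + (w + 2))) (s := s)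
    (z := 2 ^ (3 * w)) (D := 2 ^ w) (Qn := 2 ^ (2 ^ w)) (g := 2 ^ w)
    (Nat.one_le_two_pow) (Nat.pow_lt_pow_right (by norm_num) hwr)
    (by
      calc 2 = 2 ^ 1 := rfl
        _ ≤ 2 ^ (w + 2) := Nat.pow_le_pow_right (by norm_num) (by omega))
    (by rw [← pow_add]; congr 1; ring)
    (by rw [← pow_add])
    (by rw [← pow_add])
    (by rw [hEcard]; exact hM1)
    (by
      intro e he
      rw [hEdef, Finset.mem_powersetCard] at he
      exact Finset.card_pos.1 (by omega))
    (by
      intro e he x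
      have h1 := cell_card (rblk n N hN) e x
      have h2 := vars_lower (n := n) hN e
      rw [hEdef, Finset.mem_powersetCard] at he
      rw [he.2] at h2
      calc 2 ^ r * (cell (rblk n N hN) Finset.univ e x).card
          ≤ 2 ^ (vars (rblk n N hN) e).card * (cell (rblk n N hN) Finset.univ e x).card := by
            apply Nat.mul_le_mul_right
            exact Nat.pow_le_pow_right (by norm_num) (hroot.trans h2)
        _ = _ := by rw [mul_comm]; exact h1)
    (by
      intro K x hK
      have h1 := cell_card (rblk n N hN) K x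
      have h2 : K.card * b ≤ (vars (rblk n N hN) K).card := vars_lower (n := n) hN K
      have h3 : 2 ^ (θ + (vars (rblk n N hN) K).card)
          ≤ 2 ^ ((w + 2) + N * (2 * (N + 1 + (w + 2)) + r) + n) := by
        calc 2 ^ (θ + (vars (rblk n N hN) K).card)
            = 2 ^ θ * 2 ^ (vars (rblk n N hN) K).card := pow_add _ _ _
          _ ≤ (2 ^ (w + 2) * (2 ^ (2 * (N + 1 + (w + 2)) + r)) ^ N *
                (cell (rblk n N hN) Finset.univ K x).card) * 2 ^ (vars (rblk n N hN) K).card :=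
              Nat.mul_le_mul_right _ hK
          _ = 2 ^ (w + 2) * (2 ^ (2 * (N + 1 + (w + 2)) + r)) ^ N *
                ((cell (rblk n N hN) Finset.univ K x).card
                  * 2 ^ (vars (rblk n N hN) K).card) := by ring
          _ = 2 ^ (w + 2) * (2 ^ (2 * (N + 1 + (w + 2)) + r)) ^ N * 2 ^ n := by rw [h1]
          _ = _ := by
              rw [← pow_mul, ← pow_add, ← pow_add]
              congr 1
              ring
      have h4 : θ + (vars (rblk n N hN) K).card
          ≤ (w + 2) + N * (2 * (N + 1 + (w + 2)) + r) + n :=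
        (Nat.pow_le_pow_iff_right (by norm_num)).1 h3
      have h5 : K.card ≤ k := by
        by_contra hcon
        push Not at hcon
        have h6 : (k + 1) * b ≤ K.card * b := Nat.mul_le_mul_right _ hcon
        omega
      have h6 : E.filter (fun e => e ⊆ K) = K.powersetCard t := by
        ext e
        simp only [hEdef, Finset.mem_filter, Finset.mem_powersetCard, Finset.subset_univ, true_and]
        tauto
      rw [h6, Finset.card_powersetCard]
      exact Nat.choose_le_choose t h5)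
    (by
      rw [hEcard, ← pow_mul]
      apply Nat.pow_lt_pow_right (by norm_num)
      have h1 : n + 1 < N.choose t * ((n + 1) / N.choose t + 1) := Nat.lt_mul_div_succ _ hM1
      rw [ha, mul_comm]
      exact h1)
    (by
      rw [hEcard, ← pow_mul, ← pow_mul]
      calc 2 * 2 ^ ((w + 2) * 2) * N.choose t * (2 ^ (a * s) * 2 ^ (3 * w))
          ≤ 2 * 2 ^ ((w + 2) * 2) * 2 ^ N * (2 ^ (a * s) * 2 ^ (3 * w)) := by
            apply Nat.mul_le_mul_right
            exact Nat.mul_le_mul_left _ hM2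
        _ = 2 ^ (5 * w + 5 + N + a * s) := by
            rw [show 2 * 2 ^ ((w + 2) * 2) = 2 ^ (2 * w + 5) by
              rw [← pow_succ']; congr 1; ring]
            rw [← pow_add, ← pow_add, ← pow_add]
            congr 1
            ring
        _ ≤ 2 ^ r := Nat.pow_le_pow_right (by norm_num) hC1)
    (by
      have h1 : w < 2 ^ w := Nat.lt_two_pow_self
      rw [← pow_add, ← pow_mul, ← pow_add, ← pow_succ']
      apply Nat.pow_le_pow_right (by norm_num)
      have h2 : (2 ^ w + (N + n + 1)) * 2 ^ w + w + 1 ≤ 2 ^ (3 * w) := by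
        have h3 : 2 ^ (3 * w) = 2 ^ w * 2 ^ w * 2 ^ w := by
          rw [← pow_add, ← pow_add]; congr 1; ring
        rw [h3]
        have h4 : 1 ≤ 2 ^ w := Nat.one_le_two_pow
        set W := 2 ^ w
        have h5 : W + (N + n + 1) + 1 + 1 ≤ 2 * W := by omega
        have h6 : 4 ≤ W := by omega
        nlinarith
      omega)
    Q hQ (Nat.one_le_two_pow)
  refine ⟨F, hF1, hF2, ?_⟩
  intro T hU hdep hout
  have h1 := hF3 T hU hdep hout
  push_cast at h1
  have h2 : (1 : ℝ) / 2 ≤ (1 - 1 / (2 : ℝ) ^ (w + 2)) ^ (2 * 2 ^ w) := by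
    have hb1 : (1 : ℝ) + ((2 * 2 ^ w : ℕ) : ℝ) * (-(1 / (2 : ℝ) ^ (w + 2)))
        ≤ (1 + (-(1 / (2 : ℝ) ^ (w + 2)))) ^ (2 * 2 ^ w) := by
      apply one_add_mul_le_pow
      have : 1 / (2 : ℝ) ^ (w + 2) ≤ 1 := by
        rw [div_le_one (by positivity)]
        exact one_le_pow₀ (by norm_num)
      linarith
    have hb2 : ((2 * 2 ^ w : ℕ) : ℝ) * (-(1 / (2 : ℝ) ^ (w + 2))) = -(1 / 2) := by
      push_cast
      rw [pow_add]
      field_simp
    rw [hb2] at hb1
    have hb3 : (1 : ℝ) + (-(1 / (2 : ℝ) ^ (w + 2))) = 1 - 1 / (2 : ℝ) ^ (w + 2) := by ring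
    rw [hb3] at hb1
    linarith
  have h3 : (1 : ℝ) / 2 * 2 ^ n ≤ (1 - 1 / (2 : ℝ) ^ (w + 2)) ^ (2 * 2 ^ w) * 2 ^ n :=
    mul_le_mul_of_nonneg_right h2 (by positivity)
  linarith

end Pool.Agent.H538R2.SB
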