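import Mathlib
import Pool.Agent.H538R2.SBParam

/-!
Choice of the parameters and the final statement.
-/

namespace Pool.Agent.H538R2.SB

open Finset Filter Topology

variable {n N : ℕ}

lemma clauseOf_card (blk : Fin n → Fin N) (e : Finset (Fin N)) (S : Finset (Fin n)) :
    (clauseOf blk e S).card ≤ n := by
  unfold clauseOf
  refine Finset.card_image_le.trans ?_
  refine (Finset.card_filter_le _ _).trans ?_
  simp

lemma cnfSize_bound {t : ℕ} (hN : 0 < N) (F : Finset (Clause n))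
    (hF : ∀ C ∈ F, ∃ e ∈ (Finset.univ : Finset (Fin N)).powersetCard t,
        ∃ S ⊆ vars (rblk n N hN) e, clauseOf (rblk n N hN) e S = C) :
    cnfSize F ≤ (n + 1) ^ 2 * 2 ^ (N + t * (n / N + 1) + 1) := by
  classical
  have h1 : F.card ≤ 2 ^ (N + t * (n / N + 1)) := by
    have hsub : F ⊆ ((Finset.univ : Finset (Fin N)).powersetCard t).biUnion (fun e =>
        (vars (rblk n N hN) e).powerset.image (clauseOf (rblk n N hN) e)) := by
      intro C hC
      obtain ⟨e, he, S, hS, rfl⟩ := hF C hC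
      rw [Finset.mem_biUnion]
      exact ⟨e, he, Finset.mem_image.2 ⟨S, Finset.mem_powerset.2 hS, rfl⟩⟩
    calc F.card ≤ ∑ e ∈ (Finset.univ : Finset (Fin N)).powersetCard t,
          ((vars (rblk n N hN) e).powerset.image (clauseOf (rblk n N hN) e)).card :=
          (Finset.card_le_card hsub).trans Finset.card_biUnion_le
      _ ≤ ∑ e ∈ (Finset.univ : Finset (Fin N)).powersetCard t, 2 ^ (t * (n / N + 1)) := by
          apply Finset.sum_le_sum
          intro e he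
          refine Finset.card_image_le.trans ?_
          rw [Finset.card_powerset]
          apply Nat.pow_le_pow_right (by norm_num)
          have := vars_upper (n := n) hN e
          rw [(Finset.mem_powersetCard.1 he).2] at this
          exact this
      _ = N.choose t * 2 ^ (t * (n / N + 1)) := by
          rw [Finset.sum_const, Finset.card_powersetCard, Finset.card_univ, Fintype.card_fin,
            smul_eq_mul]
      _ ≤ 2 ^ N * 2 ^ (t * (n / N + 1)) := Nat.mul_le_mul_right _ (Nat.choose_le_two_pow N t)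
      _ = _ := (pow_add _ _ _).symm
  have h2 : ∑ C ∈ F, (C.card + 1) ≤ F.card * (n + 1) := by
    calc ∑ C ∈ F, (C.card + 1) ≤ ∑ C ∈ F, (n + 1) := by
          apply Finset.sum_le_sum
          intro C hC
          obtain ⟨e, he, S, hS, rfl⟩ := hF C hC
          have := clauseOf_card (rblk n N hN) e S
          omega
      _ = _ := by rw [Finset.sum_const, smul_eq_mul]
  unfold cnfSize
  have h3 : 1 + ∑ C ∈ F, (C.card + 1) ≤ (n + 1) * 2 ^ (N + t * (n / N + 1) + 1) := by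
    have h4 : F.card * (n + 1) ≤ 2 ^ (N + t * (n / N + 1)) * (n + 1) :=
      Nat.mul_le_mul_right _ h1
    have h5 : 1 ≤ 2 ^ (N + t * (n / N + 1)) * (n + 1) := Nat.mul_pos (by positivity) (by omega)
    rw [pow_succ]
    nlinarith
  calc (n + 1) * (1 + ∑ C ∈ F, (C.card + 1))
      ≤ (n + 1) * ((n + 1) * 2 ^ (N + t * (n / N + 1) + 1)) := Nat.mul_le_mul_left _ h3
    _ = _ := by ring

lemma choose_ratio {k N : ℕ} (hk : k ≤ N) (t : ℕ) :
    k.choose t * N ^ t ≤ N.choose t * k ^ t := by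
  have h : ∀ t, k.descFactorial t * N ^ t ≤ N.descFactorial t * k ^ t := by
    intro t
    induction t with
    | zero => simp
    | succ t ih =>
      rw [Nat.descFactorial_succ, Nat.descFactorial_succ, pow_succ, pow_succ]
      have h1 : (k - t) * N ≤ (N - t) * k := by
        rcases le_or_gt k t with h | h
        · rw [Nat.sub_eq_zero_of_le h]; simp
        · obtain ⟨a, rfl⟩ := Nat.exists_eq_add_of_le h.le
          obtain ⟨c, rfl⟩ := Nat.exists_eq_add_of_le hk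
          have e1 : t + a - t = a := by omega
          have e2 : t + a + c - t = a + c := by omega
          rw [e1, e2]
          nlinarith
      calc (k - t) * k.descFactorial t * (N ^ t * N)
          = (k.descFactorial t * N ^ t) * ((k - t) * N) := by ring
        _ ≤ (N.descFactorial t * k ^ t) * ((N - t) * k) := Nat.mul_le_mul ih h1
        _ = _ := by ring
  have h2 := h t
  rw [Nat.descFactorial_eq_factorial_mul_choose, Nat.descFactorial_eq_factorial_mul_choose] at h2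
  have h3 : t.factorial * (k.choose t * N ^ t) ≤ t.factorial * (N.choose t * k ^ t) := by
    calc _ = t.factorial * k.choose t * N ^ t := by ring
      _ ≤ _ := h2
      _ = _ := by ring
  exact Nat.le_of_mul_le_mul_left h3 (Nat.factorial_pos t)

lemma aux_c1 {w N X s b r h : ℝ} (hh : 1 ≤ h)
    (hb : 16 * h * (8 + N + s) ≤ b) (hr : b < 8 * h * (r + 1)) (hw : 160 * h * w ≤ b)
    (hX : X * (32 * h) ≤ b + 1) : 5 * w + 5 + N + (X + s) ≤ r := by
  have h32 : (0 : ℝ) < 32 * h := by linarith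
  have k1 : (5 * w : ℝ) * (32 * h) ≤ b := by linarith
  have k3 : (4 : ℝ) * b ≤ 32 * h * (r + 1) := by linarith
  by_contra hcon
  push Not at hcon
  have k6 : r * (32 * h) < (5 * w + 5 + N + (X + s)) * (32 * h) :=
    mul_lt_mul_of_pos_right hcon h32
  have k7 : (5 * w + 5 + N + (X + s)) * (32 * h)
      = 5 * w * (32 * h) + (5 + N + s) * (32 * h) + X * (32 * h) := by ring
  have k8 : 2 * (16 * h * (8 + N + s)) = (5 + N + s) * (32 * h) + 3 * (32 * h) := by ring
  have k9 : 32 * h * (r + 1) = r * (32 * h) + 32 * h := by ring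
  linarith

lemma aux_c2 {n w N r θ k b h gt : ℝ} (hh : 1 ≤ h) (hgt : 1 ≤ gt)
    (hN : N = 2 * h * gt) (hk : k = N - gt) (hθ : θ = 2 * gt * b) (hb0 : 0 ≤ b)
    (hr : 8 * h * r ≤ b) (hw : 160 * h * w ≤ b) (hw0 : 0 ≤ w) (hn : n + 1 ≤ N * (b + 1))
    (hbig : N + 2 + N * (2 * N + 6) < b) :
    n + (w + 2) + N * (2 * (N + 1 + (w + 2)) + r) < θ + (k + 1) * b := by
  rw [hθ, hk]
  have k1 : N * w * 80 ≤ gt * b := by
    rw [hN]
    calc 2 * h * gt * w * 80 = gt * (160 * h * w) := by ring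
      _ ≤ gt * b := mul_le_mul_of_nonneg_left hw (by linarith)
  have k2 : N * r * 4 ≤ gt * b := by
    rw [hN]
    calc 2 * h * gt * r * 4 = gt * (8 * h * r) := by ring
      _ ≤ gt * b := mul_le_mul_of_nonneg_left hr (by linarith)
  have k3 : w * 160 ≤ b := by nlinarith
  have k4 : b ≤ gt * b := by nlinarith
  have e1 : N * (2 * (N + 1 + (w + 2)) + r) = N * (2 * N + 6) + 2 * (N * w) + N * r := by ring
  have e2 : 2 * gt * b + (N - gt + 1) * b = gt * b + N * b + b := by ring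
  have e3 : N * (b + 1) = N * b + N := by ring
  rw [e1, e2]
  have k5 : N * w * 80 = 80 * (N * w) := by ring
  have k6 : N * r * 4 = 4 * (N * r) := by ring
  rw [k5] at k1
  rw [k6] at k2
  rw [e3] at hn
  linarith

lemma aux_w {δ n w N b h : ℝ} (hh : 1 ≤ h) (hN : 0 < N) (hδ : δ * n * (320 * h * N) = n)
    (hn : 320 * h * N * 4 ≤ n) (hnb : n + 1 ≤ N * (b + 1)) (hw : b + 1 ≤ 160 * h * (w + 1)) :
    δ * n + 2 ≤ w := by
  have hpos : (0 : ℝ) < 320 * h * N := by positivity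
  by_contra hcon
  push Not at hcon
  have h3 : w * (320 * h * N) < (δ * n + 2) * (320 * h * N) :=
    mul_lt_mul_of_pos_right hcon hpos
  have h4 : N * (b + 1) ≤ N * (160 * h * (w + 1)) := mul_le_mul_of_nonneg_left hw hN.le
  have e1 : (δ * n + 2) * (320 * h * N) = n + 2 * (320 * h * N) := by
    rw [add_mul, hδ]
  have e2 : 2 * (N * (160 * h * (w + 1))) = w * (320 * h * N) + 320 * h * N := by ring
  linarith

/-- **Exponential lower bound for branching trees with arbitrary splitting predicates.** -/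
theorem main_bound (ε : ℝ) (hε0 : 0 < ε) (hε2 : ε < 2) (c : ℕ) :
    ∃ δ : ℝ, 0 < δ ∧ ∃ n₀ : ℕ, ∀ n : ℕ, n₀ ≤ n →
      ∀ L Q : Finset ((Fin n → Bool) → Bool),
        (L.card : ℝ) ≤ (2 : ℝ) ^ (δ * n) → (Q.card : ℝ) ≤ (2 : ℝ) ^ ((2 : ℝ) ^ (δ * n)) →
        ∃ F : Finset (Clause n), (∀ x : Asg n, ∃ C ∈ F, FalseAt C x) ∧
          ∀ T : BTree n, T.Uses (xorSpan L ∪ (Q : Set ((Fin n → Bool) → Bool))) →
            (∀ x, (T.cost (xorSpan L) x : ℝ) ≤ (2 : ℝ) ^ (δ * n)) →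
            (∀ x, T.out x ⊆ F ∧ ((T.out x).card : ℝ) ≤ (2 : ℝ) ^ (δ * n) ∧
              ∃ C ∈ T.out x, FalseAt C x) →
            (2 - ε) ^ n * (cnfSize F : ℝ) ^ c < (T.leaves : ℝ) := by
  classical
  set β : ℝ := 2 - ε with hβ
  have hβ0 : 0 < β := by rw [hβ]; linarith
  have hβ2 : β < 2 := by rw [hβ]; linarith
  have hβh0 : 0 ≤ β / 2 := by linarith
  have hβh1 : β / 2 < 1 := by linarith
  -- the constant h
  obtain ⟨h, hh1, hh8⟩ : ∃ h : ℕ, 1 ≤ h ∧ (β / 2) ^ (2 * h) * 8 < 1 := by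
    have h1 : Tendsto (fun m : ℕ => (β / 2) ^ m) atTop (𝓝 0) :=
      tendsto_pow_atTop_nhds_zero_of_lt_one hβh0 hβh1
    have h2 : ∀ᶠ m : ℕ in atTop, (β / 2) ^ m < 1 / 8 := h1.eventually_lt_const (by norm_num)
    obtain ⟨m₀, hm₀⟩ := h2.exists_forall_of_atTop
    refine ⟨m₀ + 1, by omega, ?_⟩
    have := hm₀ (2 * (m₀ + 1)) (by omega)
    linarith
  have hhR : (1 : ℝ) ≤ h := by exact_mod_cast hh1
  set g₀ : ℕ := c + 1 with hg₀
  -- the constant t
  obtain ⟨t, ht1, htr⟩ : ∃ t : ℕ, 1 ≤ t ∧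
      (2 * h * g₀ * t : ℝ) * (((2 * h - 1 : ℝ) / (2 * h)) ^ t) * (32 * h) ≤ 1 := by
    have hr0 : 0 ≤ (2 * h - 1 : ℝ) / (2 * h) := by
      apply div_nonneg <;> linarith
    have hr1 : (2 * h - 1 : ℝ) / (2 * h) < 1 := by
      rw [div_lt_one (by linarith)]; linarith
    have h1 : Tendsto (fun m : ℕ => (m : ℝ) * ((2 * h - 1 : ℝ) / (2 * h)) ^ m) atTop (𝓝 0) :=
      tendsto_self_mul_const_pow_of_lt_one hr0 hr1
    have hpos : (0 : ℝ) < 1 / (2 * h * g₀ * (32 * h)) := by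
      have : (0 : ℝ) < g₀ := by rw [hg₀]; positivity
      positivity
    have h2 : ∀ᶠ m : ℕ in atTop, (m : ℝ) * ((2 * h - 1 : ℝ) / (2 * h)) ^ m
        < 1 / (2 * h * g₀ * (32 * h)) := h1.eventually_lt_const hpos
    obtain ⟨m₀, hm₀⟩ := h2.exists_forall_of_atTop
    refine ⟨m₀ + 1, by omega, ?_⟩
    have h3 := hm₀ (m₀ + 1) (by omega)
    have h4 : (0 : ℝ) < 2 * h * g₀ * (32 * h) := by
      have : (0 : ℝ) < g₀ := by rw [hg₀]; positivity
      positivity
    rw [lt_div_iff₀ h4] at h3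
    have e : (2 * h * g₀ * ((m₀ + 1 : ℕ) : ℝ)) * (((2 * h - 1 : ℝ) / (2 * h)) ^ (m₀ + 1)) * (32 * h)
      = ((m₀ + 1 : ℕ) : ℝ) * ((2 * h - 1 : ℝ) / (2 * h)) ^ (m₀ + 1) * (2 * h * g₀ * (32 * h)) := by
      ring
    rw [e]
    exact h3.le
  set N : ℕ := 2 * h * g₀ * t with hNdef
  set k : ℕ := (2 * h - 1) * g₀ * t with hkdef
  have hg1 : 1 ≤ g₀ := by omega
  have hgt : 1 ≤ g₀ * t := Nat.mul_pos hg1 ht1
  have hN : 0 < N := by
    rw [hNdef]; positivity
  have htN : t ≤ N := by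
    rw [hNdef]
    exact Nat.le_mul_of_pos_left t (by positivity)
  have hkN : k + g₀ * t = N := by
    rw [hkdef, hNdef]
    obtain ⟨h', rfl⟩ : ∃ h', h = h' + 1 := ⟨h - 1, by omega⟩
    have : 2 * (h' + 1) - 1 = 2 * h' + 1 := by omega
    rw [this]; ring
  set s := k.choose t with hs
  set M := N.choose t with hM
  have hMpos : 0 < M := Nat.choose_pos htN
  -- N * s / M ≤ 1 / (32 h)
  have hratio : (N : ℝ) * s * (32 * h) ≤ M := by
    have h1 : (s : ℝ) * (N : ℝ) ^ t ≤ M * (k : ℝ) ^ t := by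
      exact_mod_cast choose_ratio (by omega : k ≤ N) t
    have hNR : (0 : ℝ) < N := by exact_mod_cast hN
    have h2 : (k : ℝ) / N = (2 * h - 1 : ℝ) / (2 * h) := by
      rw [hkdef, hNdef]
      have h2h : 1 ≤ 2 * h := by omega
      push_cast [Nat.cast_sub h2h]
      have : (0 : ℝ) < g₀ := by exact_mod_cast hg1
      have : (0 : ℝ) < t := by exact_mod_cast ht1
      field_simp
    have h3 : (s : ℝ) ≤ M * ((2 * h - 1 : ℝ) / (2 * h)) ^ t := by
      rw [← h2, div_pow, mul_div_assoc', le_div_iff₀ (by positivity)]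
      exact h1
    have h4 : (N : ℝ) = 2 * h * g₀ * t := by rw [hNdef]; push_cast; ring
    calc (N : ℝ) * s * (32 * h) ≤ N * (M * ((2 * h - 1 : ℝ) / (2 * h)) ^ t) * (32 * h) := by
          apply mul_le_mul_of_nonneg_right _ (by positivity)
          exact mul_le_mul_of_nonneg_left h3 hNR.le
      _ = M * ((2 * h * g₀ * t : ℝ) * (((2 * h - 1 : ℝ) / (2 * h)) ^ t) * (32 * h)) := by
          rw [h4]; ring
      _ ≤ M * 1 := mul_le_mul_of_nonneg_left htr (by positivity)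
      _ = M := mul_one _
  -- the asymptotic conditions
  obtain ⟨w₀, hw₀⟩ : ∃ w₀ : ℕ, ∀ w ≥ w₀, (164 * h * N * (w + 1) : ℕ) ≤ 2 ^ w := by
    have h1 : Tendsto (fun m : ℕ => (m : ℝ) * (1 / 2 : ℝ) ^ m) atTop (𝓝 0) :=
      tendsto_self_mul_const_pow_of_lt_one (by norm_num) (by norm_num)
    have h2 : Tendsto (fun m : ℕ => (1 / 2 : ℝ) ^ m) atTop (𝓝 0) :=
      tendsto_pow_atTop_nhds_zero_of_lt_one (by norm_num) (by norm_num)
    have h3 : Tendsto (fun m : ℕ => (164 * h * N : ℝ) * ((m : ℝ) * (1 / 2 : ℝ) ^ m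
        + (1 / 2 : ℝ) ^ m)) atTop (𝓝 ((164 * h * N : ℝ) * (0 + 0))) :=
      (h1.add h2).const_mul _
    rw [add_zero, mul_zero] at h3
    have h4 := h3.eventually_lt_const (show (0 : ℝ) < 1 by norm_num)
    obtain ⟨m₀, hm₀⟩ := h4.exists_forall_of_atTop
    refine ⟨m₀, fun w hw => ?_⟩
    have h5 := hm₀ w hw
    have h6 : (164 * h * N : ℝ) * ((w : ℝ) * (1 / 2 : ℝ) ^ w + (1 / 2 : ℝ) ^ w)
        = (164 * h * N * (w + 1) : ℝ) / 2 ^ w := by
      rw [one_div, inv_pow]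
      field_simp
    rw [h6, div_lt_one (by positivity)] at h5
    have h7 : ((164 * h * N * (w + 1) : ℕ) : ℝ) ≤ ((2 ^ w : ℕ) : ℝ) := by
      push_cast; linarith
    exact_mod_cast h7
  set ρ : ℝ := ((β / 2) ^ (2 * h) * 8) ^ (g₀ * t) with hρ
  have hρ0 : 0 ≤ ρ := by rw [hρ]; positivity
  have hρ1 : ρ < 1 := by
    rw [hρ]
    apply pow_lt_one₀ (by positivity) hh8 (by omega)
  obtain ⟨b₁, hb₁⟩ : ∃ b₁ : ℕ, ∀ b ≥ b₁,
      ρ ^ b * ((N : ℝ) * (b + 1)) ^ (2 * c) * 2 ^ (c * (N + t + 1) + 1) < 1 := by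
    have h1 : Tendsto (fun m : ℕ => (m : ℝ) ^ (2 * c) * ρ ^ m) atTop (𝓝 0) :=
      tendsto_pow_const_mul_const_pow_of_lt_one (2 * c) hρ0 hρ1
    have h2 : Tendsto (fun m : ℕ => ((m : ℝ) ^ (2 * c) * ρ ^ m)
        * ((2 * N : ℝ) ^ (2 * c) * 2 ^ (c * (N + t + 1) + 1))) atTop
        (𝓝 (0 * ((2 * N : ℝ) ^ (2 * c) * 2 ^ (c * (N + t + 1) + 1)))) := h1.mul_const _
    rw [zero_mul] at h2
    have h3 := h2.eventually_lt_const (show (0 : ℝ) < 1 by norm_num)
    obtain ⟨m₀, hm₀⟩ := h3.exists_forall_of_atTop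
    refine ⟨m₀ + 1, fun b hb => ?_⟩
    have h4 := hm₀ b (by omega)
    have hb1 : (1 : ℝ) ≤ b := by
      have : 1 ≤ b := by omega
      exact_mod_cast this
    have h5 : ((N : ℝ) * (b + 1)) ^ (2 * c) ≤ (b : ℝ) ^ (2 * c) * (2 * N : ℝ) ^ (2 * c) := by
      rw [← mul_pow]
      apply pow_le_pow_left₀ (by positivity)
      have : (0 : ℝ) ≤ N := by positivity
      nlinarith
    calc ρ ^ b * ((N : ℝ) * (b + 1)) ^ (2 * c) * 2 ^ (c * (N + t + 1) + 1)
        ≤ ρ ^ b * ((b : ℝ) ^ (2 * c) * (2 * N : ℝ) ^ (2 * c)) * 2 ^ (c * (N + t + 1) + 1) := by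
          apply mul_le_mul_of_nonneg_right _ (by positivity)
          exact mul_le_mul_of_nonneg_left h5 (by positivity)
      _ = ((b : ℝ) ^ (2 * c) * ρ ^ b)
        * ((2 * N : ℝ) ^ (2 * c) * 2 ^ (c * (N + t + 1) + 1)) := by ring
      _ < 1 := h4
  have hNR : (0 : ℝ) < N := by exact_mod_cast hN
  -- thresholds
  set B₀ : ℕ := 16 * h * (8 + N + s) + (N + 2 + N * (2 * N + 6)) + 160 * h * w₀ + b₁ + 1 with hB₀
  set δ : ℝ := 1 / (320 * h * N) with hδ
  have hδ0 : 0 < δ := by rw [hδ]; positivity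
  refine ⟨δ, hδ0, N * B₀ + 320 * h * N * 4, ?_⟩
  intro n hn L Q hL hQ
  set b := n / N with hb
  have hbB : B₀ ≤ b := by
    rw [hb, Nat.le_div_iff_mul_le hN]
    calc B₀ * N = N * B₀ := mul_comm _ _
      _ ≤ n := by omega
  have hNb : N * b ≤ n := Nat.mul_div_le n N
  have hnb : n < N * (b + 1) := by
    rw [hb]; exact Nat.lt_mul_div_succ n hN
  set r := b / (8 * h) with hr
  set w := b / (160 * h) with hw
  set θ := 2 * g₀ * t * b with hθ
  have h8h : 0 < 8 * h := by positivity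
  have h160h : 0 < 160 * h := by positivity
  have hr_le : 8 * h * r ≤ b := Nat.mul_div_le _ _
  have hr_ge : b < 8 * h * (r + 1) := Nat.lt_mul_div_succ b h8h
  have hw_le : 160 * h * w ≤ b := Nat.mul_div_le _ _
  have hw_ge : b < 160 * h * (w + 1) := Nat.lt_mul_div_succ b h160h
  have hww₀ : w₀ ≤ w := by
    rw [hw, Nat.le_div_iff_mul_le h160h]
    calc w₀ * (160 * h) = 160 * h * w₀ := mul_comm _ _
      _ ≤ b := by omega
  have hbB₁ : 16 * h * (8 + N + s) ≤ b := by omega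
  have hbB₂ : N + 2 + N * (2 * N + 6) < b := by omega
  have hbB₃ : b₁ ≤ b := by omega
  -- condition hw
  have cw : N + n + 4 ≤ 2 ^ w := by
    refine le_trans ?_ (hw₀ w hww₀)
    have h1 : n + 1 ≤ N * (160 * h * (w + 1)) := by
      calc n + 1 ≤ N * (b + 1) := hnb
        _ ≤ N * (160 * h * (w + 1)) := Nat.mul_le_mul_left _ hw_ge
    have h2 : N + 3 ≤ N * (4 * h * (w + 1)) := by
      have h3 : 4 ≤ 4 * h * (w + 1) := by
        calc 4 = 4 * 1 * 1 := by norm_num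
          _ ≤ 4 * h * (w + 1) := Nat.mul_le_mul (Nat.mul_le_mul_left _ hh1) (by omega)
      have h4 : N * 4 ≤ N * (4 * h * (w + 1)) := Nat.mul_le_mul_left _ h3
      omega
    have h5 : 164 * h * N * (w + 1) = N * (160 * h * (w + 1)) + N * (4 * h * (w + 1)) := by ring
    omega
  -- real versions
  have hbR1 : (16 * h * (8 + N + s) : ℝ) ≤ b := by exact_mod_cast hbB₁
  have hbR2 : (N + 2 + N * (2 * N + 6) : ℝ) < b := by exact_mod_cast hbB₂
  have hr_leR : (8 * h * r : ℝ) ≤ b := by exact_mod_cast hr_le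
  have hr_geR : (b : ℝ) < 8 * h * (r + 1) := by exact_mod_cast hr_ge
  have hw_leR : (160 * h * w : ℝ) ≤ b := by exact_mod_cast hw_le
  have hw_geR : (b : ℝ) < 160 * h * (w + 1) := by exact_mod_cast hw_ge
  have hnbR : (n : ℝ) + 1 ≤ N * (b + 1) := by exact_mod_cast hnb
  have hNbR : (N : ℝ) * b ≤ n := by exact_mod_cast hNb
  -- condition hC1
  have cC1 : 5 * w + 5 + N + ((n + 1) / M + 1) * s ≤ r := by
    have h1 : (((n + 1) / M : ℕ) : ℝ) ≤ (n + 1) / M := by
      have := @Nat.cast_div_le ℝ _ _ _ (n + 1) M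
      push_cast at this
      exact this
    have hMR : (0 : ℝ) < M := by exact_mod_cast hMpos
    have hs0 : (0 : ℝ) ≤ s := by positivity
    have h2 : ((((n + 1) / M : ℕ) : ℝ)) * s * (32 * h) ≤ b + 1 := by
      calc ((((n + 1) / M : ℕ) : ℝ)) * s * (32 * h)
          ≤ ((n + 1) / M) * s * (32 * h) := by
            apply mul_le_mul_of_nonneg_right _ (by positivity)
            exact mul_le_mul_of_nonneg_right h1 hs0
        _ ≤ (N * (b + 1) / M) * s * (32 * h) := by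
            apply mul_le_mul_of_nonneg_right _ (by positivity)
            apply mul_le_mul_of_nonneg_right _ hs0
            exact div_le_div_of_nonneg_right hnbR hMR.le
        _ = (b + 1) * (((N : ℝ) * s * (32 * h)) / M) := by ring
        _ ≤ (b + 1) * 1 := by
            apply mul_le_mul_of_nonneg_left _ (by positivity)
            rw [div_le_one hMR]; exact hratio
        _ = b + 1 := mul_one _
    have h3 : (((5 * w + 5 + N + ((n + 1) / M + 1) * s : ℕ) : ℝ)) ≤ (r : ℝ) := by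
      push_cast
      have e1 : ((((n + 1) / M : ℕ) : ℝ) + 1) * s = ((((n + 1) / M : ℕ) : ℝ)) * s + s := by ring
      rw [e1]
      exact aux_c1 hhR hbR1 hr_geR hw_leR h2
    exact_mod_cast h3
  -- condition hC2
  have cC2 : n + (w + 2) + N * (2 * (N + 1 + (w + 2)) + r) < θ + (k + 1) * b := by
    have hk' : (k : ℝ) + g₀ * t = N := by exact_mod_cast hkN
    have hN' : (N : ℝ) = 2 * h * (g₀ * t) := by rw [hNdef]; push_cast; ring
    have hgtR : (1 : ℝ) ≤ g₀ * t := by exact_mod_cast hgt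
    have h3 : ((n + (w + 2) + N * (2 * (N + 1 + (w + 2)) + r) : ℕ) : ℝ)
        < ((θ + (k + 1) * b : ℕ) : ℝ) := by
      push_cast
      exact aux_c2 (gt := (g₀ * t : ℝ)) hhR hgtR hN' (by linarith) (by rw [hθ]; push_cast; ring)
        (by positivity) hr_leR hw_leR (by positivity) hnbR hbR2
    exact_mod_cast h3
  have croot : r ≤ t * b := by
    calc r ≤ b := by rw [hr]; exact Nat.div_le_self _ _
      _ ≤ t * b := Nat.le_mul_of_pos_left b ht1
  -- δ n + 2 ≤ w
  have hδn : δ * n + 2 ≤ w := by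
    have h1 : (320 * h * N * 4 : ℝ) ≤ n := by
      have : 320 * h * N * 4 ≤ n := by omega
      exact_mod_cast this
    have h2 : δ * n * (320 * h * N) = n := by
      rw [hδ]; field_simp
    have h3 : (b : ℝ) + 1 ≤ 160 * h * (w + 1) := by exact_mod_cast (show b + 1 ≤ 160 * h * (w + 1) from hw_ge)
    exact aux_w hhR hNR h2 h1 hnbR h3
  have hpow2 : (4 : ℝ) * (2 : ℝ) ^ (δ * n) ≤ 2 ^ w := by
    have h1 : (2 : ℝ) ^ (δ * n + 2) ≤ (2 : ℝ) ^ (w : ℝ) :=
      Real.rpow_le_rpow_of_exponent_le (by norm_num) hδn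
    rw [Real.rpow_add (by norm_num), Real.rpow_natCast] at h1
    have h2 : (2 : ℝ) ^ (2 : ℝ) = 4 := by norm_num
    rw [h2] at h1
    linarith
  set P : ℝ := (2 : ℝ) ^ (δ * n) with hP
  have hP1 : 1 ≤ P := by
    rw [hP]
    apply Real.one_le_rpow (by norm_num)
    positivity
  -- the query family
  set Q' : Finset (Asg n → Bool) := spanFin L ∪ Q with hQ'
  have hQ'card : Q'.card ≤ 2 ^ (2 ^ w) := by
    have h1 : (Q'.card : ℝ) ≤ (2 : ℝ) ^ ((L.card : ℝ) + 1) + (2 : ℝ) ^ P := by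
      have h2 : Q'.card ≤ 2 ^ (L.card + 1) + Q.card :=
        (Finset.card_union_le _ _).trans (Nat.add_le_add_right (spanFin_card L) _)
      have h3 : (Q'.card : ℝ) ≤ (2 : ℝ) ^ (L.card + 1) + Q.card := by exact_mod_cast h2
      have h4 : (2 : ℝ) ^ ((L.card : ℝ) + 1) = (2 : ℝ) ^ (L.card + 1) := by
        rw [← Real.rpow_natCast]; push_cast; rfl
      rw [h4]
      linarith
    have h5 : (2 : ℝ) ^ ((L.card : ℝ) + 1) ≤ (2 : ℝ) ^ (P + 1) :=
      Real.rpow_le_rpow_of_exponent_le (by norm_num) (by linarith)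
    have h6 : (2 : ℝ) ^ P ≤ (2 : ℝ) ^ (P + 1) :=
      Real.rpow_le_rpow_of_exponent_le (by norm_num) (by linarith)
    have h7 : (2 : ℝ) ^ (P + 1) + (2 : ℝ) ^ (P + 1) = (2 : ℝ) ^ (P + 2) := by
      rw [show P + 2 = (P + 1) + 1 by ring, Real.rpow_add (by norm_num) (P + 1) 1, Real.rpow_one]
      ring
    have h8 : (2 : ℝ) ^ (P + 2) ≤ (2 : ℝ) ^ (((2 ^ w : ℕ) : ℝ)) := by
      apply Real.rpow_le_rpow_of_exponent_le (by norm_num)
      push_cast
      linarith
    rw [Real.rpow_natCast] at h8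
    have h9 : (Q'.card : ℝ) ≤ (2 : ℝ) ^ (2 ^ w) := by linarith
    exact_mod_cast h9
  obtain ⟨F, hF1, hF2, hF3⟩ := exponent_form (n := n) (t := t) (k := k) (θ := θ) (w := w) (r := r)
    hN ht1 htN cw croot cC1 cC2 Q' hQ'card
  refine ⟨F, hF2, ?_⟩
  intro T hU hcost hout
  -- prune
  set T' := prune Finset.univ T with hT'
  have hK : ∀ x, T.cost (xorSpan L) x ≤ ⌊P⌋₊ := fun x => Nat.le_floor (hcost x)
  have hdep : T'.depth ≤ 2 ^ w := by
    have h1 : T'.depth ≤ ⌊P⌋₊ + L.card := prune_depth_univ L T _ hK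
    have h2 : ((⌊P⌋₊ : ℕ) : ℝ) ≤ P := Nat.floor_le (by linarith)
    have h3 : ((T'.depth : ℕ) : ℝ) ≤ ((2 ^ w : ℕ) : ℝ) := by
      have h4 : ((T'.depth : ℕ) : ℝ) ≤ ((⌊P⌋₊ : ℕ) : ℝ) + L.card := by exact_mod_cast h1
      push_cast
      linarith
    exact_mod_cast h3
  have hU' : T'.Uses (Q' : Set (Asg n → Bool)) := by
    apply prune_uses
    have hsub : xorSpan L ∪ (Q : Set (Asg n → Bool)) ⊆ (Q' : Set (Asg n → Bool)) := by
      rw [hQ', Finset.coe_union]
      exact Set.union_subset_union_left _ (xorSpan_subset L)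
    have : ∀ T : BTree n, T.Uses (xorSpan L ∪ (Q : Set (Asg n → Bool))) →
        T.Uses (Q' : Set (Asg n → Bool)) := by
      intro T
      induction T with
      | leaf A => intro _; trivial
      | node q t₀ t₁ i0 i1 => exact fun h => ⟨hsub h.1, i0 h.2.1, i1 h.2.2⟩
    exact this T hU
  have hout' : ∀ x, T'.out x ⊆ F ∧ (T'.out x).card ≤ 2 ^ w ∧ ∃ C ∈ T'.out x, FalseAt C x := by
    intro x
    have h1 : T'.out x = T.out x := prune_out T _ x (Finset.mem_univ _)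
    rw [h1]
    obtain ⟨h2, h3, h4⟩ := hout x
    refine ⟨h2, ?_, h4⟩
    have h5 : ((T.out x).card : ℝ) ≤ ((2 ^ w : ℕ) : ℝ) := by push_cast; linarith
    exact_mod_cast h5
  have hfin := hF3 T' hU' hdep hout'
  have hleaves : (T'.leaves : ℝ) ≤ T.leaves := by exact_mod_cast prune_leaves T _
  have hsize : (cnfSize F : ℝ) ≤ (n + 1) ^ 2 * 2 ^ (N + t * (b + 1) + 1) := by
    exact_mod_cast cnfSize_bound hN F hF1
  -- final computation
  have hb₁' := hb₁ b hbB₃
  have hkey : β ^ n * (cnfSize F : ℝ) ^ c * (2 * 2 ^ θ) < 2 ^ n := by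
    have h1 : β ^ n = (β / 2) ^ n * 2 ^ n := by
      rw [← mul_pow]; congr 1; ring
    have h2 : (cnfSize F : ℝ) ^ c ≤ ((N : ℝ) * (b + 1)) ^ (2 * c)
        * (2 ^ (c * (N + t + 1)) * 2 ^ (c * t * b)) := by
      calc (cnfSize F : ℝ) ^ c ≤ ((n + 1 : ℝ) ^ 2 * 2 ^ (N + t * (b + 1) + 1)) ^ c :=
            pow_le_pow_left₀ (by positivity) hsize c
        _ = (n + 1 : ℝ) ^ (2 * c) * (2 ^ (c * (N + t + 1)) * 2 ^ (c * t * b)) := by
            rw [mul_pow, ← pow_mul, ← pow_mul, ← pow_add]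
            congr 2
            ring
        _ ≤ _ := by
            apply mul_le_mul_of_nonneg_right _ (by positivity)
            exact pow_le_pow_left₀ (by positivity) hnbR _
    have h3 : (β / 2) ^ n ≤ (β / 2) ^ (N * b) := pow_le_pow_of_le_one hβh0 hβh1.le hNb
    have h4 : (2 : ℝ) ^ (c * t * b) * 2 ^ θ ≤ 8 ^ (g₀ * t * b) := by
      rw [← pow_add, show (8 : ℝ) = 2 ^ 3 by norm_num, ← pow_mul]
      apply pow_le_pow_right₀ (by norm_num)
      rw [hθ, hg₀]
      nlinarith [Nat.zero_le (t * b)]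
    have h5 : (β / 2) ^ (N * b) * 8 ^ (g₀ * t * b) = ρ ^ b := by
      rw [hρ, ← pow_mul, mul_pow, ← pow_mul]
      congr 2
      rw [hNdef]; ring
    have hpos2 : (0 : ℝ) < 2 ^ n := by positivity
    calc β ^ n * (cnfSize F : ℝ) ^ c * (2 * 2 ^ θ)
        ≤ ((β / 2) ^ (N * b) * 2 ^ n) * (((N : ℝ) * (b + 1)) ^ (2 * c)
          * (2 ^ (c * (N + t + 1)) * 2 ^ (c * t * b))) * (2 * 2 ^ θ) := by
          apply mul_le_mul_of_nonneg_right _ (by positivity)
          apply mul_le_mul _ h2 (by positivity) (by positivity)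
          rw [h1]
          exact mul_le_mul_of_nonneg_right h3 hpos2.le
      _ = ((β / 2) ^ (N * b) * (2 ^ (c * t * b) * 2 ^ θ)) * ((N : ℝ) * (b + 1)) ^ (2 * c)
          * 2 ^ (c * (N + t + 1) + 1) * 2 ^ n := by
          rw [pow_succ (2 : ℝ) (c * (N + t + 1))]; ring
      _ ≤ ((β / 2) ^ (N * b) * 8 ^ (g₀ * t * b)) * ((N : ℝ) * (b + 1)) ^ (2 * c)
          * 2 ^ (c * (N + t + 1) + 1) * 2 ^ n := by
          apply mul_le_mul_of_nonneg_right _ hpos2.le
          apply mul_le_mul_of_nonneg_right _ (by positivity)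
          apply mul_le_mul_of_nonneg_right _ (by positivity)
          exact mul_le_mul_of_nonneg_left h4 (by positivity)
      _ = (ρ ^ b * ((N : ℝ) * (b + 1)) ^ (2 * c) * 2 ^ (c * (N + t + 1) + 1)) * 2 ^ n := by
          rw [h5]
      _ < 1 * 2 ^ n := mul_lt_mul_of_pos_right hb₁' hpos2
      _ = 2 ^ n := one_mul _
  have h2θ : (0 : ℝ) < 2 * 2 ^ θ := by positivity
  have hlast : β ^ n * (cnfSize F : ℝ) ^ c * (2 * 2 ^ θ) < (T.leaves : ℝ) * (2 * 2 ^ θ) := by
    calc β ^ n * (cnfSize F : ℝ) ^ c * (2 * 2 ^ θ) < 2 ^ n := hkey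
      _ ≤ 2 * ((T'.leaves : ℝ) * 2 ^ θ) := hfin
      _ = (T'.leaves : ℝ) * (2 * 2 ^ θ) := by ring
      _ ≤ (T.leaves : ℝ) * (2 * 2 ^ θ) := mul_le_mul_of_nonneg_right hleaves h2θ.le
  exact lt_of_mul_lt_mul_right hlast h2θ.le

end Pool.Agent.H538R2.SB
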