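import Mathlib
import Pool.Agent.H538R2.RDPlay
import Pool.Agent.H538R2.SBFinal

/-!
The random choice of the forbidden patterns, and the finite form of the bound for resolution
refutations of small depth.
-/

namespace Pool.Agent.H538R2.SB

open Finset

section count

variable {ι : Type*} [Fintype ι] [DecidableEq ι] {q : ℕ} [NeZero q]

lemma count_ne_single (a : ι) (P : (ι → Fin q) → Prop) [DecidablePred P]
    (hP : ∀ (ω : ι → Fin q) (k : Fin q), P ω ↔ P (Function.update ω a k)) :
    ((Finset.univ.filter (fun ω => P ω ∧ ω a ≠ 0)).card : ℝ)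
      = (1 - 1 / (q : ℝ)) * ((Finset.univ.filter P).card : ℝ) := by
  have h1 := count_single a P hP
  have h2 : (Finset.univ.filter (fun ω => P ω ∧ ω a = 0)).card
      + (Finset.univ.filter (fun ω => P ω ∧ ω a ≠ 0)).card = (Finset.univ.filter P).card := by
    rw [← Finset.card_filter_add_card_filter_not (s := Finset.univ.filter P) (fun ω => ω a = 0)]
    congr 1
    · congr 1
      ext ω
      simp [Finset.mem_filter]
    · congr 1
      ext ω
      simp [Finset.mem_filter]
  have hq : (0 : ℝ) < q := by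
    have : 0 < q := Nat.pos_of_ne_zero (NeZero.ne q)
    exact_mod_cast this
  have h1R : ((Finset.univ.filter P).card : ℝ)
      = q * ((Finset.univ.filter (fun ω => P ω ∧ ω a = 0)).card : ℝ) := by exact_mod_cast h1
  have h2R : ((Finset.univ.filter (fun ω => P ω ∧ ω a = 0)).card : ℝ)
      + ((Finset.univ.filter (fun ω => P ω ∧ ω a ≠ 0)).card : ℝ)
      = ((Finset.univ.filter P).card : ℝ) := by exact_mod_cast h2
  have h3 : 1 / (q : ℝ) * ((Finset.univ.filter P).card : ℝ)
      = ((Finset.univ.filter (fun ω => P ω ∧ ω a = 0)).card : ℝ) := by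
    rw [h1R]; field_simp
  rw [sub_mul, one_mul, h3]
  linarith

lemma count_ne (C : Finset ι) :
    ∀ (P : (ι → Fin q) → Prop) [DecidablePred P],
    (∀ ω ω', (∀ i, i ∉ C → ω i = ω' i) → (P ω ↔ P ω')) →
    ((Finset.univ.filter (fun ω => P ω ∧ ∀ c ∈ C, ω c ≠ 0)).card : ℝ)
      = (1 - 1 / (q : ℝ)) ^ C.card * ((Finset.univ.filter P).card : ℝ) := by
  induction C using Finset.induction_on with
  | empty => intro P _ hP; simp
  | insert a C ha ih =>
    intro P _ hP
    rw [Finset.card_insert_of_notMem ha, pow_succ']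
    rw [mul_assoc, ← ih P (fun ω ω' h => hP ω ω'
      (fun i hi => h i (fun hi' => hi (Finset.mem_insert_of_mem hi'))))]
    rw [← count_ne_single a (fun ω => P ω ∧ ∀ c ∈ C, ω c ≠ 0)]
    · congr 2
      ext ω
      simp only [Finset.mem_filter, Finset.mem_univ, true_and, Finset.mem_insert, forall_eq_or_imp]
      tauto
    · intro ω k
      have h1 : P ω ↔ P (Function.update ω a k) := by
        apply hP
        intro i hi
        rw [Function.update_of_ne]
        rintro rfl
        exact hi (Finset.mem_insert_self _ _)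
      have h2 : (∀ c ∈ C, ω c ≠ 0) ↔ (∀ c ∈ C, Function.update ω a k c ≠ 0) := by
        constructor
        · intro h c hc
          rw [Function.update_of_ne (by rintro rfl; exact ha hc)]
          exact h c hc
        · intro h c hc
          have := h c hc
          rwa [Function.update_of_ne (by rintro rfl; exact ha hc)] at this
      rw [← h1, ← h2]

lemma count_ne_disjoint {α : Type*} [DecidableEq α] (C : α → Finset ι) (s : ℕ) (Y : Finset α)
    (hs : ∀ y ∈ Y, (C y).card ≤ s)
    (hdisj : ∀ y ∈ Y, ∀ y' ∈ Y, y ≠ y' → Disjoint (C y) (C y')) :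
    ((Finset.univ.filter (fun ω : ι → Fin q => ∀ y ∈ Y, ¬ ∀ c ∈ C y, ω c ≠ 0)).card : ℝ)
      ≤ (1 - (1 - 1 / (q : ℝ)) ^ s) ^ Y.card * (q : ℝ) ^ Fintype.card ι := by
  have hq : (1 : ℝ) ≤ q := by
    have : 1 ≤ q := Nat.one_le_iff_ne_zero.2 (NeZero.ne q)
    exact_mod_cast this
  have hr0 : (0 : ℝ) ≤ 1 - 1 / (q : ℝ) := by
    have : 1 / (q : ℝ) ≤ 1 := by
      rw [div_le_one (by positivity)]; exact hq
    linarith
  have hr1 : 1 - 1 / (q : ℝ) ≤ 1 := by
    have : (0 : ℝ) ≤ 1 / (q : ℝ) := by positivity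
    linarith
  have hρ0 : (0 : ℝ) ≤ 1 - (1 - 1 / (q : ℝ)) ^ s := by
    have : (1 - 1 / (q : ℝ)) ^ s ≤ 1 := pow_le_one₀ hr0 hr1
    linarith
  induction Y using Finset.induction_on with
  | empty =>
    simp
  | insert y Y hy ih =>
    have ih' := ih (fun z hz => hs z (Finset.mem_insert_of_mem hz))
      (fun z hz z' hz' => hdisj z (Finset.mem_insert_of_mem hz) z' (Finset.mem_insert_of_mem hz'))
    rw [Finset.card_insert_of_notMem hy, pow_succ]
    set P : (ι → Fin q) → Prop := fun ω => ∀ y ∈ Y, ¬ ∀ c ∈ C y, ω c ≠ 0 with hP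
    have h1 := count_ne (q := q) (C y) P (by
      intro ω ω' h
      have : ∀ z ∈ Y, ((∀ c ∈ C z, ω c ≠ 0) ↔ (∀ c ∈ C z, ω' c ≠ 0)) := by
        intro z hz
        have hne : y ≠ z := by rintro rfl; exact hy hz
        have hd := hdisj y (Finset.mem_insert_self _ _) z (Finset.mem_insert_of_mem hz) hne
        apply forall₂_congr
        intro c hc
        rw [h c (fun hc' => Finset.disjoint_left.1 hd hc' hc)]
      simp only [hP]
      apply forall₂_congr
      intro z hz
      rw [this z hz])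
    have h2 : (Finset.univ.filter (fun ω : ι → Fin q =>
        ∀ z ∈ insert y Y, ¬ ∀ c ∈ C z, ω c ≠ 0)).card
        + (Finset.univ.filter (fun ω => P ω ∧ ∀ c ∈ C y, ω c ≠ 0)).card
        = (Finset.univ.filter P).card := by
      rw [← Finset.card_filter_add_card_filter_not (s := Finset.univ.filter P)
        (fun ω => ¬ ∀ c ∈ C y, ω c ≠ 0)]
      congr 1
      · congr 1
        ext ω
        simp only [hP, Finset.mem_filter, Finset.mem_univ, true_and, Finset.mem_insert,
          forall_eq_or_imp]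
        tauto
      · congr 1
        ext ω
        simp only [Finset.mem_filter, Finset.mem_univ, true_and]
        tauto
    have h2R : ((Finset.univ.filter (fun ω : ι → Fin q =>
        ∀ z ∈ insert y Y, ¬ ∀ c ∈ C z, ω c ≠ 0)).card : ℝ)
        + ((Finset.univ.filter (fun ω => P ω ∧ ∀ c ∈ C y, ω c ≠ 0)).card : ℝ)
        = ((Finset.univ.filter P).card : ℝ) := by exact_mod_cast h2
    have hcs : (1 - 1 / (q : ℝ)) ^ s ≤ (1 - 1 / (q : ℝ)) ^ (C y).card :=
      pow_le_pow_of_le_one hr0 hr1 (hs y (Finset.mem_insert_self _ _))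
    have h3 : (1 - 1 / (q : ℝ)) ^ s * ((Finset.univ.filter P).card : ℝ)
        ≤ ((Finset.univ.filter (fun ω => P ω ∧ ∀ c ∈ C y, ω c ≠ 0)).card : ℝ) := by
      rw [h1]
      exact mul_le_mul_of_nonneg_right hcs (by positivity)
    calc ((Finset.univ.filter (fun ω : ι → Fin q =>
        ∀ z ∈ insert y Y, ¬ ∀ c ∈ C z, ω c ≠ 0)).card : ℝ)
        ≤ (1 - (1 - 1 / (q : ℝ)) ^ s) * ((Finset.univ.filter P).card : ℝ) := by
          rw [sub_mul, one_mul]
          linarith
      _ ≤ (1 - (1 - 1 / (q : ℝ)) ^ s) *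
            ((1 - (1 - 1 / (q : ℝ)) ^ s) ^ Y.card * (q : ℝ) ^ Fintype.card ι) :=
          mul_le_mul_of_nonneg_left ih' hρ0
      _ = _ := by ring

end count

variable {n N : ℕ}

/-- number of assignments which differ from `x` on `U` only -/
lemma card_free (x : Asg n) (U : Finset (Fin n)) :
    (Finset.univ.filter (fun y : Asg n => ∀ v, v ∉ U → y v = x v)).card = 2 ^ U.card := by
  classical
  have h1 : Finset.univ.filter (fun y : Asg n => ∀ v, v ∉ U → y v = x v)
      = Fintype.piFinset (fun v => if v ∈ U then (Finset.univ : Finset Bool) else {x v}) := by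
    ext y
    rw [Fintype.mem_piFinset, Finset.mem_filter]
    constructor
    · rintro ⟨_, h⟩ v
      by_cases hv : v ∈ U
      · rw [if_pos hv]; exact Finset.mem_univ _
      · rw [if_neg hv]; rw [Finset.mem_singleton]; exact h v hv
    · intro h
      refine ⟨Finset.mem_univ _, ?_⟩
      intro v hv
      have := h v
      rw [if_neg hv, Finset.mem_singleton] at this
      exact this
  rw [h1, Fintype.card_piFinset]
  have h2 : ∀ v : Fin n, (if v ∈ U then (Finset.univ : Finset Bool) else {x v}).card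
      = if v ∈ U then 2 else 1 := by
    intro v
    split_ifs <;> simp
  rw [Finset.prod_congr rfl (fun v _ => h2 v), Finset.prod_ite]
  simp

/-- the random property -/
def Extend {q : ℕ} [NeZero q] (blk : Fin n → Fin N) (E : Finset (Finset (Fin N)))
    (ω : Finset (Fin N) × Asg n → Fin q) (x : Asg n) (J : Finset (Fin N)) (β : Fin N)
    (U : Finset (Fin n)) : Prop :=
  ∃ x' : Asg n, (∀ v, v ∉ U → x' v = x v) ∧
    ∀ e ∈ E, e ⊆ insert β J → β ∈ e → ω (e, mask blk e x') ≠ 0

open Classical in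
lemma extend_fail {q : ℕ} [NeZero q] (blk : Fin n → Fin N) (E : Finset (Finset (Fin N)))
    {s κ : ℕ} (hsq : 2 * s ≤ q) {x : Asg n} {J : Finset (Fin N)} {β : Fin N}
    {U : Finset (Fin n)} (hU : ∀ v ∈ U, blk v = β) (hUc : U.card = κ)
    (hs : (E.filter (fun e => e ⊆ insert β J ∧ β ∈ e)).card ≤ s) :
    ((Finset.univ.filter (fun ω : Finset (Fin N) × Asg n → Fin q =>
      ¬ Extend blk E ω x J β U)).card : ℝ)
      ≤ (1 / 2) ^ (2 ^ κ) * (q : ℝ) ^ Fintype.card (Finset (Fin N) × Asg n) := by
  set Y : Finset (Asg n) := Finset.univ.filter (fun y : Asg n => ∀ v, v ∉ U → y v = x v) with hY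
  have hYc : Y.card = 2 ^ κ := by rw [hY, card_free, hUc]
  set C : Asg n → Finset (Finset (Fin N) × Asg n) := fun y =>
    (E.filter (fun e => e ⊆ insert β J ∧ β ∈ e)).image (fun e => (e, mask blk e y)) with hC
  have h1 := count_ne_disjoint (q := q) C s Y
    (fun y _ => Finset.card_image_le.trans hs)
    (by
      intro y hy y' hy' hne
      rw [Finset.disjoint_left]
      rintro c hc hc'
      obtain ⟨e, he, rfl⟩ := Finset.mem_image.1 hc
      obtain ⟨e', he', heq⟩ := Finset.mem_image.1 hc'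
      obtain ⟨_, _, h3⟩ := Finset.mem_filter.1 he
      have e1 : e' = e := congrArg Prod.fst heq
      have e2 : mask blk e' y' = mask blk e y := congrArg Prod.snd heq
      rw [e1] at e2
      apply hne
      have hag := (mask_eq_iff blk).1 e2
      funext v
      by_cases hv : v ∈ U
      · exact (hag v (by rw [hU v hv]; exact h3)).symm
      · rw [(Finset.mem_filter.1 hy).2 v hv, (Finset.mem_filter.1 hy').2 v hv])
  rw [hYc] at h1
  refine le_trans (Nat.cast_le.2 (Finset.card_le_card ?_)) (h1.trans ?_)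
  · intro ω hω
    simp only [Finset.mem_filter, Finset.mem_univ, true_and] at hω ⊢
    intro y hy hall
    apply hω
    refine ⟨y, (Finset.mem_filter.1 hy).2, ?_⟩
    intro e he heJ hβ
    exact hall _ (Finset.mem_image.2 ⟨e, Finset.mem_filter.2 ⟨he, heJ, hβ⟩, rfl⟩)
  apply mul_le_mul_of_nonneg_right _ (by positivity)
  have hq1 : 1 ≤ q := Nat.one_le_iff_ne_zero.2 (NeZero.ne q)
  have hqR : (1 : ℝ) ≤ q := by exact_mod_cast hq1
  have hsqR : (2 : ℝ) * s ≤ q := by exact_mod_cast hsq
  have hb1 : (1 : ℝ) + (s : ℝ) * (-(1 / (q : ℝ))) ≤ (1 + (-(1 / (q : ℝ)))) ^ s := by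
    apply one_add_mul_le_pow
    have : 1 / (q : ℝ) ≤ 1 := by
      rw [div_le_one (by positivity)]; exact hqR
    linarith
  have hb2 : (s : ℝ) * (1 / (q : ℝ)) ≤ 1 / 2 := by
    rw [mul_one_div, div_le_iff₀ (by positivity)]
    linarith
  have hb3 : (1 : ℝ) / 2 ≤ (1 - 1 / (q : ℝ)) ^ s := by
    have e : (1 : ℝ) + (-(1 / (q : ℝ))) = 1 - 1 / (q : ℝ) := by ring
    rw [e] at hb1
    linarith
  have hb4 : (1 - 1 / (q : ℝ)) ^ s ≤ 1 := by
    apply pow_le_one₀
    · have : 1 / (q : ℝ) ≤ 1 := by
        rw [div_le_one (by positivity)]; exact hqR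
      linarith
    · have : (0 : ℝ) ≤ 1 / (q : ℝ) := by positivity
      linarith
  apply pow_le_pow_left₀ <;> linarith

open Classical in
theorem exists_omega_rd (blk : Fin n → Fin N) (E : Finset (Finset (Fin N)))
    {q : ℕ} [NeZero q] {s κ K₀ : ℕ} (hsq : 2 * s ≤ q)
    (hs : ∀ (J : Finset (Fin N)) (β : Fin N), J.card ≤ K₀ →
      (E.filter (fun e => e ⊆ insert β J ∧ β ∈ e)).card ≤ s)
    (H1 : q * (n + 2) ≤ E.card)
    (H2 : 2 * n + 2 * N + 1 ≤ 2 ^ κ) :
    ∃ ω : Finset (Fin N) × Asg n → Fin q,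
      (∀ x : Asg n, ∃ e ∈ E, ω (e, mask blk e x) = 0) ∧
      (∀ (x : Asg n) (J : Finset (Fin N)) (β : Fin N) (U : Finset (Fin n)),
        J.card ≤ K₀ → β ∉ J → (∀ v ∈ U, blk v = β) → U.card = κ → Extend blk E ω x J β U) := by
  set Ω := (Finset (Fin N) × Asg n → Fin q)
  set M : ℝ := (q : ℝ) ^ Fintype.card (Finset (Fin N) × Asg n) with hM
  have hq1 : 1 ≤ q := Nat.one_le_iff_ne_zero.2 (NeZero.ne q)
  have hqR : (1 : ℝ) ≤ q := by exact_mod_cast hq1
  have hMpos : 0 < M := by rw [hM]; positivity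
  have hcardΩ : (Fintype.card Ω : ℝ) = M := by
    rw [hM]
    simp only [Ω, Fintype.card_pi, Fintype.card_fin, Finset.prod_const, Finset.card_univ]
    push_cast
    rfl
  have hr0 : (0 : ℝ) ≤ 1 - 1 / (q : ℝ) := by
    have : 1 / (q : ℝ) ≤ 1 := by
      rw [div_le_one (by positivity)]; exact hqR
    linarith
  -- first bad set
  set bad1 : Finset Ω := Finset.univ.filter (fun ω => ∃ x : Asg n, ∀ e ∈ E, ω (e, mask blk e x) ≠ 0)
    with hbad1
  have hb1 : 2 * (bad1.card : ℝ) < M := by
    have hx : ∀ x : Asg n,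
        ((Finset.univ.filter (fun ω : Ω => ∀ e ∈ E, ω (e, mask blk e x) ≠ 0)).card : ℝ)
          ≤ (1 / 2) ^ (n + 2) * M := by
      intro x
      have h1 := count_ne (q := q) (E.image (fun e => (e, mask blk e x)))
        (fun _ : Ω => True) (fun _ _ _ => Iff.rfl)
      have h2 : (E.image (fun e => (e, mask blk e x))).card = E.card := by
        apply Finset.card_image_of_injective
        intro a b hab
        exact congrArg Prod.fst hab
      have h3 : (Finset.univ.filter (fun ω : Ω => True ∧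
          ∀ c ∈ E.image (fun e => (e, mask blk e x)), ω c ≠ 0))
          = (Finset.univ.filter (fun ω : Ω => ∀ e ∈ E, ω (e, mask blk e x) ≠ 0)) := by
        ext ω
        simp
      rw [h2, h3] at h1
      have h4 : ((Finset.univ.filter (fun _ : Ω => True)).card : ℝ) = M := by
        rw [Finset.filter_true_of_mem (fun _ _ => trivial), Finset.card_univ, hcardΩ]
      rw [h4] at h1
      rw [h1]
      apply mul_le_mul_of_nonneg_right _ hMpos.le
      have h5 : 1 - 1 / (q : ℝ) ≤ Real.exp (-(1 / (q : ℝ))) := by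
        have := Real.add_one_le_exp (-(1 / (q : ℝ)))
        linarith
      have hH1 : ((q : ℝ) * (n + 2)) ≤ E.card := by exact_mod_cast H1
      calc (1 - 1 / (q : ℝ)) ^ E.card ≤ (Real.exp (-(1 / (q : ℝ)))) ^ E.card :=
            pow_le_pow_left₀ hr0 h5 _
        _ = Real.exp (E.card * (-(1 / (q : ℝ)))) := by rw [← Real.exp_nat_mul]
        _ ≤ Real.exp (-((n + 2 : ℕ) : ℝ)) := by
            apply Real.exp_le_exp.2
            have h8 : ((n + 2 : ℕ) : ℝ) ≤ E.card * (1 / (q : ℝ)) := by
              rw [mul_one_div, le_div_iff₀ (by positivity)]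
              push_cast
              linarith
            linarith
        _ ≤ (1 / 2) ^ (n + 2) := by
            have h9 : Real.exp (-((n + 2 : ℕ) : ℝ)) = (Real.exp (-1)) ^ (n + 2) := by
              rw [← Real.exp_nat_mul]; congr 1; ring
            rw [h9]
            apply pow_le_pow_left₀ (Real.exp_pos _).le
            rw [Real.exp_neg, one_div]
            apply inv_anti₀ (by norm_num)
            have := Real.add_one_le_exp (1 : ℝ)
            linarith
    have hsub : bad1 ⊆ (Finset.univ : Finset (Asg n)).biUnion (fun x =>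
        Finset.univ.filter (fun ω : Ω => ∀ e ∈ E, ω (e, mask blk e x) ≠ 0)) := by
      intro ω hω
      obtain ⟨x, hx⟩ := (Finset.mem_filter.1 hω).2
      rw [Finset.mem_biUnion]
      exact ⟨x, Finset.mem_univ _, Finset.mem_filter.2 ⟨Finset.mem_univ _, hx⟩⟩
    have hle : (bad1.card : ℝ) ≤ ∑ x : Asg n,
        ((Finset.univ.filter (fun ω : Ω => ∀ e ∈ E, ω (e, mask blk e x) ≠ 0)).card : ℝ) := by
      exact_mod_cast (Finset.card_le_card hsub).trans Finset.card_biUnion_le
    have hle2 : (bad1.card : ℝ) ≤ 2 ^ n * ((1 / 2) ^ (n + 2) * M) := by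
      refine hle.trans ((Finset.sum_le_sum (fun x _ => hx x)).trans ?_)
      rw [Finset.sum_const, Finset.card_univ]
      simp
    have e1 : (2 : ℝ) ^ n * ((1 / 2) ^ (n + 2) * M) = M / 4 := by
      rw [pow_add, one_div, inv_pow]
      field_simp
      norm_num
    rw [e1] at hle2
    linarith
  -- second bad set
  set B : (Asg n × Finset (Fin N)) × (Fin N × Finset (Fin n)) → Finset Ω := fun t =>
    Finset.univ.filter (fun ω => (t.1.2.card ≤ K₀ ∧ t.2.1 ∉ t.1.2 ∧ (∀ v ∈ t.2.2, blk v = t.2.1) ∧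
      t.2.2.card = κ) ∧ ¬ Extend blk E ω t.1.1 t.1.2 t.2.1 t.2.2) with hB
  have hBcard : ∀ t, ((B t).card : ℝ) ≤ (1 / 2) ^ (2 ^ κ) * M := by
    intro t
    by_cases hpre : (t.1.2.card ≤ K₀ ∧ t.2.1 ∉ t.1.2 ∧ (∀ v ∈ t.2.2, blk v = t.2.1) ∧
      t.2.2.card = κ)
    · obtain ⟨p1, p2, p3, p4⟩ := hpre
      refine le_trans (Nat.cast_le.2 (Finset.card_le_card ?_))
        (extend_fail (q := q) blk E (x := t.1.1) (J := t.1.2) (β := t.2.1) (U := t.2.2) hsq p3 p4
          (hs _ _ p1))
      intro ω hω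
      simp only [hB, Finset.mem_filter, Finset.mem_univ, true_and] at hω ⊢
      exact hω.2
    · have : B t = ∅ := by
        rw [hB]
        apply Finset.filter_false_of_mem
        intro ω _ h
        exact hpre h.1
      rw [this]
      simp only [Finset.card_empty, Nat.cast_zero]
      positivity
  set bad2 : Finset Ω := Finset.univ.biUnion B with hbad2
  have hb2 : 2 * (bad2.card : ℝ) ≤ M := by
    have h1 : (bad2.card : ℝ)
        ≤ ((2 : ℝ) ^ n * 2 ^ N * (N * 2 ^ n)) * ((1 / 2) ^ (2 ^ κ) * M) := by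
      calc (bad2.card : ℝ) ≤ ∑ t : (Asg n × Finset (Fin N)) × (Fin N × Finset (Fin n)),
            ((B t).card : ℝ) := by exact_mod_cast Finset.card_biUnion_le
        _ ≤ ∑ t : (Asg n × Finset (Fin N)) × (Fin N × Finset (Fin n)),
            ((1 / 2) ^ (2 ^ κ) * M) := Finset.sum_le_sum (fun t _ => hBcard t)
        _ = _ := by
            rw [Finset.sum_const, Finset.card_univ, nsmul_eq_mul]
            congr 1
            simp only [Fintype.card_prod, Fintype.card_pi, Fintype.card_bool, Finset.prod_const,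
              Fintype.card_finset, Fintype.card_fin, Finset.card_univ]
            push_cast
            ring
    have h2 : (2 : ℝ) * (((2 : ℝ) ^ n * 2 ^ N * (N * 2 ^ n)) * (1 / 2) ^ (2 ^ κ)) ≤ 1 := by
      have h3 : (1 / 2 : ℝ) ^ (2 ^ κ) ≤ (1 / 2) ^ (2 * n + 2 * N + 1) :=
        pow_le_pow_of_le_one (by norm_num) (by norm_num) H2
      have h4 : (N : ℝ) ≤ 2 ^ N := by
        have : N ≤ 2 ^ N := Nat.lt_two_pow_self.le
        exact_mod_cast this
      calc (2 : ℝ) * (((2 : ℝ) ^ n * 2 ^ N * (N * 2 ^ n)) * (1 / 2) ^ (2 ^ κ))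
          ≤ 2 * (((2 : ℝ) ^ n * 2 ^ N * (2 ^ N * 2 ^ n)) * (1 / 2) ^ (2 * n + 2 * N + 1)) := by
            apply mul_le_mul_of_nonneg_left _ (by norm_num)
            apply mul_le_mul _ h3 (by positivity) (by positivity)
            apply mul_le_mul_of_nonneg_left _ (by positivity)
            exact mul_le_mul_of_nonneg_right h4 (by positivity)
        _ = 1 := by
            rw [one_div, inv_pow]
            have e : (2 : ℝ) * (((2 : ℝ) ^ n * 2 ^ N * (2 ^ N * 2 ^ n))) = 2 ^ (2 * n + 2 * N + 1) := by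
              rw [← pow_add, ← pow_add, ← pow_add, ← pow_succ']
              congr 1; ring
            rw [← mul_assoc, e]
            exact mul_inv_cancel₀ (by positivity)
    calc 2 * (bad2.card : ℝ)
        ≤ 2 * (((2 : ℝ) ^ n * 2 ^ N * (N * 2 ^ n)) * ((1 / 2) ^ (2 ^ κ) * M)) := by linarith
      _ = (2 * (((2 : ℝ) ^ n * 2 ^ N * (N * 2 ^ n)) * (1 / 2) ^ (2 ^ κ))) * M := by ring
      _ ≤ 1 * M := mul_le_mul_of_nonneg_right h2 hMpos.le
      _ = M := one_mul _
  -- conclusion
  have hex : ∃ ω : Ω, ω ∉ bad1 ∪ bad2 := by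
    by_contra hcon
    push Not at hcon
    have h1 : (Finset.univ : Finset Ω) ⊆ bad1 ∪ bad2 := fun ω _ => hcon ω
    have h2 : Fintype.card Ω ≤ bad1.card + bad2.card := by
      rw [← Finset.card_univ]
      exact (Finset.card_le_card h1).trans (Finset.card_union_le _ _)
    have h3 : M ≤ bad1.card + bad2.card := by
      rw [← hcardΩ]; exact_mod_cast h2
    linarith
  obtain ⟨ω, hω⟩ := hex
  rw [Finset.mem_union, not_or] at hω
  refine ⟨ω, ?_, ?_⟩
  · intro x
    by_contra hcon
    push Not at hcon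
    exact hω.1 (Finset.mem_filter.2 ⟨Finset.mem_univ _, x, hcon⟩)
  · intro x J β U h1 h2 h3 h4
    by_contra hcon
    apply hω.2
    rw [hbad2, Finset.mem_biUnion]
    refine ⟨((x, J), (β, U)), Finset.mem_univ _, ?_⟩
    simp only [hB, Finset.mem_filter, Finset.mem_univ, true_and]
    exact ⟨⟨h1, h2, h3, h4⟩, hcon⟩

/-- the CNF obtained from `ω`; a pattern is forbidden if its value is `0` -/
def cnfRd {q : ℕ} [NeZero q] (blk : Fin n → Fin N) (E : Finset (Finset (Fin N)))
    (ω : Finset (Fin N) × Asg n → Fin q) : Finset (Clause n) :=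
  (E ×ˢ (Finset.univ : Finset (Asg n))).filter (fun p => ω (p.1, mask blk p.1 p.2) = 0) |>.image
    (fun p => clauseOf blk p.1 (Finset.univ.filter (fun v => blk v ∈ p.1 ∧ p.2 v = true)))

lemma mem_cnfRd {q : ℕ} [NeZero q] {blk : Fin n → Fin N} {E : Finset (Finset (Fin N))}
    {ω : Finset (Fin N) × Asg n → Fin q} {C : Clause n} :
    C ∈ cnfRd blk E ω ↔ ∃ e ∈ E, ∃ p : Asg n, ω (e, mask blk e p) = 0 ∧
      clauseOf blk e (Finset.univ.filter (fun v => blk v ∈ e ∧ p v = true)) = C := by
  unfold cnfRd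
  simp only [Finset.mem_image, Finset.mem_filter, Finset.mem_product, Finset.mem_univ, and_true,
    Prod.exists]
  constructor
  · rintro ⟨e, p, ⟨h1, h2⟩, h3⟩; exact ⟨e, h1, p, h2, h3⟩
  · rintro ⟨e, h1, p, h2, h3⟩; exact ⟨e, p, ⟨h1, h2⟩, h3⟩

lemma mem_cvars_clauseOf (blk : Fin n → Fin N) (e : Finset (Fin N)) (S : Finset (Fin n))
    {v : Fin n} (hv : blk v ∈ e) : v ∈ cvars (clauseOf blk e S) := by
  rw [mem_cvars]
  exact ⟨decide (v ∉ S), Finset.mem_image.2
    ⟨v, Finset.mem_filter.2 ⟨Finset.mem_univ _, hv⟩, rfl⟩⟩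

/-- Finite form of the lower bound for resolution refutations of small depth. -/
theorem finite_rd (blk : Fin n → Fin N) (E : Finset (Finset (Fin N)))
    {q s κ K₀ g wmin b : ℕ} (hq : 1 ≤ q) (hg : 1 ≤ g) (hsq : 2 * s ≤ q)
    (hE0 : ∀ e ∈ E, e.Nonempty)
    (hs : ∀ (J : Finset (Fin N)) (β : Fin N), J.card ≤ K₀ →
      (E.filter (fun e => e ⊆ insert β J ∧ β ∈ e)).card ≤ s)
    (H1 : q * (n + 2) ≤ E.card)
    (H2 : 2 * n + 2 * N + 1 ≤ 2 ^ κ)
    (hK : K₀ ≤ N)
    (hb : ∀ β, b ≤ (Finset.univ.filter (fun v => blk v = β)).card)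
    (hb' : ∀ β, (Finset.univ.filter (fun v => blk v = β)).card ≤ b + 1)
    (hgb : g + κ ≤ b)
    (hW : K₀ * (g + κ) + (N - K₀) * (b + 1) + wmin ≤ n) :
    ∃ F : Finset (Clause n),
      (∀ C ∈ F, ∃ e ∈ E, ∃ S ⊆ Finset.univ.filter (fun v => blk v ∈ e), clauseOf blk e S = C) ∧
      (∀ x : Asg n, ∃ C ∈ F, FalseAt C x) ∧
      ∀ (lines : Finset (Clause n)) (rk : Clause n → ℕ), Resolution F lines rk →
        ∀ D : ℕ, K₀ * κ + κ * rk ∅ / g ≤ D → ∀ l : ℝ, 0 < l → l ≤ 1 →
        2 ^ wmin * l ^ D ≤ (lines.card : ℝ) * (1 + l) ^ n := by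
  classical
  have : NeZero q := ⟨by omega⟩
  obtain ⟨ω, h1, h2⟩ := exists_omega_rd (q := q) blk E hsq hs H1 H2
  refine ⟨cnfRd blk E ω, ?_, ?_, ?_⟩
  · intro C hC
    obtain ⟨e, he, p, _, rfl⟩ := mem_cnfRd.1 hC
    refine ⟨e, he, _, ?_, rfl⟩
    intro v hv
    simp only [Finset.mem_filter, Finset.mem_univ, true_and] at hv ⊢
    exact hv.1
  · intro x
    obtain ⟨e, he, hne⟩ := h1 x
    exact ⟨_, mem_cnfRd.2 ⟨e, he, x, hne, rfl⟩, (falseAt_clauseOf blk e x x).2 (Agree.refl _ _ _)⟩
  · intro lines rk hRef D hD l hl0 hl1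
    set good : Finset (Fin N) → Asg n → Prop := fun e x => ω (e, mask blk e x) ≠ 0 with hgooddef
    have hgood : ∀ e x y, Agree blk e x y → good e x → good e y := by
      intro e x y h hg
      simp only [hgooddef] at hg ⊢
      rwa [(mask_eq_iff blk).2 h]
    have hF : ∀ D ∈ cnfRd blk E ω, ∃ e ∈ E, (∀ x, FalseAt D x → ¬ good e x) ∧
        ∀ v, blk v ∈ e → v ∈ cvars D := by
      intro D hD
      obtain ⟨e, he, p, hp, rfl⟩ := mem_cnfRd.1 hD
      refine ⟨e, he, ?_, fun v hv => mem_cvars_clauseOf blk e _ hv⟩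
      intro x hx hgx
      have hag := (falseAt_clauseOf blk e p x).1 hx
      apply hgx
      rw [(mask_eq_iff blk).2 hag]
      exact hp
    have hkey : ∀ z : Asg n, ∃ W ∈ lines, ∃ y : Asg n, wmin ≤ (cvars W).card ∧ FalseAt W y ∧
        hammingDist z y ≤ D := by
      intro z
      obtain ⟨x, J, hJ, hsat, hd⟩ := start (K₀ := K₀) (κ := κ) hgood hE0 h2
        (fun β => (by omega : κ ≤ b).trans (hb β)) z K₀ le_rfl hK
      have hunk : ∀ β, unk blk (∅ : Clause n) β = Finset.univ.filter (fun v => blk v = β) := by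
        intro β
        ext v
        simp [unk, cvars]
      obtain ⟨W, hW1, y, hW2, hW3, hW4⟩ := play (B₁ := b + 1) hRef hg hgood hF h2 hb' hW (rk ∅) ∅
        hRef.last rfl x J (by intro l hl; simp at hl) hJ
        (by
          intro β hβ
          rw [hunk] at hβ
          have := hb β
          omega) hsat
      refine ⟨W, hW1, y, hW2, hW3, ?_⟩
      have h0 : ∑ β ∈ Jᶜ, ((g + κ) - (unk blk (∅ : Clause n) β).card) = 0 := by
        apply Finset.sum_eq_zero
        intro β _
        rw [hunk]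
        have := hb β
        omega
      rw [h0, add_zero] at hW4
      have h3 : hammingDist x y ≤ κ * rk ∅ / g := by
        rw [Nat.le_div_iff_mul_le (by omega)]
        rw [mul_comm]
        exact hW4
      calc hammingDist z y ≤ hammingDist z x + hammingDist x y := hammingDist_triangle _ _ _
        _ ≤ K₀ * κ + κ * rk ∅ / g := by omega
        _ ≤ D := hD
    -- counting
    set Wd := lines.filter (fun W => wmin ≤ (cvars W).card) with hWd
    have hcov : (Finset.univ : Finset (Asg n)) ⊆ Wd.biUnion (fun W =>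
        (Finset.univ.filter (fun y : Asg n => FalseAt W y)).biUnion (fun y =>
          Finset.univ.filter (fun z : Asg n => hammingDist z y ≤ D))) := by
      intro z _
      obtain ⟨W, hW1, y, hW2, hW3, hW4⟩ := hkey z
      rw [Finset.mem_biUnion]
      refine ⟨W, Finset.mem_filter.2 ⟨hW1, hW2⟩, ?_⟩
      rw [Finset.mem_biUnion]
      exact ⟨y, Finset.mem_filter.2 ⟨Finset.mem_univ _, hW3⟩,
        Finset.mem_filter.2 ⟨Finset.mem_univ _, hW4⟩⟩
    have hc1 : (2 : ℝ) ^ n ≤ ∑ W ∈ Wd, ∑ y ∈ Finset.univ.filter (fun y : Asg n => FalseAt W y),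
        ((Finset.univ.filter (fun z : Asg n => hammingDist z y ≤ D)).card : ℝ) := by
      have h3 : 2 ^ n ≤ ∑ W ∈ Wd, ∑ y ∈ Finset.univ.filter (fun y : Asg n => FalseAt W y),
          (Finset.univ.filter (fun z : Asg n => hammingDist z y ≤ D)).card := by
        have h4 := Finset.card_le_card hcov
        simp only [Finset.card_univ, Fintype.card_pi, Fintype.card_bool, Finset.prod_const,
          Fintype.card_fin] at h4
        refine h4.trans (Finset.card_biUnion_le.trans (Finset.sum_le_sum ?_))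
        intro W _
        exact Finset.card_biUnion_le
      exact_mod_cast h3
    have hc2 : (2 : ℝ) ^ n * (2 ^ wmin * l ^ D) ≤ 2 ^ n * ((lines.card : ℝ) * (1 + l) ^ n) := by
      calc (2 : ℝ) ^ n * (2 ^ wmin * l ^ D)
          ≤ (∑ W ∈ Wd, ∑ y ∈ Finset.univ.filter (fun y : Asg n => FalseAt W y),
        ((Finset.univ.filter (fun z : Asg n => hammingDist z y ≤ D)).card : ℝ))
            * (2 ^ wmin * l ^ D) := mul_le_mul_of_nonneg_right hc1 (by positivity)
        _ = ∑ W ∈ Wd, (∑ y ∈ Finset.univ.filter (fun y : Asg n => FalseAt W y),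
        ((Finset.univ.filter (fun z : Asg n => hammingDist z y ≤ D)).card : ℝ) * l ^ D)
            * 2 ^ wmin := by
            rw [Finset.sum_mul]
            apply Finset.sum_congr rfl
            intro W _
            rw [← Finset.sum_mul]
            ring
        _ ≤ ∑ W ∈ Wd, (∑ y ∈ Finset.univ.filter (fun y : Asg n => FalseAt W y), (1 + l) ^ n)
            * 2 ^ wmin := by
            apply Finset.sum_le_sum
            intro W _
            apply mul_le_mul_of_nonneg_right _ (by positivity)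
            apply Finset.sum_le_sum
            intro y _
            exact ball_bound y D hl0 hl1
        _ ≤ ∑ W ∈ Wd, 2 ^ n * (1 + l) ^ n := by
            apply Finset.sum_le_sum
            intro W hW
            rw [Finset.sum_const, nsmul_eq_mul]
            have h5 := falsify_card W
            have h6 : (Finset.univ.filter (fun y : Asg n => FalseAt W y)).card * 2 ^ wmin
                ≤ 2 ^ n := by
              refine le_trans (Nat.mul_le_mul_left _ ?_) h5
              exact Nat.pow_le_pow_right (by norm_num) (Finset.mem_filter.1 hW).2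
            have h7 : ((Finset.univ.filter (fun y : Asg n => FalseAt W y)).card : ℝ) * 2 ^ wmin
                ≤ 2 ^ n := by exact_mod_cast h6
            calc ((Finset.univ.filter (fun y : Asg n => FalseAt W y)).card : ℝ) * (1 + l) ^ n
                  * 2 ^ wmin
                = (((Finset.univ.filter (fun y : Asg n => FalseAt W y)).card : ℝ) * 2 ^ wmin)
                  * (1 + l) ^ n := by ring
              _ ≤ _ := mul_le_mul_of_nonneg_right h7 (by positivity)
        _ = (Wd.card : ℝ) * (2 ^ n * (1 + l) ^ n) := by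
            rw [Finset.sum_const, nsmul_eq_mul]
        _ ≤ (lines.card : ℝ) * (2 ^ n * (1 + l) ^ n) := by
            apply mul_le_mul_of_nonneg_right _ (by positivity)
            exact_mod_cast Finset.card_filter_le _ _
        _ = _ := by ring
    exact le_of_mul_le_mul_left hc2 (by positivity)

end Pool.Agent.H538R2.SB
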