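import Mathlib
import Pool.Agent.H538R2.SBDefs

/-!
# Resolution over parities

Definitions for the size-depth trade-off for resolution over linear equations modulo two.
-/

namespace Pool.Agent.H538R2.SB

variable {n : ℕ}

/-- `x + y + z` over the field with two elements -/
def tri (x y z : Asg n) : Asg n := fun i => xor (xor (x i) (y i)) (z i)

/-- `A` is an affine subspace of `F_2^n` (possibly empty): it is closed under `x + y + z`. -/
def IsAffine (A : Finset (Asg n)) : Prop := ∀ x ∈ A, ∀ y ∈ A, ∀ z ∈ A, tri x y z ∈ A

/-- A refutation of the CNF formula `F` in resolution over parities (with semantic inferences).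
A line is an affine subspace `A` of `F_2^n`; it stands for the linear clause which says that the
assignment is not in `A`. The last line is the whole space (the empty clause). Each line is either
falsified-by-an-axiom, i.e. all its points falsify one clause of `F`, or it is covered by two lines
of smaller rank (the linear clause follows from two linear clauses derived before).
The depth of the refutation is the rank of the last line. -/
structure ResLin (F : Finset (Clause n)) (lines : Finset (Finset (Asg n)))
    (rk : Finset (Asg n) → ℕ) : Prop where
  affine : ∀ A ∈ lines, IsAffine A
  last : Finset.univ ∈ lines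
  step : ∀ A ∈ lines, (∃ C ∈ F, ∀ x ∈ A, FalseAt C x) ∨
    ∃ B₀ ∈ lines, ∃ B₁ ∈ lines, A ⊆ B₀ ∪ B₁ ∧ rk B₀ < rk A ∧ rk B₁ < rk A

end Pool.Agent.H538R2.SB
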