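import Mathlib
import Pool.Agent.H538R2.RLDefs
import Pool.Agent.H538R2.SBCore

/-!
Affine subspaces of `F_2^n` as ternary closed finite sets.
-/

namespace Pool.Agent.H538R2.SB

open Finset

variable {n N : ℕ}

lemma tri_self_left (x y : Asg n) : tri x x y = y := by
  funext i; simp [tri]

lemma tri_invol (z x y : Asg n) : tri (tri z x y) x y = z := by
  funext i
  simp only [tri]
  cases z i <;> cases x i <;> cases y i <;> rfl

lemma tri_rec1 (u w z : Asg n) : tri (tri u w z) w z = u := tri_invol u w z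

lemma tri_rec2 (u w z : Asg n) : tri (tri u w z) u z = w := by
  funext i
  simp only [tri]
  cases z i <;> cases u i <;> cases w i <;> rfl

lemma tri_rec3 (z u w : Asg n) : tri (tri z u w) z w = u := by
  funext i
  simp only [tri]
  cases z i <;> cases u i <;> cases w i <;> rfl

lemma tri_rec4 (z u w : Asg n) : tri (tri z u w) z u = w := by
  funext i
  simp only [tri]
  cases z i <;> cases u i <;> cases w i <;> rfl

lemma IsAffine.inter {A B : Finset (Asg n)} (hA : IsAffine A) (hB : IsAffine B) :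
    IsAffine (A ∩ B) := by
  intro x hx y hy z hz
  rw [Finset.mem_inter] at hx hy hz ⊢
  exact ⟨hA x hx.1 y hy.1 z hz.1, hB x hx.2 y hy.2 z hz.2⟩

variable {blk : Fin n → Fin N}

lemma isAffine_cell {A : Finset (Asg n)} (hA : IsAffine A) (K : Finset (Fin N)) (x : Asg n) :
    IsAffine (cell blk A K x) := by
  intro a ha b hb c hc
  obtain ⟨ha1, ha2⟩ := mem_cell.1 ha
  obtain ⟨hb1, hb2⟩ := mem_cell.1 hb
  obtain ⟨hc1, hc2⟩ := mem_cell.1 hc
  refine mem_cell.2 ⟨hA a ha1 b hb1 c hc1, ?_⟩
  intro v hv
  simp only [tri, ha2 v hv, hb2 v hv, hc2 v hv]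
  cases x v <;> rfl

lemma affine_cell_card {A : Finset (Asg n)} (hA : IsAffine A) (K : Finset (Fin N))
    {x y : Asg n} (hx : x ∈ A) (hy : y ∈ A) :
    (cell blk A K x).card = (cell blk A K y).card := by
  refine Finset.card_bij' (fun z _ => tri z x y) (fun z _ => tri z x y) ?_ ?_ ?_ ?_
  · intro z hz
    obtain ⟨hz1, hz2⟩ := mem_cell.1 hz
    refine mem_cell.2 ⟨hA z hz1 x hx y hy, ?_⟩
    intro v hv
    simp only [tri, hz2 v hv]
    cases x v <;> cases y v <;> rfl
  · intro z hz
    obtain ⟨hz1, hz2⟩ := mem_cell.1 hz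
    refine mem_cell.2 ⟨hA z hz1 x hx y hy, ?_⟩
    intro v hv
    simp only [tri, hz2 v hv]
    cases x v <;> cases y v <;> rfl
  · intro z _; exact tri_invol z x y
  · intro z _; exact tri_invol z x y

/-- An affine space covered by two affine spaces is contained in one of them, or they cut it
into two halves. -/
lemma cover_halves {V B₀ B₁ : Finset (Asg n)} (hV : IsAffine V) (h0 : IsAffine B₀)
    (h1 : IsAffine B₁) (hcov : V ⊆ B₀ ∪ B₁) (hn0 : ¬ V ⊆ B₀) (hn1 : ¬ V ⊆ B₁) :
    Disjoint (V ∩ B₀) (V ∩ B₁) ∧ 2 * (V ∩ B₀).card = V.card ∧ 2 * (V ∩ B₁).card = V.card := by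
  classical
  obtain ⟨u, huV, hu0⟩ := Finset.not_subset.1 hn0
  obtain ⟨w, hwV, hw1⟩ := Finset.not_subset.1 hn1
  have hu1 : u ∈ B₁ := by
    rcases Finset.mem_union.1 (hcov huV) with h | h
    · exact absurd h hu0
    · exact h
  have hw0 : w ∈ B₀ := by
    rcases Finset.mem_union.1 (hcov hwV) with h | h
    · exact h
    · exact absurd h hw1
  have hdisj : ∀ z ∈ V, z ∈ B₀ → z ∉ B₁ := by
    intro z hzV hz0 hz1
    have hm : tri u w z ∈ V := hV u huV w hwV z hzV
    rcases Finset.mem_union.1 (hcov hm) with h | h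
    · apply hu0
      rw [← tri_rec1 u w z]
      exact h0 _ h w hw0 z hz0
    · apply hw1
      rw [← tri_rec2 u w z]
      exact h1 _ h u hu1 z hz1
  have hd : Disjoint (V ∩ B₀) (V ∩ B₁) := by
    rw [Finset.disjoint_left]
    intro z hz hz'
    rw [Finset.mem_inter] at hz hz'
    exact hdisj z hz.1 hz.2 hz'.2
  have hcard : (V ∩ B₀).card = (V ∩ B₁).card := by
    refine Finset.card_bij' (fun z _ => tri z u w) (fun z _ => tri z u w) ?_ ?_ ?_ ?_
    · intro z hz
      rw [Finset.mem_inter] at hz ⊢
      have hm : tri z u w ∈ V := hV z hz.1 u huV w hwV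
      refine ⟨hm, ?_⟩
      rcases Finset.mem_union.1 (hcov hm) with h | h
      · exfalso
        apply hu0
        rw [← tri_rec3 z u w]
        exact h0 _ h z hz.2 w hw0
      · exact h
    · intro z hz
      rw [Finset.mem_inter] at hz ⊢
      have hm : tri z u w ∈ V := hV z hz.1 u huV w hwV
      refine ⟨hm, ?_⟩
      rcases Finset.mem_union.1 (hcov hm) with h | h
      · exact h
      · exfalso
        apply hw1
        rw [← tri_rec4 z u w]
        exact h1 _ h z hz.2 u hu1
    · intro z _; exact tri_invol z u w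
    · intro z _; exact tri_invol z u w
  have hsum : (V ∩ B₀).card + (V ∩ B₁).card = V.card := by
    rw [← Finset.card_union_of_disjoint hd, ← Finset.inter_union_distrib_left]
    congr 1
    exact Finset.inter_eq_left.2 hcov
  refine ⟨hd, ?_, ?_⟩ <;> omega

/-- the affine hull -/
noncomputable def ahull (S : Finset (Asg n)) : Finset (Asg n) := by
  classical
  exact Finset.univ.filter (fun x => ∀ A : Finset (Asg n), IsAffine A → S ⊆ A → x ∈ A)

lemma mem_ahull {S : Finset (Asg n)} {x : Asg n} :
    x ∈ ahull S ↔ ∀ A : Finset (Asg n), IsAffine A → S ⊆ A → x ∈ A := by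
  classical
  simp [ahull]

lemma subset_ahull (S : Finset (Asg n)) : S ⊆ ahull S := fun _ hx =>
  mem_ahull.2 (fun _ _ hS => hS hx)

lemma isAffine_ahull (S : Finset (Asg n)) : IsAffine (ahull S) := by
  intro x hx y hy z hz
  rw [mem_ahull] at *
  exact fun A hA hS => hA x (hx A hA hS) y (hy A hA hS) z (hz A hA hS)

lemma ahull_subset {S A : Finset (Asg n)} (hA : IsAffine A) (hS : S ⊆ A) : ahull S ⊆ A :=
  fun _ hx => mem_ahull.1 hx A hA hS

lemma ahull_mono {S T : Finset (Asg n)} (h : S ⊆ T) : ahull S ⊆ ahull T :=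
  ahull_subset (isAffine_ahull T) (h.trans (subset_ahull T))

lemma ahull_insert_card {S : Finset (Asg n)} {x₀ w : Asg n} (hx₀ : x₀ ∈ ahull S)
    (hw : w ∉ ahull S) : 2 * (ahull S).card ≤ (ahull (insert w S)).card := by
  classical
  have h1 : ahull S ⊆ ahull (insert w S) := ahull_mono (Finset.subset_insert _ _)
  have hw' : w ∈ ahull (insert w S) := subset_ahull _ (Finset.mem_insert_self _ _)
  have h2 : (ahull S).image (fun z => tri z x₀ w) ⊆ ahull (insert w S) := by
    intro y hy
    obtain ⟨z, hz, rfl⟩ := Finset.mem_image.1 hy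
    exact isAffine_ahull _ z (h1 hz) x₀ (h1 hx₀) w hw'
  have h3 : Disjoint (ahull S) ((ahull S).image (fun z => tri z x₀ w)) := by
    rw [Finset.disjoint_left]
    intro y hy hy'
    obtain ⟨z, hz, rfl⟩ := Finset.mem_image.1 hy'
    apply hw
    rw [← tri_rec4 z x₀ w]
    exact isAffine_ahull S _ hy z hz x₀ hx₀
  have h4 : ((ahull S).image (fun z => tri z x₀ w)).card = (ahull S).card := by
    apply Finset.card_image_of_injective
    intro a b hab
    have : tri (tri a x₀ w) x₀ w = tri (tri b x₀ w) x₀ w := by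
      simp only at hab
      rw [hab]
    rwa [tri_invol, tri_invol] at this
  calc 2 * (ahull S).card = (ahull S).card + ((ahull S).image (fun z => tri z x₀ w)).card := by
        rw [h4]; ring
    _ = (ahull S ∪ (ahull S).image (fun z => tri z x₀ w)).card :=
        (Finset.card_union_of_disjoint h3).symm
    _ ≤ _ := Finset.card_le_card (Finset.union_subset h1 h2)

lemma exists_gen {W : Finset (Asg n)} (hW : IsAffine W) (hne : W.Nonempty) :
    ∃ S : Finset (Asg n), S.card ≤ n + 2 ∧ ahull S = W := by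
  classical
  have key : ∀ k : ℕ, (∃ S : Finset (Asg n), S.card ≤ k + 1 ∧ ahull S = W) ∨
      (∃ S : Finset (Asg n), S.card ≤ k + 1 ∧ S.Nonempty ∧ S ⊆ W ∧ 2 ^ k ≤ (ahull S).card) := by
    intro k
    induction k with
    | zero =>
      right
      obtain ⟨x, hx⟩ := hne
      refine ⟨{x}, by simp, by simp, by simpa using hx, ?_⟩
      have : 0 < (ahull {x}).card := Finset.card_pos.2 ⟨x, subset_ahull _ (by simp)⟩
      simpa using this
    | succ k ih =>
      rcases ih with ⟨S, h1, h2⟩ | ⟨S, h1, ⟨x₀, hx₀⟩, hSW, h2⟩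
      · exact Or.inl ⟨S, by omega, h2⟩
      · by_cases heq : ahull S = W
        · exact Or.inl ⟨S, by omega, heq⟩
        · right
          have hsub : ahull S ⊆ W := ahull_subset hW hSW
          obtain ⟨w, hwW, hw⟩ : ∃ w ∈ W, w ∉ ahull S := by
            by_contra hcon
            push Not at hcon
            exact heq (Finset.Subset.antisymm hsub hcon)
          refine ⟨insert w S, (Finset.card_insert_le _ _).trans (by omega),
            Finset.insert_nonempty _ _, Finset.insert_subset hwW hSW, ?_⟩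
          have := ahull_insert_card (subset_ahull S hx₀) hw
          rw [pow_succ]
          omega
  rcases key (n + 1) with ⟨S, h1, h2⟩ | ⟨S, h1, _, _, h2⟩
  · exact ⟨S, h1, h2⟩
  · exfalso
    have h3 : (ahull S).card ≤ 2 ^ n := by
      refine (Finset.card_le_univ _).trans ?_
      simp
    have h4 : 2 ^ n < 2 ^ (n + 1) := Nat.pow_lt_pow_right (by norm_num) (by omega)
    omega

/-- the family of all nonempty affine subspaces -/
noncomputable def affFam (n : ℕ) : Finset (Finset (Asg n)) := by
  classical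
  exact (Finset.univ : Finset (Fin (n + 2) → Asg n)).image (fun g => ahull (Finset.univ.image g))

lemma affFam_card (n : ℕ) : (affFam n).card ≤ 2 ^ (n * (n + 2)) := by
  classical
  unfold affFam
  refine Finset.card_image_le.trans ?_
  rw [Finset.card_univ, Fintype.card_fun, Fintype.card_fun]
  simp [← pow_mul]

lemma mem_affFam {W : Finset (Asg n)} (hW : IsAffine W) (hne : W.Nonempty) : W ∈ affFam n := by
  classical
  obtain ⟨S, hS, rfl⟩ := exists_gen hW hne
  unfold affFam
  rw [Finset.mem_image]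
  have hSne : S.Nonempty := by
    by_contra h0
    rw [Finset.not_nonempty_iff_eq_empty] at h0
    rw [h0] at hne
    obtain ⟨x, hx⟩ := hne
    have := mem_ahull.1 hx ∅ (by intro _ hx; simp at hx) (by simp)
    simp at this
  obtain ⟨s₀, hs₀⟩ := hSne
  -- enumerate S
  have hcard : Fintype.card S ≤ Fintype.card (Fin (n + 2)) := by simpa using hS
  obtain ⟨f⟩ : Nonempty (S ↪ Fin (n + 2)) := Function.Embedding.nonempty_of_card_le hcard
  refine ⟨fun j => if h : ∃ s : S, f s = j then (h.choose : Asg n) else s₀, Finset.mem_univ _, ?_⟩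
  congr 1
  ext y
  rw [Finset.mem_image]
  constructor
  · rintro ⟨j, _, rfl⟩
    split_ifs with h
    · exact h.choose.2
    · exact hs₀
  · intro hy
    refine ⟨f ⟨y, hy⟩, Finset.mem_univ _, ?_⟩
    have h : ∃ s : S, f s = f ⟨y, hy⟩ := ⟨⟨y, hy⟩, rfl⟩
    change (if h : ∃ s : S, f s = f ⟨y, hy⟩ then (h.choose : Asg n) else s₀) = y
    rw [dif_pos h]
    have := f.injective h.choose_spec
    rw [this]

end Pool.Agent.H538R2.SB
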