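import Mathlib
import Pool.Agent.H538R2.SBExist
import Pool.Agent.H538R2.RLAffine

/-!
Union bound over an arbitrary family of states.
-/

namespace Pool.Agent.H538R2.SB

open Finset

variable {n N : ℕ}

open Classical in
theorem exists_omega_fam (blk : Fin n → Fin N) (E : Finset (Finset (Fin N)))
    {q : ℕ} [NeZero q] {R R₂ d Θ G Λ s z : ℕ} (hR : 1 ≤ R) (hd : 1 ≤ d)
    (hG : G = R₂ * Λ) (hR₂ : 1 ≤ R₂) (hΛ : Λ = 2 ^ (N + 1) * d)
    (hE : 1 ≤ E.card)
    (hs : ∀ (K : Finset (Fin N)) (x : Asg n),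
      Θ ≤ d * G ^ N * (cell blk Finset.univ K x).card → (E.filter (fun e => e ⊆ K)).card ≤ s)
    (H1 : 2 ^ (n + 1) < q ^ E.card)
    (H2 : 2 * d ^ 2 * E.card * (q ^ s * z) ≤ R)
    (Fam : Finset (Finset (Fin N) × Finset (Asg n)))
    (H3 : 2 * Fam.card ≤ 2 ^ z) :
    ∃ ω : Finset (Fin N) × Asg n → Fin q,
      (∀ x : Asg n, ∃ e ∈ E, ω (e, mask blk e x) ≠ 0) ∧
      (∀ t ∈ Fam, Pre blk E R₂ R d Θ G t.1 t.2 →
        Event blk E R₂ (goodOf blk ω) Λ t.1 t.2) := by
  set Ω := (Finset (Fin N) × Asg n → Fin q)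
  set M : ℝ := (q : ℝ) ^ Fintype.card (Finset (Fin N) × Asg n) with hM
  have hq1 : 1 ≤ q := Nat.one_le_iff_ne_zero.2 (NeZero.ne q)
  have hqR : (1 : ℝ) ≤ q := by exact_mod_cast hq1
  have hMpos : 0 < M := by rw [hM]; positivity
  have hcardΩ : (Fintype.card Ω : ℝ) = M := by
    rw [hM]
    simp only [Ω, Fintype.card_pi, Fintype.card_fin, Finset.prod_const, Finset.card_univ]
    push_cast
    rfl
  -- first bad set
  set bad1 : Finset Ω := Finset.univ.filter (fun ω => ∃ x : Asg n, ∀ e ∈ E, ω (e, mask blk e x) = 0)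
    with hbad1
  have hb1 : 2 * (bad1.card : ℝ) < M := by
    have hx : ∀ x : Asg n, (q : ℝ) ^ E.card *
        ((Finset.univ.filter (fun ω : Ω => ∀ e ∈ E, ω (e, mask blk e x) = 0)).card : ℝ) = M := by
      intro x
      have h1 := count_zero (q := q) (E.image (fun e => (e, mask blk e x)))
        (fun _ : Ω => True) (fun _ _ _ => Iff.rfl)
      have h2 : (E.image (fun e => (e, mask blk e x))).card = E.card := by
        apply Finset.card_image_of_injective
        intro a b hab
        exact congrArg Prod.fst hab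
      have h3 : (Finset.univ.filter (fun ω : Ω => True ∧
          ∀ c ∈ E.image (fun e => (e, mask blk e x)), ω c = 0))
          = (Finset.univ.filter (fun ω : Ω => ∀ e ∈ E, ω (e, mask blk e x) = 0)) := by
        ext ω
        simp
      rw [h2, h3] at h1
      rw [← hcardΩ]
      have h4 : (Finset.univ.filter (fun _ : Ω => True)).card = Fintype.card Ω := by
        rw [Finset.filter_true_of_mem (fun _ _ => trivial), Finset.card_univ]
      rw [h4] at h1
      exact_mod_cast h1.symm
    have hsub : bad1 ⊆ (Finset.univ : Finset (Asg n)).biUnion (fun x =>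
        Finset.univ.filter (fun ω : Ω => ∀ e ∈ E, ω (e, mask blk e x) = 0)) := by
      intro ω hω
      obtain ⟨x, hx⟩ := (Finset.mem_filter.1 hω).2
      rw [Finset.mem_biUnion]
      exact ⟨x, Finset.mem_univ _, Finset.mem_filter.2 ⟨Finset.mem_univ _, hx⟩⟩
    have hle : (bad1.card : ℝ) ≤ ∑ x : Asg n,
        ((Finset.univ.filter (fun ω : Ω => ∀ e ∈ E, ω (e, mask blk e x) = 0)).card : ℝ) := by
      exact_mod_cast (Finset.card_le_card hsub).trans Finset.card_biUnion_le
    have hqE : (0 : ℝ) < (q : ℝ) ^ E.card := by positivity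
    have hmul : (q : ℝ) ^ E.card * (bad1.card : ℝ) ≤ 2 ^ n * M := by
      calc (q : ℝ) ^ E.card * (bad1.card : ℝ) ≤ (q : ℝ) ^ E.card * ∑ x : Asg n,
        ((Finset.univ.filter (fun ω : Ω => ∀ e ∈ E, ω (e, mask blk e x) = 0)).card : ℝ) :=
            mul_le_mul_of_nonneg_left hle hqE.le
        _ = ∑ x : Asg n, M := by
            rw [Finset.mul_sum]
            exact Finset.sum_congr rfl (fun x _ => hx x)
        _ = 2 ^ n * M := by
            rw [Finset.sum_const, Finset.card_univ]
            simp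
    have H1R : (2 : ℝ) ^ (n + 1) < (q : ℝ) ^ E.card := by exact_mod_cast H1
    by_contra hcon
    push Not at hcon
    have h5 : (2 : ℝ) ^ (n + 1) * (bad1.card : ℝ) ≥ 2 ^ n * M := by
      rw [pow_succ]
      have : (0 : ℝ) < 2 ^ n := by positivity
      nlinarith
    have h6 : (0 : ℝ) < bad1.card := by
      by_contra h0
      have : (bad1.card : ℝ) = 0 := le_antisymm (not_lt.1 h0) (Nat.cast_nonneg _)
      rw [this] at hcon
      linarith
    nlinarith
  -- second bad set
  set B : (Finset (Fin N) × Finset (Asg n)) → Finset Ω := fun t =>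
    Finset.univ.filter (fun ω => Pre blk E R₂ R d Θ G t.1 t.2
      ∧ ¬ Event blk E R₂ (goodOf blk ω) Λ t.1 t.2) with hB
  have hBcard : ∀ t, ((B t).card : ℝ) * 2 ^ z ≤ M := by
    intro t
    by_cases hpre : Pre blk E R₂ R d Θ G t.1 t.2
    · obtain ⟨m, hm1, hm2⟩ := one_state (q := q) hR hd hG hR₂ hΛ hs hpre
      have h1 : ((B t).card : ℝ) ≤ (1 - 1 / (q : ℝ) ^ s) ^ m * M := by
        refine le_trans (Nat.cast_le.2 (Finset.card_le_card ?_)) hm2
        intro ω hω
        simp only [hB, Finset.mem_filter, Finset.mem_univ, true_and] at hω ⊢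
        exact hω.2
      have h2 : q ^ s * z ≤ m := by
        have h3 : 2 * d ^ 2 * E.card * (q ^ s * z) ≤ 2 * d ^ 2 * E.card * m := H2.trans hm1
        exact Nat.le_of_mul_le_mul_left h3 (by positivity)
      have hqs : (1 : ℝ) ≤ (q : ℝ) ^ s := one_le_pow₀ hqR
      have h4 : (1 - 1 / (q : ℝ) ^ s) ^ m ≤ Real.exp (-(z : ℝ)) := by
        have h5 : 1 - 1 / (q : ℝ) ^ s ≤ Real.exp (-(1 / (q : ℝ) ^ s)) := by
          have := Real.add_one_le_exp (-(1 / (q : ℝ) ^ s))
          linarith
        have h6 : 0 ≤ 1 - 1 / (q : ℝ) ^ s := by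
          have : 1 / (q : ℝ) ^ s ≤ 1 := by
            rw [div_le_one (by positivity)]; exact hqs
          linarith
        calc (1 - 1 / (q : ℝ) ^ s) ^ m ≤ (Real.exp (-(1 / (q : ℝ) ^ s))) ^ m :=
              pow_le_pow_left₀ h6 h5 m
          _ = Real.exp (m * (-(1 / (q : ℝ) ^ s))) := by rw [← Real.exp_nat_mul]
          _ ≤ Real.exp (-(z : ℝ)) := by
              apply Real.exp_le_exp.2
              have h7 : (q : ℝ) ^ s * z ≤ m := by exact_mod_cast h2
              have h8 : (z : ℝ) ≤ m * (1 / (q : ℝ) ^ s) := by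
                rw [mul_one_div, le_div_iff₀ (by positivity)]
                linarith
              linarith
      have h9 : Real.exp (-(z : ℝ)) * 2 ^ z ≤ 1 := by
        have : (2 : ℝ) ^ z ≤ Real.exp z := by
          calc (2 : ℝ) ^ z ≤ (Real.exp 1) ^ z := by
                apply pow_le_pow_left₀ (by norm_num)
                have := Real.add_one_le_exp (1 : ℝ)
                linarith
            _ = Real.exp z := by rw [← Real.exp_nat_mul]; simp
        calc Real.exp (-(z : ℝ)) * 2 ^ z ≤ Real.exp (-(z : ℝ)) * Real.exp z :=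
              mul_le_mul_of_nonneg_left this (Real.exp_pos _).le
          _ = 1 := by rw [← Real.exp_add]; simp
      calc ((B t).card : ℝ) * 2 ^ z ≤ ((1 - 1 / (q : ℝ) ^ s) ^ m * M) * 2 ^ z :=
            mul_le_mul_of_nonneg_right h1 (by positivity)
        _ ≤ (Real.exp (-(z : ℝ)) * M) * 2 ^ z := by
            apply mul_le_mul_of_nonneg_right _ (by positivity)
            exact mul_le_mul_of_nonneg_right h4 hMpos.le
        _ = (Real.exp (-(z : ℝ)) * 2 ^ z) * M := by ring
        _ ≤ 1 * M := mul_le_mul_of_nonneg_right h9 hMpos.le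
        _ = M := one_mul _
    · have : B t = ∅ := by
        rw [hB]
        apply Finset.filter_false_of_mem
        intro ω _ h
        exact hpre h.1
      rw [this]
      simp only [Finset.card_empty, Nat.cast_zero, zero_mul]
      exact hMpos.le
  set bad2 : Finset Ω := Fam.biUnion B with hbad2
  have hb2 : 2 * (bad2.card : ℝ) ≤ M := by
    have h1 : bad2.card ≤ ∑ t ∈ Fam, (B t).card := Finset.card_biUnion_le
    have h2 : (bad2.card : ℝ) * 2 ^ z ≤ (Fam.card : ℝ) * M := by
      calc (bad2.card : ℝ) * 2 ^ z ≤ ((∑ t ∈ Fam, (B t).card : ℕ) : ℝ) * 2 ^ z := by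
            apply mul_le_mul_of_nonneg_right _ (by positivity)
            exact_mod_cast h1
        _ = ∑ t ∈ Fam, ((B t).card : ℝ) * 2 ^ z := by
            push_cast
            rw [Finset.sum_mul]
        _ ≤ ∑ t ∈ Fam, M := Finset.sum_le_sum (fun t _ => hBcard t)
        _ = _ := by rw [Finset.sum_const, nsmul_eq_mul]
    have h3 : (2 : ℝ) * (Fam.card : ℝ) ≤ 2 ^ z := by
      exact_mod_cast H3
    have hz : (0 : ℝ) < 2 ^ z := by positivity
    have h4 : (2 * (bad2.card : ℝ)) * 2 ^ z ≤ M * 2 ^ z := by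
      calc (2 * (bad2.card : ℝ)) * 2 ^ z = 2 * ((bad2.card : ℝ) * 2 ^ z) := by ring
        _ ≤ 2 * ((Fam.card : ℝ) * M) := by linarith
        _ = (2 * (Fam.card : ℝ)) * M := by ring
        _ ≤ 2 ^ z * M := mul_le_mul_of_nonneg_right h3 hMpos.le
        _ = M * 2 ^ z := mul_comm _ _
    exact le_of_mul_le_mul_right h4 hz
  -- conclusion
  have hex : ∃ ω : Ω, ω ∉ bad1 ∪ bad2 := by
    by_contra hcon
    push Not at hcon
    have h1 : (Finset.univ : Finset Ω) ⊆ bad1 ∪ bad2 := fun ω _ => hcon ω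
    have h2 : Fintype.card Ω ≤ bad1.card + bad2.card := by
      rw [← Finset.card_univ]
      exact (Finset.card_le_card h1).trans (Finset.card_union_le _ _)
    have h3 : M ≤ bad1.card + bad2.card := by
      rw [← hcardΩ]; exact_mod_cast h2
    linarith
  obtain ⟨ω, hω⟩ := hex
  rw [Finset.mem_union, not_or] at hω
  refine ⟨ω, ?_, ?_⟩
  · intro x
    by_contra hcon
    push Not at hcon
    exact hω.1 (Finset.mem_filter.2 ⟨Finset.mem_univ _, x, hcon⟩)
  · intro t ht hpre
    by_contra hcon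
    apply hω.2
    rw [hbad2, Finset.mem_biUnion]
    refine ⟨t, ht, ?_⟩
    simp only [hB, Finset.mem_filter, Finset.mem_univ, true_and]
    exact ⟨hpre, hcon⟩

end Pool.Agent.H538R2.SB
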