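import Mathlib
import Pool.Agent.H538R2.RLExist

/-!
The size-depth argument for resolution over parities.
-/

namespace Pool.Agent.H538R2.SB

open Finset

variable {n N : ℕ} {blk : Fin n → Fin N} {E : Finset (Finset (Fin N))} {R₂ : ℕ}

lemma stuck_iff {W : Finset (Asg n)} (hW : IsAffine W) (K : Finset (Fin N)) {x y : Asg n}
    (hx : x ∈ W) (hy : y ∈ W) (h : Stuck blk E R₂ W K x) : Stuck blk E R₂ W K y := by
  intro e he heK
  rw [← affine_cell_card hW (K ∪ e) hx hy, ← affine_cell_card hW K hx hy]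
  exact h e he heK

lemma leaf_contra {good : Finset (Fin N) → Asg n → Prop} {R : ℕ} (hR : 2 ≤ R)
    (hgood : ∀ e x y, Agree blk e x y → good e x → good e y)
    {F : Finset (Clause n)}
    (hF : ∀ C ∈ F, ∃ e ∈ E, ∃ p, ¬ good e p ∧ ∀ x, FalseAt C x → Agree blk e p x)
    {J : Finset (Fin N)} {V : Finset (Asg n)} (hSt : State blk E good R J V) (hne : V.Nonempty)
    {C : Clause n} (hC : C ∈ F) (hall : ∀ x ∈ V, FalseAt C x) : False := by
  obtain ⟨x, hx⟩ := hne
  obtain ⟨e, he, p, hp, hpe⟩ := hF C hC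
  by_cases heJ : e ⊆ J
  · exact hp (hgood e x p (hpe x (hall x hx)).symm (hSt.sat x hx e he heJ))
  · have h1 := hSt.spread e he heJ x hx
    have h2 : cell blk V e x = V := by
      ext y
      rw [mem_cell]
      exact ⟨fun h => h.1, fun hy =>
        ⟨hy, (hpe x (hall x hx)).symm.trans (hpe y (hall y hy))⟩⟩
    rw [h2] at h1
    have h3 : 0 < V.card := Finset.card_pos.2 ⟨x, hx⟩
    nlinarith

lemma aff_step {good : Finset (Fin N) → Asg n → Prop} {R d Θ G Λ : ℕ}
    (hd : 2 ≤ d) (hΛ : 1 ≤ Λ) (hG : G = R₂ * Λ) (hR₂ : Λ * R ≤ R₂)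
    (hgood : ∀ e x y, Agree blk e x y → good e x → good e y)
    (hev : ∀ J W, IsAffine W → W.Nonempty → Pre blk E R₂ R d Θ G J W →
      Event blk E R₂ good Λ J W)
    {J : Finset (Fin N)} {V : Finset (Asg n)} (hSt : State blk E good R J V)
    {W : Finset (Asg n)} (hWV : W ⊆ V) (hW : IsAffine W) (hne : W.Nonempty)
    (hcard : V.card ≤ 2 * W.card) (hbig : Θ ≤ V.card * G ^ J.card) :
    ∃ K V', V' ⊆ W ∧ V'.Nonempty ∧ IsAffine V' ∧ State blk E good R K V' ∧
      W.card * G ^ J.card ≤ V'.card * G ^ K.card := by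
  classical
  have hfix : ∀ x ∈ W, ∀ y ∈ W, Agree blk J x y := fun x hx y hy =>
    hSt.fixed x (hWV hx) y (hWV hy)
  by_cases hst : ∀ x ∈ W, Stuck blk E R₂ W J x
  · refine ⟨J, W, subset_rfl, hne, hW, ⟨hfix, ?_, ?_⟩, le_rfl⟩
    · intro x hx e he heJ
      exact hSt.sat x (hWV hx) e he heJ
    · intro e he heJ x hx
      have h1 := hst x hx e he heJ
      have h2 : cell blk W e x ⊆ cell blk W (J ∪ e) x := by
        intro y hy
        obtain ⟨hy1, hy2⟩ := mem_cell.1 hy
        exact mem_cell.2 ⟨hy1, (hfix x hx y hy1).union hy2⟩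
      have h3 : R ≤ R₂ := le_trans (Nat.le_mul_of_pos_left R hΛ) hR₂
      calc R * (cell blk W e x).card ≤ R₂ * (cell blk W (J ∪ e) x).card :=
            Nat.mul_le_mul h3 (Finset.card_le_card h2)
        _ ≤ (cell blk W J x).card := h1
        _ ≤ W.card := Finset.card_le_card (cell_subset _ _ _ _)
  · push Not at hst
    obtain ⟨x₀, hx₀, hns⟩ := hst
    have hall : ∀ x ∈ W, ¬ Stuck blk E R₂ W J x := fun x hx h => hns (stuck_iff hW J hx hx₀ h)
    have hWpos : 0 < W.card := Finset.card_pos.2 hne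
    have hpre : Pre blk E R₂ R d Θ G J W := by
      refine ⟨hfix, ?_, ?_, ?_⟩
      · intro e he heJ x hx
        calc R * (cell blk W e x).card ≤ R * (cell blk V e x).card :=
              Nat.mul_le_mul_left _ (Finset.card_le_card (cell_mono_set blk hWV e x))
          _ ≤ V.card := hSt.spread e he heJ x (hWV hx)
          _ ≤ 2 * W.card := hcard
          _ ≤ d * W.card := Nat.mul_le_mul_right _ hd
      · calc Θ ≤ V.card * G ^ J.card := hbig
          _ ≤ (2 * W.card) * G ^ J.card := Nat.mul_le_mul_right _ hcard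
          _ ≤ d * W.card * G ^ J.card := by
              apply Nat.mul_le_mul_right
              exact Nat.mul_le_mul_right _ hd
      · rw [Finset.filter_true_of_mem hall]
        nlinarith
    obtain ⟨x, hx, K, hJK, hc1, hc2, hsat⟩ := hev J W hW hne hpre
    have hxc : x ∈ cell blk W K x := self_mem_cell blk hx K
    have hcpos : 0 < (cell blk W K x).card := Finset.card_pos.2 ⟨x, hxc⟩
    have hcorene : (core blk E R₂ W K x).Nonempty := by
      rw [← Finset.card_pos]
      rcases Nat.eq_zero_or_pos (core blk E R₂ W K x).card with h0 | h0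
      · rw [h0] at hc2; omega
      · exact h0
    obtain ⟨y, hy⟩ := hcorene
    obtain ⟨hyc, hyS⟩ := Finset.mem_filter.1 hy
    have hyW : y ∈ W := (mem_cell.1 hyc).1
    have hcore : core blk E R₂ W K x = cell blk W K x := by
      unfold core
      apply Finset.filter_true_of_mem
      intro z hz
      exact stuck_iff hW K hyW (mem_cell.1 hz).1 hyS
    have hgx : ∀ e ∈ E, e ⊆ K → good e x := by
      intro e he heK
      by_cases heJ : e ⊆ J
      · exact hSt.sat x (hWV hx) e he heJ
      · exact hsat e he heK heJ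
    have hSt' : State blk E good R K (core blk E R₂ W K x) :=
      core_state (by omega) hR₂ hgood hc2 hgx
    rw [hcore] at hSt'
    refine ⟨K, cell blk W K x, cell_subset _ _ _ _, ⟨x, hxc⟩, isAffine_cell hW K x, hSt', ?_⟩
    have hKcard : K.card = J.card + (K \ J).card := by
      rw [Finset.card_sdiff_of_subset hJK.subset]
      have := Finset.card_le_card hJK.subset
      omega
    have hR₂G : R₂ ≤ G := by rw [hG]; exact Nat.le_mul_of_pos_right _ hΛ
    calc W.card * G ^ J.card
        ≤ (R₂ ^ (K \ J).card * (cell blk W K x).card) * G ^ J.card := Nat.mul_le_mul_right _ hc1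
      _ ≤ (G ^ (K \ J).card * (cell blk W K x).card) * G ^ J.card := by
          apply Nat.mul_le_mul_right
          apply Nat.mul_le_mul_right
          exact Nat.pow_le_pow_left hR₂G _
      _ = (cell blk W K x).card * G ^ K.card := by rw [hKcard, pow_add]; ring

section process

variable {good : Finset (Fin N) → Asg n → Prop} {R d Θ G Λ : ℕ}
  {F : Finset (Clause n)} {lines : Finset (Finset (Asg n))} {rk : Finset (Asg n) → ℕ}

lemma down (hd : 2 ≤ d) (hΛ : 1 ≤ Λ) (hG : G = R₂ * Λ) (hR₂ : Λ * R ≤ R₂) (hR : 2 ≤ R)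
    (hgood : ∀ e x y, Agree blk e x y → good e x → good e y)
    (hev : ∀ J W, IsAffine W → W.Nonempty → Pre blk E R₂ R d Θ G J W →
      Event blk E R₂ good Λ J W)
    (hF : ∀ C ∈ F, ∃ e ∈ E, ∃ p, ¬ good e p ∧ ∀ x, FalseAt C x → Agree blk e p x)
    (hRL : ResLin F lines rk) :
    ∀ m : ℕ, ∀ B ∈ lines, rk B = m → ∀ J V, State blk E good R J V → IsAffine V → V.Nonempty →
      V ⊆ B → Θ * 2 ^ (m + 1) ≤ V.card * G ^ J.card → False := by
  intro m
  induction m using Nat.strong_induction_on with
  | _ m ih =>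
    intro B hB hm J V hSt hV hne hVB hbig
    rcases hRL.step B hB with ⟨C, hC, hall⟩ | ⟨B₀, hB₀, B₁, hB₁, hcov, hr0, hr1⟩
    · exact leaf_contra hR hgood hF hSt hne hC (fun x hx => hall x (hVB hx))
    · have hpow : ∀ k, k < m → Θ * 2 ^ (k + 1) ≤ Θ * 2 ^ m := fun k hk =>
        Nat.mul_le_mul_left _ (Nat.pow_le_pow_right (by norm_num) hk)
      have hpow2 : Θ * 2 ^ m * 2 = Θ * 2 ^ (m + 1) := by rw [pow_succ]; ring
      have hΘ : Θ ≤ V.card * G ^ J.card := by
        refine le_trans ?_ hbig
        exact Nat.le_mul_of_pos_right _ (by positivity)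
      by_cases hV0 : V ⊆ B₀
      · refine ih (rk B₀) (by omega) B₀ hB₀ rfl J V hSt hV hne hV0 ?_
        have := hpow (rk B₀) (by omega)
        omega
      · by_cases hV1 : V ⊆ B₁
        · refine ih (rk B₁) (by omega) B₁ hB₁ rfl J V hSt hV hne hV1 ?_
          have := hpow (rk B₁) (by omega)
          omega
        · obtain ⟨_, h2, _⟩ := cover_halves hV (hRL.affine B₀ hB₀) (hRL.affine B₁ hB₁)
            (hVB.trans hcov) hV0 hV1
          have hVpos : 0 < V.card := Finset.card_pos.2 hne
          obtain ⟨K, V', hV'W, hne', hV', hSt', hc'⟩ := aff_step (V := V) hd hΛ hG hR₂ hgood hev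
            hSt (Finset.inter_subset_left (s₂ := B₀)) (hV.inter (hRL.affine B₀ hB₀))
            (Finset.card_pos.1 (by omega)) (by omega) hΘ
          refine ih (rk B₀) (by omega) B₀ hB₀ rfl K V' hSt' hV' hne'
            (hV'W.trans Finset.inter_subset_right) ?_
          have h3 := hpow (rk B₀) (by omega)
          have h4 : 2 * ((V ∩ B₀).card * G ^ J.card) = V.card * G ^ J.card := by
            rw [← h2]; ring
          omega

lemma bottom (hd : 2 ≤ d) (hΛ : 1 ≤ Λ) (hG : G = R₂ * Λ) (hR₂ : Λ * R ≤ R₂) (hR : 2 ≤ R)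
    (hgood : ∀ e x y, Agree blk e x y → good e x → good e y)
    (hev : ∀ J W, IsAffine W → W.Nonempty → Pre blk E R₂ R d Θ G J W →
      Event blk E R₂ good Λ J W)
    (hF : ∀ C ∈ F, ∃ e ∈ E, ∃ p, ¬ good e p ∧ ∀ x, FalseAt C x → Agree blk e p x)
    (hRL : ResLin F lines rk) {B : Finset (Asg n)} (hB : B ∈ lines)
    {J₁ : Finset (Fin N)} {V₁ : Finset (Asg n)} (hSt : State blk E good R J₁ V₁)
    (hne : V₁.Nonempty) (hVB : V₁ ⊆ B) : B.card < Θ * 2 ^ (rk B + 1) := by
  classical
  by_contra hcon
  push Not at hcon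
  obtain ⟨x, hx⟩ := hne
  have hxB : x ∈ B := hVB hx
  have hBaff : IsAffine B := hRL.affine B hB
  have hR₂1 : 1 ≤ R₂ := le_trans (Nat.mul_pos hΛ (by omega)) hR₂
  have hRR₂ : R ≤ R₂ := le_trans (Nat.le_mul_of_pos_left R hΛ) hR₂
  have hR₂G : R₂ ≤ G := by rw [hG]; exact Nat.le_mul_of_pos_right _ hΛ
  set S : Finset (Finset (Fin N)) := Finset.univ.filter (fun K =>
    K ⊆ J₁ ∧ B.card ≤ R₂ ^ K.card * (cell blk B K x).card) with hS
  have hemp : ∅ ∈ S := by
    simp only [hS, Finset.mem_filter, Finset.mem_univ, true_and, Finset.empty_subset,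
      Finset.card_empty, pow_zero, one_mul]
    apply Finset.card_le_card
    intro y hy
    exact mem_cell.2 ⟨hy, fun v hv => by simp at hv⟩
  obtain ⟨J', hJ', hmax⟩ := Finset.exists_max_image S Finset.card ⟨∅, hemp⟩
  simp only [hS, Finset.mem_filter, Finset.mem_univ, true_and] at hJ'
  obtain ⟨hJ'1, hJ'2⟩ := hJ'
  set V' := cell blk B J' x with hV'def
  have hV'aff : IsAffine V' := isAffine_cell hBaff J' x
  have hxV' : x ∈ V' := self_mem_cell blk hxB J'
  have hcellV' : ∀ e, cell blk V' e x = cell blk B (J' ∪ e) x := by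
    intro e
    ext y
    rw [mem_cell, hV'def, mem_cell, mem_cell]
    constructor
    · rintro ⟨⟨h1, h2⟩, h3⟩; exact ⟨h1, h2.union h3⟩
    · rintro ⟨h1, h2⟩
      exact ⟨⟨h1, h2.mono Finset.subset_union_left⟩, h2.mono Finset.subset_union_right⟩
  have hV₁V' : V₁ ⊆ V' := fun y hy =>
    mem_cell.2 ⟨hVB hy, (hSt.fixed x hx y hy).mono hJ'1⟩
  have hSt' : State blk E good R J' V' := by
    refine ⟨?_, ?_, ?_⟩
    · intro y hy z hz
      exact (mem_cell.1 hy).2.symm.trans (mem_cell.1 hz).2
    · intro y hy e he heJ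
      have h1 : good e x := hSt.sat x hx e he (heJ.trans hJ'1)
      exact hgood e x y ((mem_cell.1 hy).2.mono heJ) h1
    · intro e he heJ y hy
      rw [affine_cell_card hV'aff e hy hxV']
      by_cases heJ₁ : e ⊆ J₁
      · rw [hcellV']
        by_contra hc
        push Not at hc
        have hlt : J' ⊂ J' ∪ e := by
          rw [Finset.ssubset_iff_subset_ne]
          refine ⟨Finset.subset_union_left, ?_⟩
          intro h
          exact heJ (Finset.union_eq_left.1 h.symm)
        have hlt' := Finset.card_lt_card hlt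
        have hmem : J' ∪ e ∈ S := by
          simp only [hS, Finset.mem_filter, Finset.mem_univ, true_and]
          refine ⟨Finset.union_subset hJ'1 heJ₁, ?_⟩
          calc B.card ≤ R₂ ^ J'.card * (cell blk B J' x).card := hJ'2
            _ ≤ R₂ ^ J'.card * (R₂ * (cell blk B (J' ∪ e) x).card) := by
                apply Nat.mul_le_mul_left
                exact hc.le.trans (Nat.mul_le_mul_right _ hRR₂)
            _ = R₂ ^ (J'.card + 1) * (cell blk B (J' ∪ e) x).card := by ring
            _ ≤ _ := Nat.mul_le_mul_right _ (Nat.pow_le_pow_right hR₂1 hlt')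
        have := hmax _ hmem
        omega
      · -- counting patterns
        have hp1 : R ≤ (V₁.image (mask blk e)).card := by
          have h1 : R * V₁.card ≤ (V₁.image (mask blk e)).card * V₁.card := by
            calc R * V₁.card
                = R * ∑ m ∈ V₁.image (mask blk e),
                    (V₁.filter (fun z => mask blk e z = m)).card := by
                  rw [← Finset.card_eq_sum_card_image]
              _ = ∑ m ∈ V₁.image (mask blk e),
                    R * (V₁.filter (fun z => mask blk e z = m)).card := Finset.mul_sum _ _ _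
              _ ≤ ∑ m ∈ V₁.image (mask blk e), V₁.card := by
                  apply Finset.sum_le_sum
                  intro m hm
                  obtain ⟨z, hz, rfl⟩ := Finset.mem_image.1 hm
                  have h2 : V₁.filter (fun z' => mask blk e z' = mask blk e z)
                      = cell blk V₁ e z := by
                    ext y
                    rw [mem_cell, Finset.mem_filter, mask_eq_iff]
                  rw [h2]
                  exact hSt.spread e he heJ₁ z hz
              _ = _ := by rw [Finset.sum_const, smul_eq_mul]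
          exact Nat.le_of_mul_le_mul_right h1 (Finset.card_pos.2 ⟨x, hx⟩)
        have hp2 : (V₁.image (mask blk e)).card * (cell blk V' e x).card ≤ V'.card := by
          calc (V₁.image (mask blk e)).card * (cell blk V' e x).card
              = ∑ m ∈ V₁.image (mask blk e), (cell blk V' e x).card := by
                rw [Finset.sum_const, smul_eq_mul]
            _ = ∑ m ∈ V₁.image (mask blk e), (V'.filter (fun z => mask blk e z = m)).card := by
                apply Finset.sum_congr rfl
                intro m hm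
                obtain ⟨z, hz, rfl⟩ := Finset.mem_image.1 hm
                have h2 : V'.filter (fun z' => mask blk e z' = mask blk e z)
                    = cell blk V' e z := by
                  ext y
                  rw [mem_cell, Finset.mem_filter, mask_eq_iff]
                rw [h2]
                exact affine_cell_card hV'aff e hxV' (hV₁V' hz)
            _ ≤ ∑ m ∈ V'.image (mask blk e), (V'.filter (fun z => mask blk e z = m)).card :=
                Finset.sum_le_sum_of_subset (Finset.image_subset_image hV₁V')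
            _ = V'.card := (Finset.card_eq_sum_card_image _ _).symm
        exact (Nat.mul_le_mul_right _ hp1).trans hp2
  refine down hd hΛ hG hR₂ hR hgood hev hF hRL (rk B) B hB rfl J' V' hSt' hV'aff ⟨x, hxV'⟩
    (cell_subset _ _ _ _) ?_
  calc Θ * 2 ^ (rk B + 1) ≤ B.card := hcon
    _ ≤ R₂ ^ J'.card * V'.card := hJ'2
    _ ≤ G ^ J'.card * V'.card := Nat.mul_le_mul_right _ (Nat.pow_le_pow_left hR₂G _)
    _ = V'.card * G ^ J'.card := mul_comm _ _

lemma top (hd : 2 ≤ d) (hΛ : 1 ≤ Λ) (hG : G = R₂ * Λ) (hR₂ : Λ * R ≤ R₂) (hR : 2 ≤ R)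
    (hgood : ∀ e x y, Agree blk e x y → good e x → good e y)
    (hev : ∀ J W, IsAffine W → W.Nonempty → Pre blk E R₂ R d Θ G J W →
      Event blk E R₂ good Λ J W)
    (hF : ∀ C ∈ F, ∃ e ∈ E, ∃ p, ¬ good e p ∧ ∀ x, FalseAt C x → Agree blk e p x)
    (hRL : ResLin F lines rk) (D : ℕ) :
    ∀ m : ℕ, ∀ B ∈ lines, rk B = m → ∀ J V, State blk E good R J V → IsAffine V → V.Nonempty →
      V ⊆ B → 2 ^ n * 2 ^ m ≤ V.card * G ^ J.card * 2 ^ D →
      ∃ P : Finset (Asg n), P ⊆ V ∧ V.card * G ^ J.card ≤ P.card * Θ ∧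
        ∀ x ∈ P, ∃ B' ∈ lines, x ∈ B' ∧ B'.card * 2 ^ n ≤ 2 * Θ ^ 2 * 2 ^ D := by
  classical
  intro m
  induction m using Nat.strong_induction_on with
  | _ m ih =>
    intro B hB hm J V hSt hV hne hVB hinv
    rcases le_or_gt (V.card * G ^ J.card) Θ with hstop | hbig
    · obtain ⟨x, hx⟩ := hne
      refine ⟨{x}, by simpa using hx, by simpa using hstop, ?_⟩
      intro y hy
      rw [Finset.mem_singleton] at hy
      subst hy
      refine ⟨B, hB, hVB hx, ?_⟩
      have h1 := bottom hd hΛ hG hR₂ hR hgood hev hF hRL hB hSt ⟨y, hx⟩ hVB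
      rw [hm] at h1
      calc B.card * 2 ^ n ≤ (Θ * 2 ^ (m + 1)) * 2 ^ n := Nat.mul_le_mul_right _ h1.le
        _ = 2 * Θ * (2 ^ n * 2 ^ m) := by rw [pow_succ]; ring
        _ ≤ 2 * Θ * (V.card * G ^ J.card * 2 ^ D) := Nat.mul_le_mul_left _ hinv
        _ ≤ 2 * Θ * (Θ * 2 ^ D) := by
            apply Nat.mul_le_mul_left
            exact Nat.mul_le_mul_right _ hstop
        _ = _ := by ring
    · rcases hRL.step B hB with ⟨C, hC, hall⟩ | ⟨B₀, hB₀, B₁, hB₁, hcov, hr0, hr1⟩
      · exact (leaf_contra hR hgood hF hSt hne hC (fun x hx => hall x (hVB hx))).elim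
      · have hpow : ∀ k, k < m → 2 ^ n * 2 ^ k * 2 ≤ 2 ^ n * 2 ^ m := by
          intro k hk
          calc 2 ^ n * 2 ^ k * 2 = 2 ^ n * 2 ^ (k + 1) := by rw [pow_succ]; ring
            _ ≤ _ := Nat.mul_le_mul_left _ (Nat.pow_le_pow_right (by norm_num) hk)
        by_cases hV0 : V ⊆ B₀
        · refine ih (rk B₀) (by omega) B₀ hB₀ rfl J V hSt hV hne hV0 ?_
          have := hpow (rk B₀) (by omega)
          omega
        · by_cases hV1 : V ⊆ B₁
          · refine ih (rk B₁) (by omega) B₁ hB₁ rfl J V hSt hV hne hV1 ?_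
            have := hpow (rk B₁) (by omega)
            omega
          · obtain ⟨hdisj, h2, h3⟩ := cover_halves hV (hRL.affine B₀ hB₀) (hRL.affine B₁ hB₁)
              (hVB.trans hcov) hV0 hV1
            have hVpos : 0 < V.card := Finset.card_pos.2 hne
            obtain ⟨K₀, V₀, hV₀W, hne₀, hV₀, hSt₀, hc₀⟩ := aff_step (V := V) hd hΛ hG hR₂ hgood
              hev hSt (Finset.inter_subset_left (s₂ := B₀)) (hV.inter (hRL.affine B₀ hB₀))
              (Finset.card_pos.1 (by omega)) (by omega) hbig.le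
            obtain ⟨K₁, V₁, hV₁W, hne₁, hV₁, hSt₁, hc₁⟩ := aff_step (V := V) hd hΛ hG hR₂ hgood
              hev hSt (Finset.inter_subset_left (s₂ := B₁)) (hV.inter (hRL.affine B₁ hB₁))
              (Finset.card_pos.1 (by omega)) (by omega) hbig.le
            have e0 : 2 * ((V ∩ B₀).card * G ^ J.card) = V.card * G ^ J.card := by
              rw [← h2]; ring
            have e1 : 2 * ((V ∩ B₁).card * G ^ J.card) = V.card * G ^ J.card := by
              rw [← h3]; ring
            have f0 : 2 ^ n * 2 ^ rk B₀ ≤ V₀.card * G ^ K₀.card * 2 ^ D := by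
              have h4 := hpow (rk B₀) (by omega)
              have h5 : (V ∩ B₀).card * G ^ J.card * 2 ^ D ≤ V₀.card * G ^ K₀.card * 2 ^ D :=
                Nat.mul_le_mul_right _ hc₀
              have h6 : 2 * ((V ∩ B₀).card * G ^ J.card * 2 ^ D) = V.card * G ^ J.card * 2 ^ D := by
                rw [← e0]; ring
              omega
            have f1 : 2 ^ n * 2 ^ rk B₁ ≤ V₁.card * G ^ K₁.card * 2 ^ D := by
              have h4 := hpow (rk B₁) (by omega)
              have h5 : (V ∩ B₁).card * G ^ J.card * 2 ^ D ≤ V₁.card * G ^ K₁.card * 2 ^ D :=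
                Nat.mul_le_mul_right _ hc₁
              have h6 : 2 * ((V ∩ B₁).card * G ^ J.card * 2 ^ D) = V.card * G ^ J.card * 2 ^ D := by
                rw [← e1]; ring
              omega
            obtain ⟨P₀, hP₀V, hP₀c, hP₀⟩ := ih (rk B₀) (by omega) B₀ hB₀ rfl K₀ V₀ hSt₀ hV₀ hne₀
              (hV₀W.trans Finset.inter_subset_right) f0
            obtain ⟨P₁, hP₁V, hP₁c, hP₁⟩ := ih (rk B₁) (by omega) B₁ hB₁ rfl K₁ V₁ hSt₁ hV₁ hne₁
              (hV₁W.trans Finset.inter_subset_right) f1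
            refine ⟨P₀ ∪ P₁, ?_, ?_, ?_⟩
            · exact Finset.union_subset
                ((hP₀V.trans hV₀W).trans Finset.inter_subset_left)
                ((hP₁V.trans hV₁W).trans Finset.inter_subset_left)
            · have hd' : Disjoint P₀ P₁ := Finset.disjoint_of_subset_left (hP₀V.trans hV₀W)
                (Finset.disjoint_of_subset_right (hP₁V.trans hV₁W) hdisj)
              rw [Finset.card_union_of_disjoint hd']
              calc V.card * G ^ J.card
                  = (V ∩ B₀).card * G ^ J.card + (V ∩ B₁).card * G ^ J.card := by omega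
                _ ≤ P₀.card * Θ + P₁.card * Θ := add_le_add (hc₀.trans hP₀c) (hc₁.trans hP₁c)
                _ = _ := by ring
            · intro y hy
              rcases Finset.mem_union.1 hy with h | h
              · exact hP₀ y h
              · exact hP₁ y h

/-- The size-depth bound under the good event. -/
theorem size_depth (hd : 2 ≤ d) (hΛ : 1 ≤ Λ) (hG : G = R₂ * Λ) (hR₂ : Λ * R ≤ R₂) (hR : 2 ≤ R)
    (hgood : ∀ e x y, Agree blk e x y → good e x → good e y)
    (hev : ∀ J W, IsAffine W → W.Nonempty → Pre blk E R₂ R d Θ G J W →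
      Event blk E R₂ good Λ J W)
    (hF : ∀ C ∈ F, ∃ e ∈ E, ∃ p, ¬ good e p ∧ ∀ x, FalseAt C x → Agree blk e p x)
    (hroot : State blk E good R ∅ (Finset.univ : Finset (Asg n)))
    (hRL : ResLin F lines rk) :
    2 ^ n * 2 ^ n ≤ lines.card * 2 ^ (rk Finset.univ) * (2 * Θ ^ 3) := by
  classical
  have hcard : (Finset.univ : Finset (Asg n)).card = 2 ^ n := by simp
  obtain ⟨P, _, hPc, hP⟩ := top hd hΛ hG hR₂ hR hgood hev hF hRL (rk Finset.univ)
    (rk Finset.univ) Finset.univ hRL.last rfl ∅ Finset.univ hroot (fun _ _ _ _ _ _ => Finset.mem_univ _)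
    Finset.univ_nonempty (Finset.subset_univ _) (by rw [hcard]; simp)
  rw [hcard, Finset.card_empty, pow_zero, mul_one] at hPc
  have hsub : P ⊆ (lines.filter (fun B' => B'.card * 2 ^ n ≤ 2 * Θ ^ 2 * 2 ^ (rk Finset.univ))).biUnion
      (fun B => B) := by
    intro x hx
    obtain ⟨B', h1, h2, h3⟩ := hP x hx
    rw [Finset.mem_biUnion]
    exact ⟨B', Finset.mem_filter.2 ⟨h1, h3⟩, h2⟩
  have h1 : P.card * 2 ^ n ≤ lines.card * (2 * Θ ^ 2 * 2 ^ (rk Finset.univ)) := by
    calc P.card * 2 ^ n ≤ (∑ B' ∈ lines.filter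
            (fun B' => B'.card * 2 ^ n ≤ 2 * Θ ^ 2 * 2 ^ (rk Finset.univ)), B'.card) * 2 ^ n :=
          Nat.mul_le_mul_right _ ((Finset.card_le_card hsub).trans Finset.card_biUnion_le)
      _ = ∑ B' ∈ lines.filter
            (fun B' => B'.card * 2 ^ n ≤ 2 * Θ ^ 2 * 2 ^ (rk Finset.univ)), B'.card * 2 ^ n :=
          Finset.sum_mul _ _ _
      _ ≤ ∑ B' ∈ lines.filter
            (fun B' => B'.card * 2 ^ n ≤ 2 * Θ ^ 2 * 2 ^ (rk Finset.univ)),
              2 * Θ ^ 2 * 2 ^ (rk Finset.univ) :=
          Finset.sum_le_sum (fun B' hB' => (Finset.mem_filter.1 hB').2)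
      _ = (lines.filter
            (fun B' => B'.card * 2 ^ n ≤ 2 * Θ ^ 2 * 2 ^ (rk Finset.univ))).card
            * (2 * Θ ^ 2 * 2 ^ (rk Finset.univ)) := by rw [Finset.sum_const, smul_eq_mul]
      _ ≤ _ := Nat.mul_le_mul_right _ (Finset.card_filter_le _ _)
  calc 2 ^ n * 2 ^ n ≤ (P.card * Θ) * 2 ^ n := Nat.mul_le_mul_right _ hPc
    _ = (P.card * 2 ^ n) * Θ := by ring
    _ ≤ (lines.card * (2 * Θ ^ 2 * 2 ^ (rk Finset.univ))) * Θ := Nat.mul_le_mul_right _ h1
    _ = _ := by ring

end process

end Pool.Agent.H538R2.SB
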