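import Mathlib
import Pool.Agent.H538R2.SBFinal
import Pool.Agent.H538R2.RLMain

/-!
Choice of the parameters and the final statement for resolution over parities.
-/

namespace Pool.Agent.H538R2.SB

open Finset Filter Topology

variable {n N : ℕ}

/-- choice of the parameters -/
lemma params (β : ℝ) (hβ0 : 0 < β) (hβ2 : β < 2) (c : ℕ) :
    ∃ N t : ℕ, 0 < N ∧ 1 ≤ t ∧ t ≤ N ∧ ∃ n₀ : ℕ, ∀ n : ℕ, n₀ ≤ n → ∃ k θ w r : ℕ,
      N + n + 4 ≤ 2 ^ w ∧ r ≤ t * (n / N) ∧
      5 * w + 5 + N + ((n + 1) / (N.choose t) + 1) * (k.choose t) ≤ r ∧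
      n + (w + 2) + N * (2 * (N + 1 + (w + 2)) + r) < θ + (k + 1) * (n / N) ∧
      β ^ n * (((n : ℝ) + 1) ^ 2 * 2 ^ (N + t * (n / N + 1) + 1)) ^ c * (2 * 2 ^ (3 * θ)) < 2 ^ n := by
  have hβh0 : 0 ≤ β / 2 := by linarith
  have hβh1 : β / 2 < 1 := by linarith
  -- the constant h
  obtain ⟨h, hh1, hh8⟩ : ∃ h : ℕ, 1 ≤ h ∧ (β / 2) ^ (2 * h) * 128 < 1 := by
    have h1 : Tendsto (fun m : ℕ => (β / 2) ^ m) atTop (𝓝 0) :=
      tendsto_pow_atTop_nhds_zero_of_lt_one hβh0 hβh1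
    have h2 : ∀ᶠ m : ℕ in atTop, (β / 2) ^ m < 1 / 128 := h1.eventually_lt_const (by norm_num)
    obtain ⟨m₀, hm₀⟩ := h2.exists_forall_of_atTop
    refine ⟨m₀ + 1, by omega, ?_⟩
    have := hm₀ (2 * (m₀ + 1)) (by omega)
    linarith
  have hhR : (1 : ℝ) ≤ h := by exact_mod_cast hh1
  set g₀ : ℕ := c + 1 with hg₀
  -- the constant t
  obtain ⟨t, ht1, htr⟩ : ∃ t : ℕ, 1 ≤ t ∧
      (2 * h * g₀ * t : ℝ) * (((2 * h - 1 : ℝ) / (2 * h)) ^ t) * (32 * h) ≤ 1 := by
    have hr0 : 0 ≤ (2 * h - 1 : ℝ) / (2 * h) := by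
      apply div_nonneg <;> linarith
    have hr1 : (2 * h - 1 : ℝ) / (2 * h) < 1 := by
      rw [div_lt_one (by linarith)]; linarith
    have h1 : Tendsto (fun m : ℕ => (m : ℝ) * ((2 * h - 1 : ℝ) / (2 * h)) ^ m) atTop (𝓝 0) :=
      tendsto_self_mul_const_pow_of_lt_one hr0 hr1
    have hpos : (0 : ℝ) < 1 / (2 * h * g₀ * (32 * h)) := by
      have : (0 : ℝ) < g₀ := by rw [hg₀]; positivity
      positivity
    have h2 : ∀ᶠ m : ℕ in atTop, (m : ℝ) * ((2 * h - 1 : ℝ) / (2 * h)) ^ m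
        < 1 / (2 * h * g₀ * (32 * h)) := h1.eventually_lt_const hpos
    obtain ⟨m₀, hm₀⟩ := h2.exists_forall_of_atTop
    refine ⟨m₀ + 1, by omega, ?_⟩
    have h3 := hm₀ (m₀ + 1) (by omega)
    have h4 : (0 : ℝ) < 2 * h * g₀ * (32 * h) := by
      have : (0 : ℝ) < g₀ := by rw [hg₀]; positivity
      positivity
    rw [lt_div_iff₀ h4] at h3
    have e : (2 * h * g₀ * ((m₀ + 1 : ℕ) : ℝ)) * (((2 * h - 1 : ℝ) / (2 * h)) ^ (m₀ + 1)) * (32 * h)
      = ((m₀ + 1 : ℕ) : ℝ) * ((2 * h - 1 : ℝ) / (2 * h)) ^ (m₀ + 1) * (2 * h * g₀ * (32 * h)) := by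
      ring
    rw [e]
    exact h3.le
  set N : ℕ := 2 * h * g₀ * t with hNdef
  set k : ℕ := (2 * h - 1) * g₀ * t with hkdef
  have hg1 : 1 ≤ g₀ := by omega
  have hgt : 1 ≤ g₀ * t := Nat.mul_pos hg1 ht1
  have hN : 0 < N := by
    rw [hNdef]; positivity
  have htN : t ≤ N := by
    rw [hNdef]
    exact Nat.le_mul_of_pos_left t (by positivity)
  have hkN : k + g₀ * t = N := by
    rw [hkdef, hNdef]
    obtain ⟨h', rfl⟩ : ∃ h', h = h' + 1 := ⟨h - 1, by omega⟩
    have : 2 * (h' + 1) - 1 = 2 * h' + 1 := by omega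
    rw [this]; ring
  set s := k.choose t with hs
  set M := N.choose t with hM
  have hMpos : 0 < M := Nat.choose_pos htN
  -- N * s / M ≤ 1 / (32 h)
  have hratio : (N : ℝ) * s * (32 * h) ≤ M := by
    have h1 : (s : ℝ) * (N : ℝ) ^ t ≤ M * (k : ℝ) ^ t := by
      exact_mod_cast choose_ratio (by omega : k ≤ N) t
    have hNR : (0 : ℝ) < N := by exact_mod_cast hN
    have h2 : (k : ℝ) / N = (2 * h - 1 : ℝ) / (2 * h) := by
      rw [hkdef, hNdef]
      have h2h : 1 ≤ 2 * h := by omega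
      push_cast [Nat.cast_sub h2h]
      have : (0 : ℝ) < g₀ := by exact_mod_cast hg1
      have : (0 : ℝ) < t := by exact_mod_cast ht1
      field_simp
    have h3 : (s : ℝ) ≤ M * ((2 * h - 1 : ℝ) / (2 * h)) ^ t := by
      rw [← h2, div_pow, mul_div_assoc', le_div_iff₀ (by positivity)]
      exact h1
    have h4 : (N : ℝ) = 2 * h * g₀ * t := by rw [hNdef]; push_cast; ring
    calc (N : ℝ) * s * (32 * h) ≤ N * (M * ((2 * h - 1 : ℝ) / (2 * h)) ^ t) * (32 * h) := by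
          apply mul_le_mul_of_nonneg_right _ (by positivity)
          exact mul_le_mul_of_nonneg_left h3 hNR.le
      _ = M * ((2 * h * g₀ * t : ℝ) * (((2 * h - 1 : ℝ) / (2 * h)) ^ t) * (32 * h)) := by
          rw [h4]; ring
      _ ≤ M * 1 := mul_le_mul_of_nonneg_left htr (by positivity)
      _ = M := mul_one _
  -- the asymptotic conditions
  obtain ⟨w₀, hw₀⟩ : ∃ w₀ : ℕ, ∀ w ≥ w₀, (164 * h * N * (w + 1) : ℕ) ≤ 2 ^ w := by
    have h1 : Tendsto (fun m : ℕ => (m : ℝ) * (1 / 2 : ℝ) ^ m) atTop (𝓝 0) :=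
      tendsto_self_mul_const_pow_of_lt_one (by norm_num) (by norm_num)
    have h2 : Tendsto (fun m : ℕ => (1 / 2 : ℝ) ^ m) atTop (𝓝 0) :=
      tendsto_pow_atTop_nhds_zero_of_lt_one (by norm_num) (by norm_num)
    have h3 : Tendsto (fun m : ℕ => (164 * h * N : ℝ) * ((m : ℝ) * (1 / 2 : ℝ) ^ m
        + (1 / 2 : ℝ) ^ m)) atTop (𝓝 ((164 * h * N : ℝ) * (0 + 0))) :=
      (h1.add h2).const_mul _
    rw [add_zero, mul_zero] at h3
    have h4 := h3.eventually_lt_const (show (0 : ℝ) < 1 by norm_num)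
    obtain ⟨m₀, hm₀⟩ := h4.exists_forall_of_atTop
    refine ⟨m₀, fun w hw => ?_⟩
    have h5 := hm₀ w hw
    have h6 : (164 * h * N : ℝ) * ((w : ℝ) * (1 / 2 : ℝ) ^ w + (1 / 2 : ℝ) ^ w)
        = (164 * h * N * (w + 1) : ℝ) / 2 ^ w := by
      rw [one_div, inv_pow]
      field_simp
    rw [h6, div_lt_one (by positivity)] at h5
    have h7 : ((164 * h * N * (w + 1) : ℕ) : ℝ) ≤ ((2 ^ w : ℕ) : ℝ) := by
      push_cast; linarith
    exact_mod_cast h7
  set ρ : ℝ := ((β / 2) ^ (2 * h) * 128) ^ (g₀ * t) with hρ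
  have hρ0 : 0 ≤ ρ := by rw [hρ]; positivity
  have hρ1 : ρ < 1 := by
    rw [hρ]
    apply pow_lt_one₀ (by positivity) hh8 (by omega)
  obtain ⟨b₁, hb₁⟩ : ∃ b₁ : ℕ, ∀ b ≥ b₁,
      ρ ^ b * ((N : ℝ) * (b + 1)) ^ (2 * c) * 2 ^ (c * (N + t + 1) + 1) < 1 := by
    have h1 : Tendsto (fun m : ℕ => (m : ℝ) ^ (2 * c) * ρ ^ m) atTop (𝓝 0) :=
      tendsto_pow_const_mul_const_pow_of_lt_one (2 * c) hρ0 hρ1
    have h2 : Tendsto (fun m : ℕ => ((m : ℝ) ^ (2 * c) * ρ ^ m)
        * ((2 * N : ℝ) ^ (2 * c) * 2 ^ (c * (N + t + 1) + 1))) atTop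
        (𝓝 (0 * ((2 * N : ℝ) ^ (2 * c) * 2 ^ (c * (N + t + 1) + 1)))) := h1.mul_const _
    rw [zero_mul] at h2
    have h3 := h2.eventually_lt_const (show (0 : ℝ) < 1 by norm_num)
    obtain ⟨m₀, hm₀⟩ := h3.exists_forall_of_atTop
    refine ⟨m₀ + 1, fun b hb => ?_⟩
    have h4 := hm₀ b (by omega)
    have hb1 : (1 : ℝ) ≤ b := by
      have : 1 ≤ b := by omega
      exact_mod_cast this
    have h5 : ((N : ℝ) * (b + 1)) ^ (2 * c) ≤ (b : ℝ) ^ (2 * c) * (2 * N : ℝ) ^ (2 * c) := by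
      rw [← mul_pow]
      apply pow_le_pow_left₀ (by positivity)
      have : (0 : ℝ) ≤ N := by positivity
      nlinarith
    calc ρ ^ b * ((N : ℝ) * (b + 1)) ^ (2 * c) * 2 ^ (c * (N + t + 1) + 1)
        ≤ ρ ^ b * ((b : ℝ) ^ (2 * c) * (2 * N : ℝ) ^ (2 * c)) * 2 ^ (c * (N + t + 1) + 1) := by
          apply mul_le_mul_of_nonneg_right _ (by positivity)
          exact mul_le_mul_of_nonneg_left h5 (by positivity)
      _ = ((b : ℝ) ^ (2 * c) * ρ ^ b)
        * ((2 * N : ℝ) ^ (2 * c) * 2 ^ (c * (N + t + 1) + 1)) := by ring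
      _ < 1 := h4
  have hNR : (0 : ℝ) < N := by exact_mod_cast hN
  -- thresholds
  set B₀ : ℕ := 16 * h * (8 + N + s) + (N + 2 + N * (2 * N + 6)) + 160 * h * w₀ + b₁ + 1 with hB₀
  refine ⟨N, t, hN, ht1, htN, N * B₀, ?_⟩
  intro n hn
  set b := n / N with hb
  have hbB : B₀ ≤ b := by
    rw [hb, Nat.le_div_iff_mul_le hN]
    calc B₀ * N = N * B₀ := mul_comm _ _
      _ ≤ n := by omega
  have hNb : N * b ≤ n := Nat.mul_div_le n N
  have hnb : n < N * (b + 1) := by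
    rw [hb]; exact Nat.lt_mul_div_succ n hN
  set r := b / (8 * h) with hr
  set w := b / (160 * h) with hw
  set θ := 2 * g₀ * t * b with hθ
  have h8h : 0 < 8 * h := by positivity
  have h160h : 0 < 160 * h := by positivity
  have hr_le : 8 * h * r ≤ b := Nat.mul_div_le _ _
  have hr_ge : b < 8 * h * (r + 1) := Nat.lt_mul_div_succ b h8h
  have hw_le : 160 * h * w ≤ b := Nat.mul_div_le _ _
  have hw_ge : b < 160 * h * (w + 1) := Nat.lt_mul_div_succ b h160h
  have hww₀ : w₀ ≤ w := by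
    rw [hw, Nat.le_div_iff_mul_le h160h]
    calc w₀ * (160 * h) = 160 * h * w₀ := mul_comm _ _
      _ ≤ b := by omega
  have hbB₁ : 16 * h * (8 + N + s) ≤ b := by omega
  have hbB₂ : N + 2 + N * (2 * N + 6) < b := by omega
  have hbB₃ : b₁ ≤ b := by omega
  -- condition hw
  have cw : N + n + 4 ≤ 2 ^ w := by
    refine le_trans ?_ (hw₀ w hww₀)
    have h1 : n + 1 ≤ N * (160 * h * (w + 1)) := by
      calc n + 1 ≤ N * (b + 1) := hnb
        _ ≤ N * (160 * h * (w + 1)) := Nat.mul_le_mul_left _ hw_ge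
    have h2 : N + 3 ≤ N * (4 * h * (w + 1)) := by
      have h3 : 4 ≤ 4 * h * (w + 1) := by
        calc 4 = 4 * 1 * 1 := by norm_num
          _ ≤ 4 * h * (w + 1) := Nat.mul_le_mul (Nat.mul_le_mul_left _ hh1) (by omega)
      have h4 : N * 4 ≤ N * (4 * h * (w + 1)) := Nat.mul_le_mul_left _ h3
      omega
    have h5 : 164 * h * N * (w + 1) = N * (160 * h * (w + 1)) + N * (4 * h * (w + 1)) := by ring
    omega
  -- real versions
  have hbR1 : (16 * h * (8 + N + s) : ℝ) ≤ b := by exact_mod_cast hbB₁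
  have hbR2 : (N + 2 + N * (2 * N + 6) : ℝ) < b := by exact_mod_cast hbB₂
  have hr_leR : (8 * h * r : ℝ) ≤ b := by exact_mod_cast hr_le
  have hr_geR : (b : ℝ) < 8 * h * (r + 1) := by exact_mod_cast hr_ge
  have hw_leR : (160 * h * w : ℝ) ≤ b := by exact_mod_cast hw_le
  have hw_geR : (b : ℝ) < 160 * h * (w + 1) := by exact_mod_cast hw_ge
  have hnbR : (n : ℝ) + 1 ≤ N * (b + 1) := by exact_mod_cast hnb
  have hNbR : (N : ℝ) * b ≤ n := by exact_mod_cast hNb
  -- condition hC1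
  have cC1 : 5 * w + 5 + N + ((n + 1) / M + 1) * s ≤ r := by
    have h1 : (((n + 1) / M : ℕ) : ℝ) ≤ (n + 1) / M := by
      have := @Nat.cast_div_le ℝ _ _ _ (n + 1) M
      push_cast at this
      exact this
    have hMR : (0 : ℝ) < M := by exact_mod_cast hMpos
    have hs0 : (0 : ℝ) ≤ s := by positivity
    have h2 : ((((n + 1) / M : ℕ) : ℝ)) * s * (32 * h) ≤ b + 1 := by
      calc ((((n + 1) / M : ℕ) : ℝ)) * s * (32 * h)
          ≤ ((n + 1) / M) * s * (32 * h) := by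
            apply mul_le_mul_of_nonneg_right _ (by positivity)
            exact mul_le_mul_of_nonneg_right h1 hs0
        _ ≤ (N * (b + 1) / M) * s * (32 * h) := by
            apply mul_le_mul_of_nonneg_right _ (by positivity)
            apply mul_le_mul_of_nonneg_right _ hs0
            exact div_le_div_of_nonneg_right hnbR hMR.le
        _ = (b + 1) * (((N : ℝ) * s * (32 * h)) / M) := by ring
        _ ≤ (b + 1) * 1 := by
            apply mul_le_mul_of_nonneg_left _ (by positivity)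
            rw [div_le_one hMR]; exact hratio
        _ = b + 1 := mul_one _
    have h3 : (((5 * w + 5 + N + ((n + 1) / M + 1) * s : ℕ) : ℝ)) ≤ (r : ℝ) := by
      push_cast
      have e1 : ((((n + 1) / M : ℕ) : ℝ) + 1) * s = ((((n + 1) / M : ℕ) : ℝ)) * s + s := by ring
      rw [e1]
      exact aux_c1 hhR hbR1 hr_geR hw_leR h2
    exact_mod_cast h3
  -- condition hC2
  have cC2 : n + (w + 2) + N * (2 * (N + 1 + (w + 2)) + r) < θ + (k + 1) * b := by
    have hk' : (k : ℝ) + g₀ * t = N := by exact_mod_cast hkN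
    have hN' : (N : ℝ) = 2 * h * (g₀ * t) := by rw [hNdef]; push_cast; ring
    have hgtR : (1 : ℝ) ≤ g₀ * t := by exact_mod_cast hgt
    have h3 : ((n + (w + 2) + N * (2 * (N + 1 + (w + 2)) + r) : ℕ) : ℝ)
        < ((θ + (k + 1) * b : ℕ) : ℝ) := by
      push_cast
      exact aux_c2 (gt := (g₀ * t : ℝ)) hhR hgtR hN' (by linarith) (by rw [hθ]; push_cast; ring)
        (by positivity) hr_leR hw_leR (by positivity) hnbR hbR2
    exact_mod_cast h3
  have croot : r ≤ t * b := by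
    calc r ≤ b := by rw [hr]; exact Nat.div_le_self _ _
      _ ≤ t * b := Nat.le_mul_of_pos_left b ht1
  refine ⟨k, θ, w, r, cw, croot, cC1, cC2, ?_⟩
  have hb₁' := hb₁ b hbB₃
  have h1 : β ^ n = (β / 2) ^ n * 2 ^ n := by
    rw [← mul_pow]; congr 1; ring
  have h2 : (((n : ℝ) + 1) ^ 2 * 2 ^ (N + t * (b + 1) + 1)) ^ c ≤ ((N : ℝ) * (b + 1)) ^ (2 * c)
      * (2 ^ (c * (N + t + 1)) * 2 ^ (c * t * b)) := by
    calc (((n : ℝ) + 1) ^ 2 * 2 ^ (N + t * (b + 1) + 1)) ^ c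
        = (n + 1 : ℝ) ^ (2 * c) * (2 ^ (c * (N + t + 1)) * 2 ^ (c * t * b)) := by
          rw [mul_pow, ← pow_mul, ← pow_mul, ← pow_add]
          congr 2
          ring
      _ ≤ _ := by
          apply mul_le_mul_of_nonneg_right _ (by positivity)
          exact pow_le_pow_left₀ (by positivity) hnbR _
  have h3 : (β / 2) ^ n ≤ (β / 2) ^ (N * b) := pow_le_pow_of_le_one hβh0 hβh1.le hNb
  have h4 : (2 : ℝ) ^ (c * t * b) * 2 ^ (3 * θ) ≤ 128 ^ (g₀ * t * b) := by
    rw [← pow_add, show (128 : ℝ) = 2 ^ 7 by norm_num, ← pow_mul]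
    apply pow_le_pow_right₀ (by norm_num)
    rw [hθ, hg₀]
    nlinarith [Nat.zero_le (t * b)]
  have h5 : (β / 2) ^ (N * b) * 128 ^ (g₀ * t * b) = ρ ^ b := by
    rw [hρ, ← pow_mul, mul_pow, ← pow_mul]
    congr 2
    rw [hNdef]; ring
  have hpos2 : (0 : ℝ) < 2 ^ n := by positivity
  calc β ^ n * (((n : ℝ) + 1) ^ 2 * 2 ^ (N + t * (b + 1) + 1)) ^ c * (2 * 2 ^ (3 * θ))
      ≤ ((β / 2) ^ (N * b) * 2 ^ n) * (((N : ℝ) * (b + 1)) ^ (2 * c)
        * (2 ^ (c * (N + t + 1)) * 2 ^ (c * t * b))) * (2 * 2 ^ (3 * θ)) := by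
        apply mul_le_mul_of_nonneg_right _ (by positivity)
        apply mul_le_mul _ h2 (by positivity) (by positivity)
        rw [h1]
        exact mul_le_mul_of_nonneg_right h3 hpos2.le
    _ = ((β / 2) ^ (N * b) * (2 ^ (c * t * b) * 2 ^ (3 * θ))) * ((N : ℝ) * (b + 1)) ^ (2 * c)
        * 2 ^ (c * (N + t + 1) + 1) * 2 ^ n := by
        rw [pow_succ (2 : ℝ) (c * (N + t + 1))]; ring
    _ ≤ ((β / 2) ^ (N * b) * 128 ^ (g₀ * t * b)) * ((N : ℝ) * (b + 1)) ^ (2 * c)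
        * 2 ^ (c * (N + t + 1) + 1) * 2 ^ n := by
        apply mul_le_mul_of_nonneg_right _ hpos2.le
        apply mul_le_mul_of_nonneg_right _ (by positivity)
        apply mul_le_mul_of_nonneg_right _ (by positivity)
        exact mul_le_mul_of_nonneg_left h4 (by positivity)
    _ = (ρ ^ b * ((N : ℝ) * (b + 1)) ^ (2 * c) * 2 ^ (c * (N + t + 1) + 1)) * 2 ^ n := by
        rw [h5]
    _ < 1 * 2 ^ n := mul_lt_mul_of_pos_right hb₁' hpos2
    _ = 2 ^ n := one_mul _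

/-- Exponent form for resolution over parities. -/
theorem exponent_form_RL {t k θ w r : ℕ} (hN : 0 < N) (ht : 1 ≤ t) (htN : t ≤ N)
    (hw : N + n + 4 ≤ 2 ^ w)
    (hroot : r ≤ t * (n / N))
    (hC1 : 5 * w + 5 + N + ((n + 1) / (N.choose t) + 1) * (k.choose t) ≤ r)
    (hC2 : n + (w + 2) + N * (2 * (N + 1 + (w + 2)) + r) < θ + (k + 1) * (n / N)) :
    ∃ F : Finset (Clause n),
      (∀ C ∈ F, ∃ e ∈ (Finset.univ : Finset (Fin N)).powersetCard t,
        ∃ S ⊆ vars (rblk n N hN) e, clauseOf (rblk n N hN) e S = C) ∧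
      (∀ x : Asg n, ∃ C ∈ F, FalseAt C x) ∧
      ∀ (lines : Finset (Finset (Asg n))) (rk : Finset (Asg n) → ℕ), ResLin F lines rk →
        2 ^ n * 2 ^ n ≤ lines.card * 2 ^ (rk Finset.univ) * (2 * 2 ^ (3 * θ)) := by
  set E := (Finset.univ : Finset (Fin N)).powersetCard t with hEdef
  have hEcard : E.card = N.choose t := by
    rw [hEdef, Finset.card_powersetCard, Finset.card_univ, Fintype.card_fin]
  have hM1 : 1 ≤ N.choose t := Nat.choose_pos htN
  have hM2 : N.choose t ≤ 2 ^ N := Nat.choose_le_two_pow N t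
  set a := (n + 1) / (N.choose t) + 1 with ha
  set s := k.choose t with hsdef
  set b := n / N with hb
  have hwr : 5 ≤ r := by
    have : 0 ≤ a * s := Nat.zero_le _
    omega
  have hW4 : 4 ≤ 2 ^ w := by omega
  have : NeZero (2 ^ a) := ⟨by positivity⟩
  have hE0 : ∀ e ∈ E, e.Nonempty := by
    intro e he
    rw [hEdef, Finset.mem_powersetCard] at he
    exact Finset.card_pos.1 (by omega)
  have hrootc : ∀ e ∈ E, ∀ x : Asg n,
      2 ^ r * (cell (rblk n N hN) Finset.univ e x).card ≤ 2 ^ n := by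
    intro e he x
    have h1 := cell_card (rblk n N hN) e x
    have h2 := vars_lower (n := n) hN e
    rw [hEdef, Finset.mem_powersetCard] at he
    rw [he.2] at h2
    calc 2 ^ r * (cell (rblk n N hN) Finset.univ e x).card
        ≤ 2 ^ (vars (rblk n N hN) e).card * (cell (rblk n N hN) Finset.univ e x).card := by
          apply Nat.mul_le_mul_right
          exact Nat.pow_le_pow_right (by norm_num) (hroot.trans h2)
      _ = _ := by rw [mul_comm]; exact h1
  obtain ⟨ω, h1, h2⟩ := exists_omega_fam (rblk n N hN) E (q := 2 ^ a) (R := 2 ^ r)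
    (R₂ := 2 ^ (N + 1 + (w + 2) + r)) (d := 2 ^ (w + 2)) (Θ := 2 ^ θ)
    (G := 2 ^ (2 * (N + 1 + (w + 2)) + r)) (Λ := 2 ^ (N + 1 + (w + 2))) (s := s)
    (z := 2 ^ (3 * w)) Nat.one_le_two_pow Nat.one_le_two_pow
    (by rw [← pow_add]; congr 1; ring)
    Nat.one_le_two_pow
    (by rw [← pow_add])
    (by rw [hEcard]; exact hM1)
    (by
      intro K x hK
      have h1 := cell_card (rblk n N hN) K x
      have h2 : K.card * b ≤ (vars (rblk n N hN) K).card := vars_lower (n := n) hN K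
      have h3 : 2 ^ (θ + (vars (rblk n N hN) K).card)
          ≤ 2 ^ ((w + 2) + N * (2 * (N + 1 + (w + 2)) + r) + n) := by
        calc 2 ^ (θ + (vars (rblk n N hN) K).card)
            = 2 ^ θ * 2 ^ (vars (rblk n N hN) K).card := pow_add _ _ _
          _ ≤ (2 ^ (w + 2) * (2 ^ (2 * (N + 1 + (w + 2)) + r)) ^ N *
                (cell (rblk n N hN) Finset.univ K x).card) * 2 ^ (vars (rblk n N hN) K).card :=
              Nat.mul_le_mul_right _ hK
          _ = 2 ^ (w + 2) * (2 ^ (2 * (N + 1 + (w + 2)) + r)) ^ N *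
                ((cell (rblk n N hN) Finset.univ K x).card
                  * 2 ^ (vars (rblk n N hN) K).card) := by ring
          _ = 2 ^ (w + 2) * (2 ^ (2 * (N + 1 + (w + 2)) + r)) ^ N * 2 ^ n := by rw [h1]
          _ = _ := by
              rw [← pow_mul, ← pow_add, ← pow_add]
              congr 1
              ring
      have h4 : θ + (vars (rblk n N hN) K).card
          ≤ (w + 2) + N * (2 * (N + 1 + (w + 2)) + r) + n :=
        (Nat.pow_le_pow_iff_right (by norm_num)).1 h3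
      have h5 : K.card ≤ k := by
        by_contra hcon
        push Not at hcon
        have h6 : (k + 1) * b ≤ K.card * b := Nat.mul_le_mul_right _ hcon
        omega
      have h6 : E.filter (fun e => e ⊆ K) = K.powersetCard t := by
        ext e
        simp only [hEdef, Finset.mem_filter, Finset.mem_powersetCard, Finset.subset_univ, true_and]
        tauto
      rw [h6, Finset.card_powersetCard]
      exact Nat.choose_le_choose t h5)
    (by
      rw [hEcard, ← pow_mul]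
      apply Nat.pow_lt_pow_right (by norm_num)
      have h1 : n + 1 < N.choose t * ((n + 1) / N.choose t + 1) := Nat.lt_mul_div_succ _ hM1
      rw [ha, mul_comm]
      exact h1)
    (by
      rw [hEcard, ← pow_mul, ← pow_mul]
      calc 2 * 2 ^ ((w + 2) * 2) * N.choose t * (2 ^ (a * s) * 2 ^ (3 * w))
          ≤ 2 * 2 ^ ((w + 2) * 2) * 2 ^ N * (2 ^ (a * s) * 2 ^ (3 * w)) := by
            apply Nat.mul_le_mul_right
            exact Nat.mul_le_mul_left _ hM2
        _ = 2 ^ (5 * w + 5 + N + a * s) := by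
            rw [show 2 * 2 ^ ((w + 2) * 2) = 2 ^ (2 * w + 5) by
              rw [← pow_succ']; congr 1; ring]
            rw [← pow_add, ← pow_add, ← pow_add]
            congr 1
            ring
        _ ≤ 2 ^ r := Nat.pow_le_pow_right (by norm_num) hC1)
    ((Finset.univ : Finset (Finset (Fin N))) ×ˢ (affFam n))
    (by
      rw [Finset.card_product, Finset.card_univ, Fintype.card_finset, Fintype.card_fin]
      calc 2 * (2 ^ N * (affFam n).card) ≤ 2 * (2 ^ N * 2 ^ (n * (n + 2))) := by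
            apply Nat.mul_le_mul_left
            exact Nat.mul_le_mul_left _ (affFam_card n)
        _ = 2 ^ (N + n * (n + 2) + 1) := by rw [← pow_add, ← pow_succ']
        _ ≤ 2 ^ (2 ^ (3 * w)) := by
            apply Nat.pow_le_pow_right (by norm_num)
            have h3 : 2 ^ (3 * w) = 2 ^ w * 2 ^ w * 2 ^ w := by
              rw [← pow_add, ← pow_add]; congr 1; ring
            rw [h3]
            have h4 : (N + n + 4) * (N + n + 4) ≤ 2 ^ w * 2 ^ w := Nat.mul_le_mul hw hw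
            have h5 : 2 ^ w * 2 ^ w ≤ 2 ^ w * 2 ^ w * 2 ^ w := Nat.le_mul_of_pos_right _ (by positivity)
            nlinarith)
  refine ⟨cnfOf (rblk n N hN) E ω, ?_, ?_, ?_⟩
  · intro C hC
    obtain ⟨e, he, p, _, rfl⟩ := mem_cnfOf.1 hC
    refine ⟨e, he, _, ?_, rfl⟩
    intro v hv
    simp only [Finset.mem_filter, Finset.mem_univ, true_and] at hv
    exact Finset.mem_filter.2 ⟨Finset.mem_univ _, hv.1⟩
  · intro x
    obtain ⟨e, he, hne⟩ := h1 x
    exact ⟨_, mem_cnfOf.2 ⟨e, he, x, hne, rfl⟩, (falseAt_clauseOf _ e x x).2 (Agree.refl _ _ _)⟩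
  · intro lines rk hRL
    have hF : ∀ C ∈ cnfOf (rblk n N hN) E ω, ∃ e ∈ E, ∃ p, ¬ goodOf (rblk n N hN) ω e p ∧
        ∀ x, FalseAt C x → Agree (rblk n N hN) e p x := by
      intro C hC
      obtain ⟨e, he, p, hp, rfl⟩ := mem_cnfOf.1 hC
      exact ⟨e, he, p, hp, fun x hx => (falseAt_clauseOf _ e p x).1 hx⟩
    have hSt : State (rblk n N hN) E (goodOf (rblk n N hN) ω) (2 ^ r) ∅
        (Finset.univ : Finset (Asg n)) := by
      refine ⟨?_, ?_, ?_⟩
      · intro x _ y _ v hv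
        simp at hv
      · intro x _ e he he0
        obtain ⟨i, hi⟩ := hE0 e he
        have := he0 hi
        simp at this
      · intro e he _ x _
        have := hrootc e he x
        simpa [Finset.card_univ] using this
    have hmain := size_depth (blk := rblk n N hN) (E := E) (R₂ := 2 ^ (N + 1 + (w + 2) + r))
      (R := 2 ^ r) (d := 2 ^ (w + 2)) (Θ := 2 ^ θ)
      (G := 2 ^ (2 * (N + 1 + (w + 2)) + r)) (Λ := 2 ^ (N + 1 + (w + 2)))
      (good := goodOf (rblk n N hN) ω)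
      (by
        calc 2 = 2 ^ 1 := rfl
          _ ≤ 2 ^ (w + 2) := Nat.pow_le_pow_right (by norm_num) (by omega))
      Nat.one_le_two_pow
      (by rw [← pow_add]; congr 1; ring)
      (by rw [← pow_add])
      (by
        calc 2 = 2 ^ 1 := rfl
          _ ≤ 2 ^ r := Nat.pow_le_pow_right (by norm_num) (by omega))
      (goodOf_congr ω)
      (by
        intro J W hW hne hpre
        exact h2 (J, W) (Finset.mem_product.2 ⟨Finset.mem_univ _, mem_affFam hW hne⟩) hpre)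
      hF hSt hRL
    rw [← pow_mul, mul_comm θ 3] at hmain
    exact hmain

/-- **Size-depth trade-off for resolution over parities.** -/
theorem main_RL (ε : ℝ) (hε0 : 0 < ε) (hε4 : ε < 4) (c : ℕ) :
    ∃ n₀ : ℕ, ∀ n : ℕ, n₀ ≤ n → ∃ F : Finset (Clause n), (∀ x : Asg n, ∃ C ∈ F, FalseAt C x) ∧
      ∀ (lines : Finset (Finset (Asg n))) (rk : Finset (Asg n) → ℕ), ResLin F lines rk →
        (4 - ε) ^ n * (cnfSize F : ℝ) ^ c < (lines.card : ℝ) * 2 ^ (rk Finset.univ) := by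
  obtain ⟨N, t, hN, ht1, htN, n₀, hn₀⟩ := params ((4 - ε) / 2) (by linarith) (by linarith) c
  refine ⟨n₀, fun n hn => ?_⟩
  obtain ⟨k, θ, w, r, cw, croot, cC1, cC2, hkey⟩ := hn₀ n hn
  obtain ⟨F, hF1, hF2, hF3⟩ := exponent_form_RL hN ht1 htN cw croot cC1 cC2
  refine ⟨F, hF2, ?_⟩
  intro lines rk hRL
  have h1 := hF3 lines rk hRL
  have hsize : (cnfSize F : ℝ) ≤ ((n : ℝ) + 1) ^ 2 * 2 ^ (N + t * (n / N + 1) + 1) := by
    exact_mod_cast cnfSize_bound hN F hF1
  have h1R : (2 : ℝ) ^ n * 2 ^ n ≤ (lines.card : ℝ) * 2 ^ (rk Finset.univ) * (2 * 2 ^ (3 * θ)) := by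
    exact_mod_cast h1
  have hpos2 : (0 : ℝ) < 2 ^ n := by positivity
  have hβ : (0 : ℝ) ≤ (4 - ε) / 2 := by linarith
  have h2 : (4 - ε) ^ n * (cnfSize F : ℝ) ^ c * (2 * 2 ^ (3 * θ)) < 2 ^ n * 2 ^ n := by
    have e1 : (4 - ε) ^ n = ((4 - ε) / 2) ^ n * 2 ^ n := by
      rw [← mul_pow]; congr 1; ring
    calc (4 - ε) ^ n * (cnfSize F : ℝ) ^ c * (2 * 2 ^ (3 * θ))
        = (((4 - ε) / 2) ^ n * (cnfSize F : ℝ) ^ c * (2 * 2 ^ (3 * θ))) * 2 ^ n := by
          rw [e1]; ring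
      _ ≤ (((4 - ε) / 2) ^ n * (((n : ℝ) + 1) ^ 2 * 2 ^ (N + t * (n / N + 1) + 1)) ^ c
            * (2 * 2 ^ (3 * θ))) * 2 ^ n := by
          apply mul_le_mul_of_nonneg_right _ hpos2.le
          apply mul_le_mul_of_nonneg_right _ (by positivity)
          apply mul_le_mul_of_nonneg_left _ (by positivity)
          exact pow_le_pow_left₀ (by positivity) hsize c
      _ < 2 ^ n * 2 ^ n := mul_lt_mul_of_pos_right hkey hpos2
  have h2θ : (0 : ℝ) < 2 * 2 ^ (3 * θ) := by positivity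
  have h3 := h2.trans_le h1R
  exact lt_of_mul_lt_mul_right h3 h2θ.le

end Pool.Agent.H538R2.SB
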